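import Mathlib
import Pool.Agent.Helper730.Lex

set_option autoImplicit false
set_option linter.unusedSectionVars false

open scoped Pointwise
open Finset

namespace Pool.Agent.TH409.CS

open Pool.Agent.Helper730.Kneser
open Pool.Agent.Helper730.Atoms
open Pool.Agent.Helper730.Signed
open Pool.Agent.Helper730.Lex

universe u

variable {G : Type u} [AddCommGroup G] [Fintype G] [DecidableEq G]

/-- Part of `B` outside the subgroup `H`. -/
noncomputable def out (B : Finset G) (H : AddSubgroup G) : Finset G := by
  classical exact B.filter (fun x => x ∉ H)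

theorem mem_out {B : Finset G} {H : AddSubgroup G} {x : G} : x ∈ out B H ↔ x ∈ B ∧ x ∉ H := by
  classical
  simp [out]

theorem mem_cs0 {B : Finset G} {H : AddSubgroup G} {x : G} :
    x ∈ cs B H 0 ↔ x ∈ B ∧ x ∈ H := by
  rw [mem_cs, sub_zero]

theorem card_split (B : Finset G) (H : AddSubgroup G) :
    (cs B H 0).card + (out B H).card = B.card := by
  classical
  rw [← Finset.card_union_of_disjoint]
  · congr 1
    ext x
    rw [Finset.mem_union, mem_cs0, mem_out]
    tauto
  · rw [Finset.disjoint_left]
    intro x hx hx'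
    exact (mem_out.mp hx').2 (mem_cs0.mp hx).2

theorem cs_sub {B : Finset G} {H : AddSubgroup G} {x : G} : cs B H x ⊆ B :=
  fun _ hx => (mem_cs.mp hx).1

theorem hs_split (B : Finset G) (H : AddSubgroup G) (n : ℕ) :
    hs B (n + 1) = hs (cs B H 0) (n + 1) ∪ (hs B n + out B H) := by
  classical
  have hB : B = cs B H 0 ∪ out B H := by
    ext x
    rw [Finset.mem_union, mem_cs0, mem_out]
    tauto
  induction n with
  | zero =>
    rw [zero_add, hs_one, hs_one, hs_zero, Finset.singleton_zero, zero_add]
    exact hB
  | succ n ih =>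
    apply Finset.Subset.antisymm
    · intro z hz
      rw [hs_succ] at hz
      obtain ⟨w, hw, x, hx, rfl⟩ := Finset.mem_add.mp hz
      rw [Finset.mem_union]
      by_cases hxH : x ∈ H
      · rw [ih, Finset.mem_union] at hw
        rcases hw with hw | hw
        · left
          rw [hs_succ]
          exact Finset.add_mem_add hw (mem_cs0.mpr ⟨hx, hxH⟩)
        · right
          obtain ⟨w', hw', y, hy, rfl⟩ := Finset.mem_add.mp hw
          have : w' + y + x = (w' + x) + y := by abel
          rw [this]
          apply Finset.add_mem_add _ hy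
          rw [hs_succ]
          exact Finset.add_mem_add hw' hx
      · right
        exact Finset.add_mem_add hw (mem_out.mpr ⟨hx, hxH⟩)
    · apply Finset.union_subset
      · exact hs_mono cs_sub _
      · rw [hs_succ B (n + 1)]
        apply Finset.add_subset_add_left
        intro x hx
        exact (mem_out.mp hx).1

theorem hs_cs0_sub (B : Finset G) (H : AddSubgroup G) (n : ℕ) :
    ∀ w ∈ hs (cs B H 0) n, w ∈ H := by
  intro w hw
  have := hs_cs_sub B H 0 n w hw
  simpa using this

theorem hs_cs0_card_le (B : Finset G) (H : AddSubgroup G) (n : ℕ) :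
    (hs (cs B H 0) n).card ≤ (fs H).card :=
  Finset.card_le_card (fun w hw => mem_fs.mpr (hs_cs0_sub B H n w hw))

/-- `hs` commutes with homomorphisms. -/
theorem hs_image {G' : Type*} [AddCommGroup G'] [Fintype G'] [DecidableEq G']
    (f : G →+ G') (C : Finset G) (n : ℕ) : hs (C.image f) n = (hs C n).image f := by
  induction n with
  | zero => simp [hs_zero]
  | succ n ih =>
    rw [hs_succ, hs_succ, ih, Finset.image_add]

theorem hs_tr (B : Finset G) (g : G) (n : ℕ) : hs (tr B g) n = tr (hs B n) (n • g) := by
  induction n with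
  | zero =>
    ext x
    simp [hs_zero, mem_tr]
  | succ n ih =>
    rw [hs_succ, hs_succ, ih]
    ext x
    rw [mem_tr, Finset.mem_add, Finset.mem_add]
    constructor
    · rintro ⟨a, ha, b, hb, rfl⟩
      rw [mem_tr] at ha hb
      refine ⟨_, ha, _, hb, ?_⟩
      rw [succ_nsmul]; abel
    · rintro ⟨a, ha, b, hb, hab⟩
      refine ⟨a + n • g, ?_, b + g, ?_, ?_⟩
      · rw [mem_tr, add_sub_cancel_right]; exact ha
      · rw [mem_tr, add_sub_cancel_right]; exact hb
      · have : a + n • g + (b + g) = (a + b) + (n + 1) • g := by rw [succ_nsmul]; abel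
        rw [this, hab]; abel

theorem card_hs_tr (B : Finset G) (g : G) (n : ℕ) : (hs (tr B g) n).card = (hs B n).card := by
  rw [hs_tr, card_tr]

theorem stab_tr (C : Finset G) (g : G) : stab (tr C g) = stab C := by
  ext u
  rw [mem_stab, mem_stab]
  constructor
  · intro h x
    have := h (x + g)
    rw [mem_tr, mem_tr] at this
    have e1 : x + g - g = x := by abel
    have e2 : x + g + u - g = x + u := by abel
    rwa [e1, e2] at this
  · intro h x
    rw [mem_tr, mem_tr]
    have := h (x - g)
    have e2 : x - g + u = x + u - g := by abel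
    rwa [e2] at this

/-- zero belongs to all iterated sumsets -/
theorem zero_mem_hs {B : Finset G} (h0 : (0 : G) ∈ B) (n : ℕ) : (0 : G) ∈ hs B n := by
  induction n with
  | zero => simp [hs_zero]
  | succ n ih =>
    rw [hs_succ]
    have := Finset.add_mem_add ih h0
    rwa [add_zero] at this

theorem hs_le_succ {B : Finset G} (h0 : (0 : G) ∈ B) (n : ℕ) : hs B n ⊆ hs B (n + 1) := by
  intro x hx
  rw [hs_succ]
  have := Finset.add_mem_add hx h0
  rwa [add_zero] at this

theorem hs_le_of_le {B : Finset G} (h0 : (0 : G) ∈ B) {m n : ℕ} (h : m ≤ n) :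
    hs B m ⊆ hs B n := by
  induction h with
  | refl => exact Finset.Subset.refl _
  | step _ ih => exact ih.trans (hs_le_succ h0 _)

theorem card_add_ge_left (U V : Finset G) (hV : V.Nonempty) : U.card ≤ (U + V).card :=
  Finset.card_le_card_add_right hV

theorem card_le_hs (B : Finset G) (hB : B.Nonempty) (n : ℕ) (hn : 1 ≤ n) :
    B.card ≤ (hs B n).card := by
  obtain ⟨m, rfl⟩ : ∃ m, n = m + 1 := ⟨n - 1, by omega⟩
  rw [hs_succ, add_comm]
  exact Finset.card_le_card_add_right (hs_nonempty hB m)

/-- Two large parts of cosets fill the sum coset. -/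
theorem fullpair2 (U V : Finset G) (H : AddSubgroup G) (a b g : G) (hg : g ∈ H)
    (hU : ∀ x ∈ U, x - a ∈ H) (hV : ∀ x ∈ V, x - b ∈ H)
    (hc : (fs H).card + 1 ≤ U.card + V.card) : a + b + g ∈ U + V := by
  by_contra hcon
  have hinj : Function.Injective (fun v : G => a + b + g - v) := by
    intro v v' h
    exact sub_right_injective h
  have hdis : Disjoint U (V.image (fun v => a + b + g - v)) := by
    rw [Finset.disjoint_left]
    intro u hu hu'
    rw [Finset.mem_image] at hu'
    obtain ⟨v, hv, rfl⟩ := hu'
    apply hcon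
    have := Finset.add_mem_add hu hv
    rwa [sub_add_cancel] at this
  have hsub : U ∪ V.image (fun v => a + b + g - v) ⊆ tr (fs H) a := by
    intro u hu
    rw [Finset.mem_union, Finset.mem_image] at hu
    rw [mem_tr, mem_fs]
    rcases hu with hu | ⟨v, hv, rfl⟩
    · exact hU u hu
    · have : a + b + g - v - a = g - (v - b) := by abel
      rw [this]
      exact H.sub_mem hg (hV v hv)
  have := Finset.card_le_card hsub
  rw [Finset.card_union_of_disjoint hdis, Finset.card_image_of_injective _ hinj, card_tr] at this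
  omega

/-- Scherk's theorem (two summands): zero has a unique representation. -/
theorem scherk2 (A B : Finset G) (hA : (0 : G) ∈ A) (hB : (0 : G) ∈ B)
    (hu : ∀ b ∈ B, b ≠ 0 → -b ∉ A) : A.card + B.card ≤ (A + B).card + 1 := by
  classical
  set K := stab (A + B) with hK
  have h1 := kneser' A B ⟨0, hA⟩ ⟨0, hB⟩
  rw [← hK] at h1
  have h2 : (fs K).card + A.card ≤ (A + fs K).card + (cs A K 0).card := holes_one hA
  have h3 : (fs K).card + B.card ≤ (B + fs K).card + (cs B K 0).card := holes_one hB
  have h4 : (cs A K 0).card + (cs B K 0).card ≤ (fs K).card + 1 := by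
    have hdis : Disjoint (cs A K 0) (((cs B K 0).erase 0).image (fun v => -v)) := by
      rw [Finset.disjoint_left]
      intro x hx hx'
      rw [Finset.mem_image] at hx'
      obtain ⟨v, hv, rfl⟩ := hx'
      rw [Finset.mem_erase, mem_cs0] at hv
      exact hu v hv.2.1 hv.1 (mem_cs0.mp hx).1
    have hsub : cs A K 0 ∪ ((cs B K 0).erase 0).image (fun v => -v) ⊆ fs K := by
      intro x hx
      rw [Finset.mem_union, Finset.mem_image] at hx
      rw [mem_fs]
      rcases hx with hx | ⟨v, hv, rfl⟩
      · exact (mem_cs0.mp hx).2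
      · rw [Finset.mem_erase, mem_cs0] at hv
        exact K.neg_mem hv.2.2
    have h5 := Finset.card_le_card hsub
    rw [Finset.card_union_of_disjoint hdis, Finset.card_image_of_injective _ neg_injective,
      Finset.card_erase_of_mem (mem_cs0.mpr ⟨hB, K.zero_mem⟩)] at h5
    omega
  omega

/-- Zero is uniquely represented in the `(k+1)`-fold sumset. -/
def Uniq (k : ℕ) (B : Finset G) : Prop := ∀ b ∈ B, b ≠ 0 → -b ∉ hs B k

theorem Uniq.of_le {k l : ℕ} {B : Finset G} (h0 : (0 : G) ∈ B) (h : Uniq k B) (hl : l ≤ k) :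
    Uniq l B := fun b hb hb0 hc => h b hb hb0 (hs_le_of_le h0 hl hc)

theorem Uniq.subset {k : ℕ} {B C : Finset G} (h : Uniq k B) (hC : C ⊆ B) : Uniq k C :=
  fun b hb hb0 hc => h b (hC hb) hb0 (hs_mono hC k hc)

theorem scherk_step {k : ℕ} {B : Finset G} (h0 : (0 : G) ∈ B) (h : Uniq k B) :
    (hs B k).card + B.card ≤ (hs B (k + 1)).card + 1 := by
  rw [hs_succ]
  exact scherk2 _ _ (zero_mem_hs h0 k) h0 h

/-- Scherk's theorem, iterated. -/
theorem scherk {k : ℕ} {B : Finset G} (h0 : (0 : G) ∈ B) (h : Uniq k B) :
    (k + 1) * B.card ≤ (hs B (k + 1)).card + k := by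
  induction k with
  | zero => rw [zero_add, hs_one]; omega
  | succ k ih =>
    have h1 := ih (h.of_le h0 (Nat.le_succ k))
    have h2 := scherk_step h0 h
    have : (k + 1 + 1) * B.card = (k + 1) * B.card + B.card := by ring
    omega

theorem scherk_tail {k : ℕ} {B : Finset G} (h0 : (0 : G) ∈ B) (h : Uniq k B) (j : ℕ)
    (hj : j ≤ k) :
    (hs B (j + 1)).card + (k - j) * B.card ≤ (hs B (k + 1)).card + (k - j) := by
  induction k with
  | zero =>
    have : j = 0 := by omega
    subst this
    simp
  | succ k ih =>
    rcases Nat.lt_or_ge k j with hk | hk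
    · have : j = k + 1 := by omega
      subst this
      simp
    · have h1 := ih (h.of_le h0 (Nat.le_succ k)) hk
      have h2 := scherk_step h0 h
      obtain ⟨d, hd⟩ : ∃ d, k = j + d := ⟨k - j, by omega⟩
      subst hd
      have e1 : j + d - j = d := by omega
      have e2 : j + d + 1 - j = d + 1 := by omega
      rw [e1] at h1
      rw [e2]
      have : (d + 1) * B.card = d * B.card + B.card := by ring
      omega

end Pool.Agent.TH409.CS
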