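import Mathlib
import Pool.Agent.TH409.CS1

set_option autoImplicit false
set_option linter.unusedSectionVars false

open scoped Pointwise
open Finset

namespace Pool.Agent.TH409.CS

open Pool.Agent.Helper730.Kneser
open Pool.Agent.Helper730.Atoms
open Pool.Agent.Helper730.Signed
open Pool.Agent.Helper730.Lex

universe u

variable {G : Type u} [AddCommGroup G] [Fintype G] [DecidableEq G]

/-- corner-critical sets -/
def Cor (k : ℕ) (B : Finset G) : Prop :=
  (0 : G) ∈ B ∧ Uniq k B ∧ (hs B (k + 1)).card + (k + 1) = (k + 1) * B.card + 1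

theorem mem_im_mk {K : AddSubgroup G} {C : Finset G} {x : G} (h : x ∈ C) :
    (QuotientAddGroup.mk x : G ⧸ K) ∈ im K C := mem_im.mpr ⟨x, h, rfl⟩

theorem mk_eq_mk {K : AddSubgroup G} {x y : G} :
    (QuotientAddGroup.mk x : G ⧸ K) = QuotientAddGroup.mk y ↔ x - y ∈ K := by
  rw [QuotientAddGroup.eq]
  constructor
  · intro h
    have := K.neg_mem h
    have e : -(-x + y) = x - y := by abel
    rwa [e] at this
  · intro h
    have := K.neg_mem h
    have e : -(x - y) = -x + y := by abel
    rwa [e] at this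

theorem mk_eq_zero {K : AddSubgroup G} {x : G} :
    (QuotientAddGroup.mk x : G ⧸ K) = 0 ↔ x ∈ K := QuotientAddGroup.eq_zero_iff x

noncomputable instance qdec (K : AddSubgroup G) : DecidableEq (G ⧸ K) := Classical.decEq _

noncomputable instance qfin (K : AddSubgroup G) : Fintype (G ⧸ K) := Fintype.ofFinite _

theorem im_eq (K : AddSubgroup G) (C : Finset G) :
    im K C = C.image (QuotientAddGroup.mk' K) := by
  ext y
  rw [mem_im, Finset.mem_image]
  rfl

theorem hs_im (K : AddSubgroup G) (C : Finset G) (n : ℕ) :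
    hs (im K C) n = im K (hs C n) := by
  rw [im_eq, im_eq, hs_image]

/-- The counting step common to the two decompositions. -/
theorem stepQ (k : ℕ) (A : Finset G) (H : AddSubgroup G) (h0 : (0 : G) ∈ A)
    (P1 : H ≤ stab (hs A k + out A H))
    (P2 : ∀ x ∈ out A H, ∀ w ∈ hs A k, w + x ∉ H)
    (P3 : (k + 1) * (cs A H 0).card ≤ (hs (cs A H 0) (k + 1)).card + k)
    (P4 : (hs A (k + 1)).card + (k + 1) ≤ (k + 1) * A.card + 1) :
    H ≤ stab (out A H) ∧
      (hs (cs A H 0) (k + 1)).card + (k + 1) = (k + 1) * (cs A H 0).card + 1 ∧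
      Cor k (im H A) := by
  classical
  -- notation
  set A0 := cs A H 0 with hA0
  set A1 := out A H with hA1
  set D := hs A k + A1 with hD
  have hsplit : hs A (k + 1) = hs A0 (k + 1) ∪ D := hs_split A H k
  have hdis : Disjoint (hs A0 (k + 1)) D := by
    rw [Finset.disjoint_left]
    intro z hz hz'
    obtain ⟨w, hw, x, hx, rfl⟩ := Finset.mem_add.mp hz'
    exact P2 x hx w hw (hs_cs0_sub A H (k + 1) _ hz)
  have hcard : (hs A (k + 1)).card = (hs A0 (k + 1)).card + D.card := by
    rw [hsplit, Finset.card_union_of_disjoint hdis]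
  have hcA := card_split A H
  rw [← hA0, ← hA1] at hcA
  -- the quotient
  have hzq : (0 : G ⧸ H) ∈ im H A := mem_im.mpr ⟨0, h0, rfl⟩
  have huq : Uniq k (im H A) := by
    intro b hb hb0 hc
    obtain ⟨x, hx, rfl⟩ := mem_im.mp hb
    rw [hs_im] at hc
    obtain ⟨w, hw, hwx⟩ := mem_im.mp hc
    have hxH : x ∉ H := fun h => hb0 (mk_eq_zero.mpr h)
    apply P2 x (mem_out.mpr ⟨hx, hxH⟩) w hw
    rw [← mk_eq_zero]
    have : (QuotientAddGroup.mk (w + x) : G ⧸ H)
        = QuotientAddGroup.mk w + QuotientAddGroup.mk x := rfl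
    rw [this, hwx]
    exact neg_add_cancel _
  have hsch := scherk hzq huq
  -- images
  have himD : im H D = (hs (im H A) (k + 1)).erase 0 := by
    ext y
    rw [Finset.mem_erase, hs_im, mem_im, mem_im]
    constructor
    · rintro ⟨z, hz, rfl⟩
      refine ⟨?_, z, ?_, rfl⟩
      · intro hy
        obtain ⟨w, hw, x, hx, rfl⟩ := Finset.mem_add.mp hz
        exact P2 x hx w hw (mk_eq_zero.mp hy)
      · rw [hsplit]; exact Finset.mem_union_right _ hz
    · rintro ⟨hy, z, hz, rfl⟩
      rw [hsplit, Finset.mem_union] at hz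
      rcases hz with hz | hz
      · exact absurd (mk_eq_zero.mpr (hs_cs0_sub A H (k + 1) _ hz)) hy
      · exact ⟨z, hz, rfl⟩
  have hDc : D.card = (fs H).card * ((hs (im H A) (k + 1)).card - 1) := by
    rw [card_eq_im H D P1, himD, Finset.card_erase_of_mem (zero_mem_hs hzq _)]
  have himA1 : im H A1 = (im H A).erase 0 := by
    ext y
    rw [Finset.mem_erase, mem_im, mem_im]
    constructor
    · rintro ⟨z, hz, rfl⟩
      exact ⟨fun h => (mem_out.mp hz).2 (mk_eq_zero.mp h), z, (mem_out.mp hz).1, rfl⟩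
    · rintro ⟨hy, z, hz, rfl⟩
      exact ⟨z, mem_out.mpr ⟨hz, fun h => hy (mk_eq_zero.mpr h)⟩, rfl⟩
  have hA1c : A1.card ≤ (fs H).card * ((im H A).card - 1) := by
    have := card_le_im H A1
    rwa [himA1, Finset.card_erase_of_mem hzq] at this
  obtain ⟨a, ha⟩ : ∃ a, (im H A).card = a + 1 :=
    ⟨(im H A).card - 1, by have := Finset.card_pos.mpr ⟨_, hzq⟩; omega⟩
  obtain ⟨t, ht⟩ : ∃ t, (hs (im H A) (k + 1)).card = t + 1 :=
    ⟨(hs (im H A) (k + 1)).card - 1, by
      have := Finset.card_pos.mpr ⟨_, zero_mem_hs hzq (k + 1)⟩; omega⟩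
  rw [ha, ht] at hsch
  rw [ht] at hDc
  rw [ha] at hA1c
  simp only [Nat.add_sub_cancel] at hDc hA1c
  have hHpos := fs_card_pos H
  set N := (fs H).card with hN
  have hta : (k + 1) * a ≤ t := by
    have : (k + 1) * (a + 1) = (k + 1) * a + (k + 1) := by ring
    omega
  have e1 : N * ((k + 1) * a) ≤ N * t := Nat.mul_le_mul_left _ hta
  have e2 : (k + 1) * A.card = (k + 1) * A0.card + (k + 1) * A1.card := by
    rw [← hcA]; ring
  have e3 : (k + 1) * A1.card ≤ (k + 1) * (N * a) := Nat.mul_le_mul_left _ hA1c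
  have e4 : (k + 1) * (N * a) = N * ((k + 1) * a) := by ring
  have e5 : (k + 1) * A1.card = (k + 1) * (N * a) := by omega
  have e6 : A1.card = N * a := Nat.eq_of_mul_eq_mul_left (Nat.succ_pos k) e5
  have e7 : N * ((k + 1) * a) = N * t := by omega
  have e8 : (k + 1) * a = t := Nat.eq_of_mul_eq_mul_left hHpos e7
  refine ⟨?_, by omega, hzq, huq, ?_⟩
  · -- saturation
    have hsat : A1 = A1 + fs H := by
      apply Finset.eq_of_subset_of_card_le (subset_add_fs A1 H)
      have hper : H ≤ stab (A1 + fs H) := by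
        intro g hg
        apply mem_stab_of_forall
        intro x hx
        obtain ⟨y, hy, u, hu, rfl⟩ := Finset.mem_add.mp hx
        rw [add_assoc]
        exact Finset.add_mem_add hy (mem_fs.mpr (H.add_mem (mem_fs.mp hu) hg))
      rw [card_eq_im H _ hper, e6, ← hN]
      apply Nat.mul_le_mul_left
      have : im H (A1 + fs H) ⊆ im H A1 := by
        intro y hy
        obtain ⟨z, hz, rfl⟩ := mem_im.mp hy
        obtain ⟨x, hx, u, hu, rfl⟩ := Finset.mem_add.mp hz
        refine mem_im.mpr ⟨x, hx, ?_⟩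
        rw [mk_eq_mk]
        have : x - (x + u) = -u := by abel
        rw [this]
        exact H.neg_mem (mem_fs.mp hu)
      have h2 := Finset.card_le_card this
      rw [himA1, Finset.card_erase_of_mem hzq, ha] at h2
      simpa using h2
    rw [hsat]
    intro g hg
    apply mem_stab_of_forall
    intro x hx
    obtain ⟨y, hy, u, hu, rfl⟩ := Finset.mem_add.mp hx
    rw [add_assoc]
    exact Finset.add_mem_add hy (mem_fs.mpr (H.add_mem (mem_fs.mp hu) hg))
  · rw [ha, ht, ← e8]
    ring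

theorem P1_of (k : ℕ) (hk : 1 ≤ k) (B : Finset G) (H : AddSubgroup G) (h0 : (0 : G) ∈ B)
    (hc : (B + fs H).card + 1 ≤ B.card + (fs H).card)
    (hs2 : 2 * (cs B H 0).card ≤ (fs H).card + 1) :
    H ≤ stab (hs B k + out B H) := by
  intro u hu
  apply mem_stab_of_forall
  intro z hz
  obtain ⟨w, hw, x, hx, rfl⟩ := Finset.mem_add.mp hz
  have hxB := (mem_out.mp hx).1
  have hxH := (mem_out.mp hx).2
  have hout : ∀ y, y ∈ out B H → cs B H y ⊆ out B H := by
    intro y hy v hv
    refine mem_out.mpr ⟨(mem_cs.mp hv).1, fun hvH => (mem_out.mp hy).2 ?_⟩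
    have := H.sub_mem hvH (mem_cs.mp hv).2
    have e : v - (v - y) = y := by abel
    rwa [e] at this
  have hbig : ∀ y, y ∈ out B H → (fs H).card + 1 ≤ (cs B H 0).card + (cs B H y).card := by
    intro y hy
    have h1 : (0 : G) - y ∉ H := by
      intro h
      apply (mem_out.mp hy).2
      have := H.neg_mem h
      simpa using this
    have := holes_two h0 (mem_out.mp hy).1 h1
    omega
  obtain ⟨m, rfl⟩ : ∃ m, k = m + 1 := ⟨k - 1, by omega⟩
  rw [hs_split B H m, Finset.mem_union] at hw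
  rcases hw with hw | hw
  · have h1 : (cs B H 0).card ≤ (hs (cs B H 0) (m + 1)).card :=
      card_le_hs _ ⟨0, mem_cs0.mpr ⟨h0, H.zero_mem⟩⟩ _ hk
    have h2 := hbig x hx
    have h3 := fullpair2 (hs (cs B H 0) (m + 1)) (cs B H x) H w x u hu
      (fun y hy => H.sub_mem (hs_cs0_sub B H _ y hy) (hs_cs0_sub B H _ w hw))
      (fun y hy => (mem_cs.mp hy).2) (by omega)
    obtain ⟨p, hp, q, hq, hpq⟩ := Finset.mem_add.mp h3
    rw [← hpq]
    exact Finset.add_mem_add (hs_mono cs_sub _ hp) (hout x hx hq)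
  · obtain ⟨w', hw', y, hy, rfl⟩ := Finset.mem_add.mp hw
    have h2 := hbig x hx
    have h3 := hbig y hy
    have h4 := fullpair2 (cs B H y) (cs B H x) H y x u hu
      (fun v hv => (mem_cs.mp hv).2) (fun v hv => (mem_cs.mp hv).2) (by omega)
    obtain ⟨p, hp, q, hq, hpq⟩ := Finset.mem_add.mp h4
    have : w' + y + x + u = (w' + p) + q := by
      have e : w' + y + x + u = w' + (y + x + u) := by abel
      rw [e, ← hpq]; abel
    rw [this]
    apply Finset.add_mem_add _ (hout x hx hq)
    rw [hs_succ]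
    exact Finset.add_mem_add hw' (mem_cs.mp hp).1

/-- Decomposition of corner-critical sets. -/
theorem stepR' (k : ℕ) (hk : 1 ≤ k) (B : Finset G) (H : AddSubgroup G) (hB : Cor k B)
    (hc : (B + fs H).card + 1 ≤ B.card + (fs H).card) :
    H ≤ stab (out B H) ∧ Cor k (cs B H 0) ∧ Cor k (im H B) := by
  obtain ⟨h0, hu, hcard⟩ := hB
  have h00 : (0 : G) ∈ cs B H 0 := mem_cs0.mpr ⟨h0, H.zero_mem⟩
  have hu0 : Uniq k (cs B H 0) := hu.subset cs_sub
  have P3 := scherk h00 hu0
  have hle := hs_cs0_card_le B H (k + 1)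
  have hs1 : 1 ≤ (cs B H 0).card := Finset.card_pos.mpr ⟨0, h00⟩
  have hs2 : 2 * (cs B H 0).card ≤ (fs H).card + 1 := by
    obtain ⟨s, hs⟩ : ∃ s, (cs B H 0).card = s + 1 := ⟨(cs B H 0).card - 1, by omega⟩
    rw [hs] at P3 ⊢
    have : s ≤ k * s := Nat.le_mul_of_pos_left s hk
    have e : (k + 1) * (s + 1) = k * s + s + k + 1 := by ring
    omega
  have P1 := P1_of k hk B H h0 hc hs2
  have P2 : ∀ x ∈ out B H, ∀ w ∈ hs B k, w + x ∉ H := by
    intro x hx w hw hwx
    have h1 := stab_add (P1 (H.neg_mem hwx)) (Finset.add_mem_add hw hx)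
    rw [add_neg_cancel] at h1
    obtain ⟨w', hw', x', hx', he⟩ := Finset.mem_add.mp h1
    have hx0 : x' ≠ 0 := by
      intro h
      apply (mem_out.mp hx').2
      rw [h]; exact H.zero_mem
    apply hu x' (mem_out.mp hx').1 hx0
    have : -x' = w' := by
      rw [← zero_sub, ← he]; abel
    rw [this]
    exact hw'
  obtain ⟨q1, q2, q3⟩ := stepQ k B H h0 P1 P2 P3 (by omega)
  exact ⟨q1, ⟨h00, hu0, q2⟩, q3⟩

/-- Decomposition of aperiodic critical sets. -/
theorem stepR (k : ℕ) (hk : 1 ≤ k) (A : Finset G) (H : AddSubgroup G) (hH : H ≠ ⊥)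
    (hst : stab (hs A (k + 1)) = ⊥)
    (hcard : (hs A (k + 1)).card + (k + 1) = (k + 1) * A.card + 1)
    (hc : (A + fs H).card + 1 ≤ A.card + (fs H).card) :
    ∃ x0 ∈ A, H ≤ stab (out (tr A (-x0)) H) ∧
      stab (hs (cs (tr A (-x0)) H 0) (k + 1)) = ⊥ ∧
      (hs (cs (tr A (-x0)) H 0) (k + 1)).card + (k + 1)
        = (k + 1) * (cs (tr A (-x0)) H 0).card + 1 ∧
      Cor k (im H (tr A (-x0))) := by
  -- an element showing that the sumset is not periodic
  obtain ⟨z, hz, u, hu, hzu⟩ : ∃ z ∈ hs A (k + 1), ∃ u ∈ H, z + u ∉ hs A (k + 1) := by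
    by_contra hcon
    push Not at hcon
    apply hH
    rw [eq_bot_iff, ← hst]
    intro g hg
    exact mem_stab_of_forall (fun x hx => hcon x hx g hg)
  rcases alt A H (fun x hx y hy hxy => by
      have := holes_two hx hy hxy
      omega) k z hz with h | ⟨x0, hx0, hz0, h2⟩
  · exact absurd (h u hu) hzu
  refine ⟨x0, hx0, ?_⟩
  have h2' := h2 hk
  set B := tr A (-x0) with hB
  have hBA : A = tr B x0 := by
    ext x
    rw [mem_tr, hB, mem_tr]
    have : x - x0 - -x0 = x := by abel
    rw [this]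
  have h0 : (0 : G) ∈ B := by
    rw [hB, mem_tr]
    simpa using hx0
  have hcs : cs A H x0 = tr (cs B H 0) x0 := by
    ext x
    rw [mem_cs, mem_tr, mem_cs0, hB, mem_tr]
    have : x - x0 - -x0 = x := by abel
    rw [this]
  have hcsc : (cs A H x0).card = (cs B H 0).card := by rw [hcs, card_tr]
  have hBc : B.card = A.card := by rw [hB, card_tr]
  have hBst : stab (hs B (k + 1)) = ⊥ := by
    rw [hB, hs_tr, stab_tr, hst]
  have hBh : (hs B (k + 1)).card = (hs A (k + 1)).card := by rw [hB, card_hs_tr]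
  have hcB : (B + fs H).card + 1 ≤ B.card + (fs H).card := by
    have : B + fs H = tr (A + fs H) (-x0) := by rw [hB, tr_add]
    rw [this, card_tr, hBc]
    exact hc
  have hs2 : 2 * (cs B H 0).card ≤ (fs H).card + 1 := by omega
  have P1 := P1_of k hk B H h0 hcB hs2
  have hnot : ∃ v ∈ H, v ∉ hs B (k + 1) := by
    refine ⟨z - (k + 1) • x0 + u, ?_, ?_⟩
    · exact H.add_mem (hs_cs_sub A H x0 (k + 1) z hz0) hu
    · intro h
      apply hzu
      rw [hBA, hs_tr, mem_tr]
      have : z + u - (k + 1) • x0 = z - (k + 1) • x0 + u := by abel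
      rw [this]
      exact h
  have hsub : hs B k + out B H ⊆ hs B (k + 1) := by
    rw [hs_succ]
    exact Finset.add_subset_add_left (fun x hx => (mem_out.mp hx).1)
  have P2 : ∀ x ∈ out B H, ∀ w ∈ hs B k, w + x ∉ H := by
    intro x hx w hw hwx
    obtain ⟨v, hv, hv2⟩ := hnot
    have h1 := stab_add (P1 (H.sub_mem hv hwx)) (Finset.add_mem_add hw hx)
    have e : w + x + (v - (w + x)) = v := by abel
    rw [e] at h1
    exact hv2 (hsub h1)
  have h00 : (0 : G) ∈ cs B H 0 := mem_cs0.mpr ⟨h0, H.zero_mem⟩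
  have hst0 : stab (hs (cs B H 0) (k + 1)) = ⊥ := by
    rw [eq_bot_iff, ← hBst]
    intro g hg
    have hgH : g ∈ H := by
      have h1 := stab_add hg (zero_mem_hs h00 (k + 1))
      rw [zero_add] at h1
      exact hs_cs0_sub B H _ g h1
    apply mem_stab_of_forall
    intro x hx
    rw [hs_split B H k, Finset.mem_union] at hx ⊢
    rcases hx with hx | hx
    · exact Or.inl (stab_add hg hx)
    · exact Or.inr (stab_add (P1 hgH) hx)
  have P3 : (k + 1) * (cs B H 0).card ≤ (hs (cs B H 0) (k + 1)).card + k := by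
    have := hs_lower (X := cs B H 0) ⟨0, h00⟩ (k + 1) hst0
    omega
  obtain ⟨q1, q2, q3⟩ := stepQ k B H h0 P1 P2 P3 (by rw [hBh, hBc]; omega)
  exact ⟨q1, hst0, q2, q3⟩

/-- Stabiliser of the image of a periodic set in the quotient by its stabiliser. -/
theorem stab_im_bot (C : Finset G) (K : AddSubgroup G) (hK : stab C = K) :
    stab (im K C) = ⊥ := by
  rw [eq_bot_iff]
  intro y hy
  obtain ⟨g, rfl⟩ := QuotientAddGroup.mk_surjective y
  rw [AddSubgroup.mem_bot, mk_eq_zero, ← hK]
  apply mem_stab_of_forall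
  intro x hx
  have h1 := stab_add hy (mem_im_mk (K := K) hx)
  obtain ⟨z, hz, hzx⟩ := mem_im.mp h1
  have h2 : (QuotientAddGroup.mk z : G ⧸ K) = QuotientAddGroup.mk (x + g) := hzx
  rw [mk_eq_mk] at h2
  have h3 : (x + g) - z ∈ stab C := by
    rw [hK]
    have := K.neg_mem h2
    have e : -(z - (x + g)) = x + g - z := by abel
    rwa [e] at this
  have h4 := stab_add h3 hz
  have e : z + (x + g - z) = x + g := by abel
  rwa [e] at h4

/-- Kneser's theorem for iterated sumsets, second form. -/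
theorem kneser_hs (A : Finset G) (hA : A.Nonempty) (n : ℕ) (K : AddSubgroup G)
    (hK : stab (hs A n) = K) :
    n * (A + fs K).card + (fs K).card ≤ (hs A n).card + n * (fs K).card := by
  have h1 : stab (hs (im K A) n) = ⊥ := by
    rw [hs_im]
    exact stab_im_bot _ K hK
  have hne : (im K A).Nonempty := by
    obtain ⟨a, ha⟩ := hA
    exact ⟨_, mem_im_mk ha⟩
  have h2 := hs_lower hne n h1
  have h3 : (hs A n).card = (fs K).card * (hs (im K A) n).card := by
    rw [hs_im]
    exact card_eq_im K _ (le_of_eq hK.symm)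
  have hper : K ≤ stab (A + fs K) := by
    intro g hg
    apply mem_stab_of_forall
    intro x hx
    obtain ⟨y, hy, u, hu, rfl⟩ := Finset.mem_add.mp hx
    rw [add_assoc]
    exact Finset.add_mem_add hy (mem_fs.mpr (K.add_mem (mem_fs.mp hu) hg))
  have h4 : (A + fs K).card = (fs K).card * (im K A).card := by
    rw [card_eq_im K _ hper]
    congr 2
    ext y
    rw [mem_im, mem_im]
    constructor
    · rintro ⟨z, hz, rfl⟩
      obtain ⟨x, hx, u, hu, rfl⟩ := Finset.mem_add.mp hz
      refine ⟨x, hx, ?_⟩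
      rw [mk_eq_mk]
      have : x - (x + u) = -u := by abel
      rw [this]
      exact K.neg_mem (mem_fs.mp hu)
    · rintro ⟨z, hz, rfl⟩
      exact ⟨z, subset_add_fs A K hz, rfl⟩
  rw [h3, h4]
  have h5 := Nat.mul_le_mul_left (fs K).card h2
  have e1 : (fs K).card * (n * (im K A).card + 1)
      = n * ((fs K).card * (im K A).card) + (fs K).card := by ring
  have e2 : (fs K).card * ((hs (im K A) n).card + n)
      = (fs K).card * (hs (im K A) n).card + n * (fs K).card := by ring
  rw [e1, e2] at h5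
  exact h5

end Pool.Agent.TH409.CS
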