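import Mathlib

set_option autoImplicit false

namespace Pool.Agent.TH409.CS

universe u

/-- The `h`-fold sumset `{a₁ + ⋯ + a_h : a_i ∈ A}`, repetitions allowed. -/
def sumset {G : Type u} [AddCommGroup G] (h : ℕ) (A : Set G) : Set G :=
  {x | ∃ f : Fin h → G, (∀ i, f i ∈ A) ∧ ∑ i, f i = x}

/-- The least size of the `h`-fold sumset of a subset of size `m` of `G`. -/
noncomputable def rho (G : Type u) [AddCommGroup G] (m h : ℕ) : ℕ :=
  sInf {t | ∃ A : Set G, A.ncard = m ∧ (sumset h A).ncard = t}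

/-- `IsLayer h K L B`: the set `B` is a layer between the subgroups `K ≤ L`, which means one of the
following.
* Progression layer: `B` is the union of the cosets `g + K, 2 g + K, …, c g + K` for some `g ∈ L`
  and some `c`, where none of `g, 2 g, …, (h c) g` lies in `K` (for `c = 0` the layer is empty).
* Half layer (only for `h = 2`): `B` is a union of cosets of `K`, and `L \ K` is the disjoint union
  of `B` and `-B`. -/
def IsLayer (h : ℕ) {G : Type u} [AddCommGroup G] (K L : AddSubgroup G) (B : Set G) : Prop :=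
  K ≤ L ∧
    ((∃ g ∈ L, ∃ c : ℕ, (∀ j : ℕ, 1 ≤ j → j ≤ h * c → j • g ∉ K) ∧
        B = {y | ∃ j : ℕ, 1 ≤ j ∧ j ≤ c ∧ y - j • g ∈ K}) ∨
      (h = 2 ∧ (∀ y ∈ B, ∀ u ∈ K, y + u ∈ B) ∧ (∀ y, (y ∈ B ∨ -y ∈ B) ↔ (y ∈ L ∧ y ∉ K)) ∧
        (∀ y ∈ B, -y ∉ B)))

/-- `IsStaircase h K S`: there is a chain of subgroups `K = P 0 ≤ P 1 ≤ ⋯ ≤ P r` such that `S` is
the union of `K` and of layers `C i` between `P i` and `P (i + 1)`, for `i < r`. -/
def IsStaircase (h : ℕ) {G : Type u} [AddCommGroup G] (K : AddSubgroup G) (S : Set G) : Prop :=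
  ∃ (r : ℕ) (P : ℕ → AddSubgroup G) (C : ℕ → Set G), P 0 = K ∧
    (∀ i < r, IsLayer h (P i) (P (i + 1)) (C i)) ∧
    S = {y | y ∈ K ∨ ∃ i < r, y ∈ C i}

end Pool.Agent.TH409.CS
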