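import Mathlib
import Pool.Agent.TH409.CSDefs

set_option autoImplicit false
set_option linter.unusedSectionVars false

namespace Pool.Agent.TH409.CS

universe u v

variable {G : Type u} [AddCommGroup G] {G' : Type v} [AddCommGroup G']

/-- Unions of layers along a chain of subgroups. -/
inductive Chain (h : ℕ) {G : Type u} [AddCommGroup G] (K : AddSubgroup G) :
    AddSubgroup G → Set G → Prop
  | nil (L : AddSubgroup G) (hKL : K ≤ L) : Chain h K L ∅
  | snoc (K₁ L₁ L : AddSubgroup G) (B B' : Set G) (h1 : Chain h K K₁ B)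
      (h2 : IsLayer h K₁ L₁ B') (h3 : L₁ ≤ L) : Chain h K L (B ∪ B')

theorem IsLayer.map {h : ℕ} {K L : AddSubgroup G'} {B : Set G'} (hB : IsLayer h K L B)
    (f : G' →+ G) (hf : Function.Injective f) :
    IsLayer h (K.map f) (L.map f) (f '' B) := by
  obtain ⟨hKL, hB⟩ := hB
  refine ⟨AddSubgroup.map_mono hKL, ?_⟩
  rcases hB with ⟨g, hg, c, hc, rfl⟩ | ⟨h2, hp, hu, hd⟩
  · left
    refine ⟨f g, ⟨g, hg, rfl⟩, c, ?_, ?_⟩
    · rintro j h1 h2 ⟨u, hu, hfu⟩
      apply hc j h1 h2
      have : f u = f (j • g) := by rw [map_nsmul]; exact hfu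
      rw [← hf this]
      exact hu
    · ext y
      constructor
      · rintro ⟨x, ⟨j, h1, h2, h3⟩, rfl⟩
        exact ⟨j, h1, h2, x - j • g, h3, by rw [map_sub, map_nsmul]⟩
      · rintro ⟨j, h1, h2, u, hu, hfu⟩
        refine ⟨u + j • g, ⟨j, h1, h2, ?_⟩, ?_⟩
        · rw [add_sub_cancel_right]; exact hu
        · rw [map_add, map_nsmul, hfu]; abel
  · right
    refine ⟨h2, ?_, ?_, ?_⟩
    · rintro _ ⟨y, hy, rfl⟩ _ ⟨u, hu, rfl⟩
      exact ⟨y + u, hp y hy u hu, by rw [map_add]⟩
    · intro y
      constructor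
      · rintro (⟨x, hx, rfl⟩ | ⟨x, hx, hxy⟩)
        · have := (hu x).mp (Or.inl hx)
          refine ⟨⟨x, this.1, rfl⟩, ?_⟩
          rintro ⟨z, hz, hzx⟩
          exact this.2 (hf hzx ▸ hz)
        · have := (hu (-x)).mp (Or.inr (by rwa [neg_neg]))
          refine ⟨⟨-x, this.1, by rw [map_neg, hxy, neg_neg]⟩, ?_⟩
          rintro ⟨z, hz, hzx⟩
          apply this.2
          have : f z = f (-x) := by rw [map_neg, hxy, neg_neg]; exact hzx
          exact hf this ▸ hz
      · rintro ⟨⟨x, hx, rfl⟩, hn⟩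
        have := (hu x).mpr ⟨hx, fun hxK => hn ⟨x, hxK, rfl⟩⟩
        rcases this with h | h
        · exact Or.inl ⟨x, h, rfl⟩
        · exact Or.inr ⟨-x, h, by rw [map_neg]⟩
    · rintro _ ⟨y, hy, rfl⟩ ⟨z, hz, hzy⟩
      have : f z = f (-y) := by rw [hzy, map_neg]
      exact hd y hy (hf this ▸ hz)

theorem IsLayer.comap {h : ℕ} {K L : AddSubgroup G'} {B : Set G'} (hB : IsLayer h K L B)
    (f : G →+ G') (hf : Function.Surjective f) :
    IsLayer h (K.comap f) (L.comap f) (f ⁻¹' B) := by
  obtain ⟨hKL, hB⟩ := hB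
  refine ⟨AddSubgroup.comap_mono hKL, ?_⟩
  rcases hB with ⟨g', hg, c, hc, rfl⟩ | ⟨h2, hp, hu, hd⟩
  · left
    obtain ⟨g, rfl⟩ := hf g'
    refine ⟨g, hg, c, ?_, ?_⟩
    · intro j h1 h2 h3
      apply hc j h1 h2
      rw [AddSubgroup.mem_comap, map_nsmul] at h3
      exact h3
    · ext y
      constructor
      · rintro ⟨j, h1, h2, h3⟩
        refine ⟨j, h1, h2, ?_⟩
        rw [AddSubgroup.mem_comap, map_sub, map_nsmul]
        exact h3
      · rintro ⟨j, h1, h2, h3⟩
        refine ⟨j, h1, h2, ?_⟩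
        rw [AddSubgroup.mem_comap, map_sub, map_nsmul] at h3
        exact h3
  · right
    refine ⟨h2, ?_, ?_, ?_⟩
    · intro y hy u hu
      show f (y + u) ∈ B
      rw [map_add]
      exact hp _ hy _ hu
    · intro y
      have := hu (f y)
      rw [← map_neg] at this
      exact this
    · intro y hy hn
      apply hd _ hy
      rw [← map_neg]
      exact hn

theorem Chain.le {h : ℕ} {K L : AddSubgroup G} {B : Set G} (hB : Chain h K L B) : K ≤ L := by
  induction hB with
  | nil L hKL => exact hKL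
  | snoc K₁ L₁ L B B' _ h2 h3 ih => exact ih.trans (h2.1.trans h3)

theorem Chain.mono {h : ℕ} {K L L' : AddSubgroup G} {B : Set G} (hB : Chain h K L B)
    (hL : L ≤ L') : Chain h K L' B := by
  cases hB with
  | nil _ hKL => exact Chain.nil _ (hKL.trans hL)
  | snoc K₁ L₁ _ B B' h1 h2 h3 => exact Chain.snoc K₁ L₁ _ B B' h1 h2 (h3.trans hL)

theorem Chain.trans {h : ℕ} {K L M : AddSubgroup G} {B C : Set G} (hB : Chain h K L B)
    (hC : Chain h L M C) : Chain h K M (B ∪ C) := by
  induction hC with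
  | nil M hLM =>
    rw [Set.union_empty]
    exact hB.mono hLM
  | snoc L₁ M₁ M C C' _ h2 h3 ih =>
    rw [← Set.union_assoc]
    exact Chain.snoc L₁ M₁ _ _ _ ih h2 h3

theorem Chain.map {h : ℕ} {K L : AddSubgroup G'} {B : Set G'} (hB : Chain h K L B)
    (f : G' →+ G) (hf : Function.Injective f) :
    Chain h (K.map f) (L.map f) (f '' B) := by
  induction hB with
  | nil L hKL =>
    rw [Set.image_empty]
    exact Chain.nil _ (AddSubgroup.map_mono hKL)
  | snoc K₁ L₁ L B B' _ h2 h3 ih =>
    rw [Set.image_union]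
    exact Chain.snoc _ _ _ _ _ ih (h2.map f hf) (AddSubgroup.map_mono h3)

theorem Chain.comap {h : ℕ} {K L : AddSubgroup G'} {B : Set G'} (hB : Chain h K L B)
    (f : G →+ G') (hf : Function.Surjective f) :
    Chain h (K.comap f) (L.comap f) (f ⁻¹' B) := by
  induction hB with
  | nil L hKL =>
    rw [Set.preimage_empty]
    exact Chain.nil _ (AddSubgroup.comap_mono hKL)
  | snoc K₁ L₁ L B B' _ h2 h3 ih =>
    rw [Set.preimage_union]
    exact Chain.snoc _ _ _ _ _ ih (h2.comap f hf) (AddSubgroup.comap_mono h3)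

theorem Chain.single {h : ℕ} {K L : AddSubgroup G} {B : Set G} (hB : IsLayer h K L B) :
    Chain h K L B := by
  have := Chain.snoc K L L ∅ B (Chain.nil K le_rfl) hB le_rfl
  rwa [Set.empty_union] at this

theorem IsLayer.empty (h : ℕ) {K L : AddSubgroup G} (hKL : K ≤ L) :
    IsLayer h K L (∅ : Set G) := by
  refine ⟨hKL, Or.inl ⟨0, zero_mem _, 0, ?_, ?_⟩⟩
  · intro j h1 h2
    omega
  · ext y
    simp only [Set.mem_empty_iff_false, Set.mem_ofPred_eq, false_iff, not_exists]
    rintro j ⟨h1, h2, _⟩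
    omega

/-- A chain given by explicit sequences. -/
theorem Chain.seq {h : ℕ} {K L : AddSubgroup G} {B : Set G} (hB : Chain h K L B) :
    ∃ (r : ℕ) (P : ℕ → AddSubgroup G) (C : ℕ → Set G), P 0 = K ∧ P r = L ∧
      (∀ i < r, IsLayer h (P i) (P (i + 1)) (C i)) ∧ ∀ y, y ∈ B ↔ ∃ i < r, y ∈ C i := by
  induction hB with
  | nil L hKL =>
    refine ⟨1, fun i => if i = 0 then K else L, fun _ => ∅, by simp, by simp, ?_, by simp⟩
    intro i hi
    have hi0 : i = 0 := by omega
    subst hi0
    simp only [if_true, Nat.zero_add, Nat.one_ne_zero, if_false]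
    exact IsLayer.empty h hKL
  | snoc K₁ L₁ L B B' _ h2 h3 ih =>
    obtain ⟨r, P, C, hP0, hPr, hlay, hmem⟩ := ih
    refine ⟨r + 2, fun i => if i ≤ r then P i else if i = r + 1 then L₁ else L,
      fun i => if i < r then C i else if i = r then B' else ∅, ?_, ?_, ?_, ?_⟩
    · simp [hP0]
    · simp
    · intro i hi
      rcases Nat.lt_trichotomy i r with h9 | h9 | h9
      · have h4 : i + 1 ≤ r := h9
        simp only [h9.le, h4, h9, if_true]
        exact hlay i h9
      · subst h9
        have h4 : ¬ (i + 1 ≤ i) := by omega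
        simp only [le_refl, if_true, h4, if_false, lt_irrefl]
        rw [hPr]
        exact h2
      · have hi' : i = r + 1 := by omega
        subst hi'
        have h4 : ¬ (r + 1 ≤ r) := by omega
        have h5 : ¬ (r + 1 + 1 ≤ r) := by omega
        have h6 : ¬ (r + 1 + 1 = r + 1) := by omega
        have h7 : ¬ (r + 1 < r) := by omega
        have h8 : ¬ (r + 1 = r) := by omega
        simp only [h4, h5, h6, h7, h8, if_true, if_false]
        exact IsLayer.empty h h3
    · intro y
      simp only [Set.mem_union, hmem]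
      constructor
      · rintro (⟨i, hi, hy⟩ | hy)
        · refine ⟨i, by omega, ?_⟩
          simp [hi, hy]
        · refine ⟨r, by omega, ?_⟩
          simp [hy]
      · rintro ⟨i, hi, hy⟩
        rcases Nat.lt_trichotomy i r with h | h | h
        · left
          refine ⟨i, h, ?_⟩
          simpa [h] using hy
        · right
          subst h
          simpa using hy
        · have h1 : ¬ i < r := by omega
          have h2 : ¬ i = r := by omega
          simp [h1, h2] at hy

theorem Chain.of_seq {h : ℕ} {P : ℕ → AddSubgroup G} {C : ℕ → Set G} : ∀ (r : ℕ),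
    (∀ i < r, IsLayer h (P i) (P (i + 1)) (C i)) →
      Chain h (P 0) (P r) {y | ∃ i < r, y ∈ C i} := by
  intro r
  induction r with
  | zero =>
    intro _
    have e : {y | ∃ i < 0, y ∈ C i} = (∅ : Set G) := by
      ext y
      simp
    rw [e]
    exact Chain.nil _ le_rfl
  | succ r ih =>
    intro hlay
    have h1 := ih (fun i hi => hlay i (by omega))
    have h2 := Chain.snoc _ _ _ _ _ h1 (hlay r (by omega)) le_rfl
    have e : {y | ∃ i < r + 1, y ∈ C i} = {y | ∃ i < r, y ∈ C i} ∪ C r := by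
      ext y
      simp only [Set.mem_ofPred_eq, Set.mem_union]
      constructor
      · rintro ⟨i, hi, hy⟩
        rcases Nat.lt_or_ge i r with h | h
        · exact Or.inl ⟨i, h, hy⟩
        · right
          have : i = r := by omega
          rwa [this] at hy
      · rintro (⟨i, hi, hy⟩ | hy)
        · exact ⟨i, by omega, hy⟩
        · exact ⟨r, by omega, hy⟩
    rw [e]
    exact h2

end Pool.Agent.TH409.CS
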