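import Mathlib
import Pool.Agent.TH409.CS2
import Pool.Agent.TH409.CS3

set_option autoImplicit false
set_option linter.unusedSectionVars false

open scoped Pointwise
open Finset

namespace Pool.Agent.TH409.CS

open Pool.Agent.Helper730.Kneser
open Pool.Agent.Helper730.Atoms
open Pool.Agent.Helper730.Signed
open Pool.Agent.Helper730.Lex

universe u

variable {G : Type u} [AddCommGroup G] [Fintype G] [DecidableEq G]

/-- A downward closed finite set of natural numbers is a range. -/
theorem range_of_down (J : Finset ℕ) (h : ∀ j ∈ J, ∀ i ≤ j, i ∈ J) : J = Finset.range J.card := by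
  apply Finset.eq_of_subset_of_card_le
  · intro j hj
    rw [Finset.mem_range]
    have hsub : Finset.range (j + 1) ⊆ J := by
      intro i hi
      rw [Finset.mem_range] at hi
      exact h j hj i (by omega)
    have := Finset.card_le_card hsub
    rw [Finset.card_range] at this
    omega
  · rw [Finset.card_range]

/-- Sets with a single exit in a generating direction are progressions. -/
theorem ap_form (B : Finset G) (g : G) (hg : AddSubgroup.zmultiples g = ⊤)
    (hstep : ∀ x ∈ B, x ≠ 0 → x + g ∈ B) :
    ∀ x, x ∈ B ↔ ∃ j, j < B.card ∧ x = -(j • g) := by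
  classical
  set N := addOrderOf g with hN
  have hNpos : 0 < N := addOrderOf_pos g
  have hall : ∀ x : G, ∃ j < N, x = -(j • g) := by
    intro x
    have hx : -x ∈ AddSubgroup.zmultiples g := by rw [hg]; trivial
    rw [mem_zmultiples_iff_mem_range_addOrderOf, Finset.mem_image] at hx
    obtain ⟨j, hj, hjx⟩ := hx
    refine ⟨j, Finset.mem_range.mp hj, ?_⟩
    rw [hjx, neg_neg]
  have hinj : Set.InjOn (fun j : ℕ => -(j • g)) (Set.Iio N) := by
    intro i hi j hj hij
    exact nsmul_injOn_Iio_addOrderOf hi hj (neg_injective hij)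
  set J := (Finset.range N).filter (fun j => -(j • g) ∈ B) with hJ
  have hJB : J.image (fun j : ℕ => -(j • g)) = B := by
    ext x
    rw [Finset.mem_image]
    constructor
    · rintro ⟨j, hj, rfl⟩
      exact (Finset.mem_filter.mp hj).2
    · intro hx
      obtain ⟨j, hj, rfl⟩ := hall x
      exact ⟨j, Finset.mem_filter.mpr ⟨Finset.mem_range.mpr hj, hx⟩, rfl⟩
  have hJc : J.card = B.card := by
    rw [← hJB, Finset.card_image_of_injOn]
    intro i hi j hj hij
    rw [hJ, Finset.mem_coe, Finset.mem_filter, Finset.mem_range] at hi hj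
    exact hinj hi.1 hj.1 hij
  have hdown : ∀ j ∈ J, ∀ i ≤ j, i ∈ J := by
    intro j
    induction j with
    | zero =>
      intro hj i hi
      have : i = 0 := by omega
      rw [this]; exact hj
    | succ j ih =>
      intro hj i hi
      rcases Nat.lt_or_ge i (j + 1) with h | h
      · apply ih _ i (by omega)
        rw [hJ, Finset.mem_filter, Finset.mem_range] at hj ⊢
        refine ⟨by omega, ?_⟩
        have h1 := hstep _ hj.2 (by
          rw [neg_ne_zero]
          exact nsmul_ne_zero_of_lt_addOrderOf (Nat.succ_ne_zero j) hj.1)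
        have e : -((j + 1) • g) + g = -(j • g) := by
          rw [succ_nsmul]; abel
        rwa [e] at h1
      · have : i = j + 1 := by omega
        rw [this]; exact hj
  have hJr := range_of_down J hdown
  rw [hJc] at hJr
  have hmem : ∀ x, x ∈ B ↔ ∃ j ∈ J, -(j • g) = x := by
    intro x
    rw [← Finset.mem_image, hJB]
  intro x
  rw [hmem]
  constructor
  · rintro ⟨j, hj, rfl⟩
    rw [hJr] at hj
    exact ⟨j, Finset.mem_range.mp hj, rfl⟩
  · rintro ⟨j, hj, rfl⟩
    refine ⟨j, ?_, rfl⟩
    rw [hJr]
    exact Finset.mem_range.mpr hj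

/-- Progressions are progression layers. -/
theorem ap_layer (k : ℕ) (B : Finset G) (g : G) (hg : AddSubgroup.zmultiples g = ⊤)
    (h0 : (0 : G) ∈ B) (hstep : ∀ x ∈ B, x ≠ 0 → x + g ∈ B)
    (hcard : (hs B (k + 1)).card + (k + 1) = (k + 1) * B.card + 1) :
    IsLayer (k + 1) ⊥ ⊤ ((B : Set G) \ {0}) := by
  have hform := ap_form B g hg hstep
  have hN : addOrderOf g = Fintype.card G := by
    rw [← Nat.card_eq_fintype_card]
    apply addOrderOf_eq_card_of_forall_mem_zmultiples
    intro x
    rw [hg]; trivial
  have hle : (hs B (k + 1)).card ≤ Fintype.card G := Finset.card_le_univ _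
  obtain ⟨c, hc⟩ : ∃ c, B.card = c + 1 :=
    ⟨B.card - 1, by have := Finset.card_pos.mpr ⟨_, h0⟩; omega⟩
  have hlt : (k + 1) * c < addOrderOf g := by
    rw [hc] at hcard
    have : (k + 1) * (c + 1) = (k + 1) * c + (k + 1) := by ring
    omega
  have hcle : c ≤ (k + 1) * c := Nat.le_mul_of_pos_left c (Nat.succ_pos k)
  refine ⟨bot_le, Or.inl ⟨-g, trivial, c, ?_, ?_⟩⟩
  · intro j h1 h2 h3
    rw [AddSubgroup.mem_bot, smul_neg, neg_eq_zero] at h3
    exact nsmul_ne_zero_of_lt_addOrderOf (by omega) (by omega) h3
  · ext x
    rw [Set.mem_sdiff, Finset.mem_coe, hform, Set.mem_singleton_iff]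
    constructor
    · rintro ⟨⟨j, hj, rfl⟩, hne⟩
      refine ⟨j, ?_, by omega, ?_⟩
      · by_contra hcon
        have : j = 0 := by omega
        apply hne
        rw [this, zero_nsmul, neg_zero]
      · rw [AddSubgroup.mem_bot, smul_neg, sub_self]
    · rintro ⟨j, h1, h2, h3⟩
      rw [AddSubgroup.mem_bot, smul_neg, sub_eq_zero] at h3
      refine ⟨⟨j, by omega, h3⟩, ?_⟩
      rw [h3, neg_eq_zero]
      exact nsmul_ne_zero_of_lt_addOrderOf (by omega) (by omega)

/-- At most one exit. -/
theorem exit_unique (S : Finset G) (g : G) (h : (S ∪ tr S g).card ≤ S.card + 1) (x y : G)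
    (hx : x ∈ S) (hy : y ∈ S) (hxg : x + g ∉ S) (hyg : y + g ∉ S) : x = y := by
  by_contra hne
  have hsub : S ∪ {x + g, y + g} ⊆ S ∪ tr S g := by
    apply Finset.union_subset_union_right
    intro z hz
    rw [Finset.mem_insert, Finset.mem_singleton] at hz
    rw [mem_tr]
    rcases hz with rfl | rfl
    · simpa using hx
    · simpa using hy
  have h1 := Finset.card_le_card hsub
  have hdis : Disjoint S {x + g, y + g} := by
    rw [Finset.disjoint_right]
    intro z hz
    rw [Finset.mem_insert, Finset.mem_singleton] at hz
    rcases hz with rfl | rfl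
    · exact hxg
    · exact hyg
  rw [Finset.card_union_of_disjoint hdis, Finset.card_pair
    (fun h => hne (add_right_cancel h))] at h1
  omega

theorem card_union_tr_neg (S : Finset G) (g : G) :
    (S ∪ tr S (-g)).card = (S ∪ tr S g).card := by
  have : S ∪ tr S (-g) = tr (S ∪ tr S g) (-g) := by
    ext x
    rw [Finset.mem_union, mem_tr, mem_tr, Finset.mem_union, mem_tr]
    have e1 : x - -g - g = x := by abel
    rw [e1]
    tauto
  rw [this, card_tr]

/-- Near periodicity -/
def NP (B : Finset G) : Prop :=
  ∃ H : AddSubgroup G, H ≠ ⊥ ∧ H ≠ ⊤ ∧ (B + fs H).card + 1 ≤ B.card + (fs H).card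

/-- string case for corner-critical sets -/
theorem gcase (k : ℕ) (hk : 1 ≤ k) (B : Finset G) (hB : Cor k B) (g : G) (hg0 : g ≠ 0)
    (h : (B ∪ tr B g).card ≤ B.card + 1) :
    IsLayer (k + 1) ⊥ ⊤ ((B : Set G) \ {0}) ∨ NP B := by
  by_cases ht : AddSubgroup.zmultiples g = ⊤
  · left
    obtain ⟨h0, hu, hcard⟩ := hB
    have hu1 : Uniq 1 B := hu.of_le h0 hk
    have key : ∀ g' : G, AddSubgroup.zmultiples g' = ⊤ → (B ∪ tr B g').card ≤ B.card + 1 →
        g' ∉ B → IsLayer (k + 1) ⊥ ⊤ ((B : Set G) \ {0}) := by
      intro g' ht' hc' hg'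
      apply ap_layer k B g' ht' h0 _ hcard
      intro x hx hx0
      by_contra hcon
      exact hx0 (exit_unique B g' hc' x 0 hx h0 hcon (by rwa [zero_add]))
    by_cases hgB : g ∈ B
    · apply key (-g) (by rw [AddSubgroup.zmultiples_neg]; exact ht)
        (by rw [card_union_tr_neg]; exact h)
      have := hu1 g hgB hg0
      rwa [hs_one] at this
    · exact key g ht h hgB
  · right
    refine ⟨AddSubgroup.zmultiples g, ?_, ht, string_case B g h⟩
    intro hb
    rw [AddSubgroup.zmultiples_eq_bot] at hb
    exact hg0 hb

/-- The generating case for corner-critical sets -/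
theorem E_corner (k : ℕ) (hk : 1 ≤ k) (B : Finset G) (hB : Cor k B) (hB2 : 2 ≤ B.card)
    (hgen : AddSubgroup.closure (B : Set G) = ⊤) :
    IsLayer (k + 1) ⊥ ⊤ ((B : Set G) \ {0}) ∨ NP B := by
  classical
  have hB' := hB
  obtain ⟨h0, hu, hcard⟩ := hB
  have hu1 : Uniq 1 B := hu.of_le h0 hk
  rcases Nat.lt_or_ge B.card 3 with h3 | h3
  · -- two elements
    left
    have hc2 : B.card = 2 := by omega
    obtain ⟨g, hg, hg0⟩ : ∃ g ∈ B, g ≠ 0 := by
      by_contra hcon
      push Not at hcon
      have : B ⊆ {0} := fun x hx => Finset.mem_singleton.mpr (hcon x hx)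
      have := Finset.card_le_card this
      rw [Finset.card_singleton] at this
      omega
    have hBe : B = {0, g} := by
      symm
      apply Finset.eq_of_subset_of_card_le
      · intro x hx
        rw [Finset.mem_insert, Finset.mem_singleton] at hx
        rcases hx with rfl | rfl
        · exact h0
        · exact hg
      · rw [Finset.card_pair (Ne.symm hg0)]; omega
    apply ap_layer k B (-g) _ h0 _ hcard
    · rw [AddSubgroup.zmultiples_neg, ← hgen, hBe, AddSubgroup.zmultiples_eq_closure]
      rw [Finset.coe_insert, Finset.coe_singleton, AddSubgroup.closure_insert_zero]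
    · intro x hx hx0
      rw [hBe, Finset.mem_insert, Finset.mem_singleton] at hx
      rcases hx with rfl | rfl
      · exact absurd rfl hx0
      · rw [add_neg_cancel]; exact h0
  have htail := scherk_tail h0 hu 1 hk
  have hBB : (B + B).card + 1 ≤ 2 * B.card := by
    rw [← hs_two]
    obtain ⟨d, hd⟩ : ∃ d, k = d + 1 := ⟨k - 1, by omega⟩
    subst hd
    have e1 : d + 1 - 1 = d := by omega
    rw [e1] at htail
    have e2 : (1 : ℕ) + 1 = 2 := rfl
    rw [e2] at htail
    have e3 : (d + 1 + 1) * B.card = d * B.card + 2 * B.card := by ring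
    omega
  have hle : (hs B (k + 1)).card ≤ Fintype.card G := Finset.card_le_univ _
  have hcrit : (B + B).card + 2 ≤ Fintype.card G →
      IsLayer (k + 1) ⊥ ⊤ ((B : Set G) \ {0}) ∨ NP B := by
    intro hv
    rcases crit B hB2 B ⟨hB2, hv⟩ (by omega) with ⟨g, hg, hg2⟩ | h
    · exact gcase k hk B hB' g hg hg2
    · exact Or.inr h
  rcases Nat.lt_or_ge 1 k with hk2 | hk1
  · apply hcrit
    have : 3 * B.card ≤ (k + 1) * B.card := Nat.mul_le_mul_right _ (by omega)
    obtain ⟨d, hd⟩ : ∃ d, k = d + 2 := ⟨k - 2, by omega⟩
    subst hd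
    have e3 : (d + 2 + 1) * B.card = d * B.card + 3 * B.card := by ring
    have e4 : d ≤ d * B.card := Nat.le_mul_of_pos_right d (by omega)
    omega
  · have hk' : k = 1 := by omega
    subst hk'
    rw [show (1 : ℕ) + 1 = 2 from rfl, hs_two] at hcard
    rw [show (1 : ℕ) + 1 = 2 from rfl, hs_two] at hle
    have hcBB : (B + B).card + 1 = 2 * B.card := by omega
    by_cases hv : (B + B).card + 2 ≤ Fintype.card G
    · exact hcrit hv
    by_cases hfull : (B + B).card = Fintype.card G
    · -- half layer
      left
      refine ⟨bot_le, Or.inr ⟨rfl, ?_, ?_, ?_⟩⟩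
      · intro y hy u hu
        rw [AddSubgroup.mem_bot] at hu
        rwa [hu, add_zero]
      · have hun : B ∪ (B.erase 0).image (fun x => -x) = Finset.univ := by
          apply Finset.eq_univ_of_card
          rw [Finset.card_union_of_disjoint, Finset.card_image_of_injective _ neg_injective,
            Finset.card_erase_of_mem h0]
          · omega
          · rw [Finset.disjoint_right]
            intro x hx hxB
            rw [Finset.mem_image] at hx
            obtain ⟨b, hb, rfl⟩ := hx
            rw [Finset.mem_erase] at hb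
            have := hu1 b hb.2 hb.1
            rw [hs_one] at this
            exact this hxB
        intro y
        constructor
        · rintro (hy | hy)
          · refine ⟨trivial, ?_⟩
            rw [AddSubgroup.mem_bot]
            exact hy.2
          · refine ⟨trivial, ?_⟩
            rw [AddSubgroup.mem_bot]
            intro h
            apply hy.2
            rw [h, neg_zero]
            rfl
        · rintro ⟨-, hy⟩
          rw [AddSubgroup.mem_bot] at hy
          have := Finset.mem_univ y
          rw [← hun, Finset.mem_union, Finset.mem_image] at this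
          rcases this with h | ⟨b, hb, rfl⟩
          · exact Or.inl ⟨h, hy⟩
          · right
            rw [neg_neg]
            rw [Finset.mem_erase] at hb
            exact ⟨hb.2, hb.1⟩
      · rintro y ⟨hy, hy0⟩ ⟨hy', -⟩
        have := hu1 y hy hy0
        rw [hs_one] at this
        exact this hy'
    · -- one missing element
      have hG : Fintype.card G = 2 * B.card := by omega
      obtain ⟨g, hg⟩ : ∃ g, g ∉ B + B := by
        by_contra hcon
        push Not at hcon
        apply hfull
        rw [Finset.eq_univ_iff_forall.mpr hcon, Finset.card_univ]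
      have hg0 : g ≠ 0 := by
        rintro rfl
        apply hg
        have := Finset.add_mem_add h0 h0
        rwa [add_zero] at this
      have hun : B ∪ B.image (fun x => g - x) = Finset.univ := by
        apply Finset.eq_univ_of_card
        rw [Finset.card_union_of_disjoint, Finset.card_image_of_injective _ sub_right_injective]
        · omega
        · rw [Finset.disjoint_right]
          intro x hx hxB
          rw [Finset.mem_image] at hx
          obtain ⟨b, hb, rfl⟩ := hx
          apply hg
          have := Finset.add_mem_add hxB hb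
          rwa [sub_add_cancel] at this
      apply gcase 1 le_rfl B hB' g hg0
      have hsub : B ∪ tr B g ⊆ insert g B := by
        intro x hx
        rw [Finset.mem_union, mem_tr] at hx
        rw [Finset.mem_insert]
        rcases hx with hx | hx
        · exact Or.inr hx
        · by_cases hx0 : x - g = 0
          · left; exact sub_eq_zero.mp hx0
          · right
            have h1 := hu1 _ hx hx0
            rw [hs_one] at h1
            have := Finset.mem_univ (-(x - g))
            rw [← hun, Finset.mem_union, Finset.mem_image] at this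
            rcases this with h | ⟨b, hb, hbx⟩
            · exact absurd h h1
            · have : x = b := by
                have e1 : x = -(-(x - g)) + g := by abel
                rw [e1, ← hbx]; abel
              rw [this]; exact hb
      exact (Finset.card_le_card hsub).trans (Finset.card_insert_le _ _)

/-- The generating case for aperiodic critical sets: tail estimate -/
theorem aper_tail (k : ℕ) (hk : 1 ≤ k) (A : Finset G) (hne : A.Nonempty)
    (hst : stab (hs A (k + 1)) = ⊥)
    (hcard : (hs A (k + 1)).card + (k + 1) = (k + 1) * A.card + 1) :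
    (A + A).card + 1 ≤ 2 * A.card := by
  obtain ⟨d, rfl⟩ : ∃ d, k = d + 1 := ⟨k - 1, by omega⟩
  have e : d + 1 + 1 = 2 + d := by omega
  have h1 : hs A (d + 1 + 1) = hs A 2 + hs A d := by rw [e, hs_add]
  have h2 := kneser_aperiodic (hs A 2) (hs A d) (hs_nonempty hne 2) (hs_nonempty hne d)
    (by rw [← h1]; exact hst)
  rw [← h1] at h2
  have hstd : stab (hs A d) = ⊥ := by
    rw [eq_bot_iff, ← hst]
    have := stab_hs_le A d 2
    exact this
  have h3 := hs_lower hne d hstd
  rw [hs_two] at h2
  have e3 : (d + 1 + 1) * A.card = d * A.card + 2 * A.card := by ring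
  omega

/-- The generating case for aperiodic critical sets. -/
theorem E_aper (k : ℕ) (hk : 1 ≤ k) (A : Finset G) (hA2 : 2 ≤ A.card)
    (hst : stab (hs A (k + 1)) = ⊥)
    (hcard : (hs A (k + 1)).card + (k + 1) = (k + 1) * A.card + 1)
    (hV : ∀ d, d ∣ Fintype.card G → (k + 1) * ((A.card - 1) % d) < d) :
    (∃ x ∈ A, IsLayer (k + 1) ⊥ ⊤ ((tr A (-x) : Set G) \ {0})) ∨ NP A := by
  classical
  have hne : A.Nonempty := Finset.card_pos.mp (by omega)
  have htail := aper_tail k hk A hne hst hcard
  have hle : (hs A (k + 1)).card ≤ Fintype.card G := Finset.card_le_univ _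
  have hnu : (hs A (k + 1)).card ≠ Fintype.card G := by
    intro h
    have huniv : hs A (k + 1) = Finset.univ := Finset.eq_univ_of_card _ h
    have htop : stab (hs A (k + 1)) = ⊤ := by
      rw [eq_top_iff]
      intro g _
      rw [huniv]
      exact mem_stab_of_forall (fun x _ => Finset.mem_univ _)
    rw [hst] at htop
    obtain ⟨u, hu, v, hv, huv⟩ := Finset.one_lt_card.mp (by omega : 1 < A.card)
    have : u - v ∈ (⊤ : AddSubgroup G) := trivial
    rw [← htop, AddSubgroup.mem_bot, sub_eq_zero] at this
    exact huv this
  have hbig : (A + A).card + 2 ≤ Fintype.card G := by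
    rcases Nat.lt_or_ge 1 k with hk2 | hk1
    · obtain ⟨d, hd⟩ : ∃ d, k = d + 2 := ⟨k - 2, by omega⟩
      subst hd
      have e3 : (d + 2 + 1) * A.card = d * A.card + 3 * A.card := by ring
      have e4 : d ≤ d * A.card := Nat.le_mul_of_pos_right d (by omega)
      omega
    · have hk' : k = 1 := by omega
      subst hk'
      by_contra hcon
      have hG : Fintype.card G = 2 * A.card := by omega
      have := hV A.card ⟨2, by rw [hG]; ring⟩
      rw [Nat.mod_eq_of_lt (by omega)] at this
      omega
  rcases crit A hA2 A ⟨hA2, hbig⟩ (by omega) with ⟨g, hg, hg2⟩ | h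
  · by_cases ht : AddSubgroup.zmultiples g = ⊤
    · left
      obtain ⟨x0, hx0, hx0g⟩ : ∃ x ∈ A, x + g ∉ A := by
        by_contra hcon
        push Not at hcon
        have h1 : g ∈ stab A := mem_stab_of_forall hcon
        have h2 : AddSubgroup.zmultiples g ≤ stab A := by
          rw [AddSubgroup.zmultiples_le]; exact h1
        rw [ht] at h2
        have h3 : stab A ≤ stab (hs A (k + 1)) := by
          have := stab_hs_le A 1 k
          rw [hs_one, add_comm 1 k] at this
          exact this
        rw [hst] at h3
        obtain ⟨u, hu, v, hv, huv⟩ := Finset.one_lt_card.mp (by omega : 1 < A.card)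
        have : u - v ∈ (⊤ : AddSubgroup G) := trivial
        have := h3 (h2 this)
        rw [AddSubgroup.mem_bot, sub_eq_zero] at this
        exact huv this
      refine ⟨x0, hx0, ?_⟩
      apply ap_layer k (tr A (-x0)) g ht
      · rw [mem_tr]; simpa using hx0
      · intro x hx hxne
        rw [mem_tr] at hx ⊢
        by_contra hcon
        apply hxne
        have h1 := exit_unique A g hg2 (x - -x0) x0 hx hx0 (by
          have e : x - -x0 + g = x + g - -x0 := by abel
          rw [e]; exact hcon) hx0g
        have e : x = (x - -x0) - x0 := by abel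
        rw [e, h1, sub_self]
      · rw [card_hs_tr, card_tr]; exact hcard
    · right
      refine ⟨AddSubgroup.zmultiples g, ?_, ht, string_case A g hg2⟩
      intro hb
      rw [AddSubgroup.zmultiples_eq_bot] at hb
      exact hg hb
  · exact Or.inr h

end Pool.Agent.TH409.CS
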