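import Mathlib
import Pool.Agent.TH409.CS4

set_option autoImplicit false
set_option linter.unusedSectionVars false

open scoped Pointwise
open Finset

namespace Pool.Agent.TH409.CS

open Pool.Agent.Helper730.Kneser
open Pool.Agent.Helper730.Atoms
open Pool.Agent.Helper730.Signed
open Pool.Agent.Helper730.Lex

universe u

section transfer

variable {G : Type u} [AddCommGroup G] [Fintype G] [DecidableEq G]

noncomputable instance sdec (H : AddSubgroup G) : DecidableEq H := Classical.decEq _

noncomputable instance sfin (H : AddSubgroup G) : Fintype H := Fintype.ofFinite _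

/-- Restriction of a finset to a subgroup. -/
noncomputable def res (L : AddSubgroup G) (B : Finset G) : Finset L :=
  Finset.univ.filter (fun x : L => (x : G) ∈ B)

theorem mem_res {L : AddSubgroup G} {B : Finset G} {x : L} : x ∈ res L B ↔ (x : G) ∈ B := by
  simp [res]

theorem res_image {L : AddSubgroup G} {B : Finset G} (hB : ∀ x ∈ B, x ∈ L) :
    B = (res L B).image L.subtype := by
  ext x
  rw [Finset.mem_image]
  constructor
  · intro hx
    exact ⟨⟨x, hB x hx⟩, mem_res.mpr hx, rfl⟩
  · rintro ⟨y, hy, rfl⟩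
    exact mem_res.mp hy

theorem card_res {L : AddSubgroup G} {B : Finset G} (hB : ∀ x ∈ B, x ∈ L) :
    (res L B).card = B.card := by
  conv_rhs => rw [res_image hB]
  rw [Finset.card_image_of_injective _ L.subtype_injective]

theorem hs_res {L : AddSubgroup G} {B : Finset G} (hB : ∀ x ∈ B, x ∈ L) (n : ℕ) :
    hs B n = (hs (res L B) n).image L.subtype := by
  conv_lhs => rw [res_image hB]
  rw [hs_image]

theorem card_hs_res {L : AddSubgroup G} {B : Finset G} (hB : ∀ x ∈ B, x ∈ L) (n : ℕ) :
    (hs (res L B) n).card = (hs B n).card := by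
  rw [hs_res hB, Finset.card_image_of_injective _ L.subtype_injective]

theorem Cor.res {k : ℕ} {L : AddSubgroup G} {B : Finset G} (hB : ∀ x ∈ B, x ∈ L)
    (h : Cor k B) : Cor k (res L B) := by
  obtain ⟨h0, hu, hc⟩ := h
  refine ⟨mem_res.mpr h0, ?_, ?_⟩
  · intro b hb hb0 hcon
    apply hu (b : G) (mem_res.mp hb) (fun h => hb0 (Subtype.ext h))
    rw [hs_res hB, Finset.mem_image]
    exact ⟨-b, hcon, rfl⟩
  · rw [card_hs_res hB, card_res hB]
    exact hc

theorem stab_res {L : AddSubgroup G} {B : Finset G} (hB : ∀ x ∈ B, x ∈ L) (n : ℕ)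
    (h : stab (hs B n) = ⊥) : stab (hs (res L B) n) = ⊥ := by
  rw [eq_bot_iff]
  intro u hu
  have h1 : (u : G) ∈ stab (hs B n) := by
    apply mem_stab_of_forall
    intro x hx
    rw [hs_res hB, Finset.mem_image] at hx ⊢
    obtain ⟨y, hy, rfl⟩ := hx
    exact ⟨y + u, stab_add hu hy, rfl⟩
  rw [h, AddSubgroup.mem_bot] at h1
  rw [AddSubgroup.mem_bot]
  exact Subtype.ext h1

theorem closure_res {B : Finset G} :
    AddSubgroup.closure ((res (AddSubgroup.closure (B : Set G)) B :
      Finset (AddSubgroup.closure (B : Set G))) : Set (AddSubgroup.closure (B : Set G))) = ⊤ := by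
  have := AddSubgroup.closure_closure_coe_preimage (k := (B : Set G))
  rw [← this]
  congr 1
  ext x
  rw [Finset.mem_coe, mem_res]
  rfl

theorem card_add_fs (H : AddSubgroup G) (A : Finset G) :
    (A + fs H).card = (fs H).card * (im H A).card := by
  have hper : H ≤ stab (A + fs H) := by
    intro g hg
    apply mem_stab_of_forall
    intro x hx
    obtain ⟨y, hy, u, hu, rfl⟩ := Finset.mem_add.mp hx
    rw [add_assoc]
    exact Finset.add_mem_add hy (mem_fs.mpr (H.add_mem (mem_fs.mp hu) hg))
  rw [card_eq_im H _ hper]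
  congr 2
  ext y
  rw [mem_im, mem_im]
  constructor
  · rintro ⟨z, hz, rfl⟩
    obtain ⟨x, hx, u, hu, rfl⟩ := Finset.mem_add.mp hz
    refine ⟨x, hx, ?_⟩
    rw [mk_eq_mk]
    have : x - (x + u) = -u := by abel
    rw [this]
    exact H.neg_mem (mem_fs.mp hu)
  · rintro ⟨z, hz, rfl⟩
    exact ⟨z, subset_add_fs A H hz, rfl⟩

theorem card_im_lt {H : AddSubgroup G} (hH : H ≠ ⊥) {B : Finset G} (hB : 2 ≤ B.card)
    (h : (B + fs H).card + 1 ≤ B.card + (fs H).card) : (im H B).card < B.card := by
  have h1 := fs_card_ge_two hH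
  rw [card_add_fs] at h
  by_contra hcon
  push Not at hcon
  have h2 : (fs H).card * B.card ≤ (fs H).card * (im H B).card := Nat.mul_le_mul_left _ hcon
  obtain ⟨q, hq⟩ : ∃ q, (fs H).card = q + 2 := ⟨(fs H).card - 2, by omega⟩
  obtain ⟨b, hb⟩ : ∃ b, B.card = b + 2 := ⟨B.card - 2, by omega⟩
  rw [hq, hb] at h2
  rw [hq] at h
  have e : (q + 2) * (b + 2) = q * b + 2 * q + 2 * b + 4 := by ring
  have : 0 ≤ q * b := Nat.zero_le _
  have h3 : (q + 2) * (im H B).card + 1 ≤ b + 2 + (q + 2) := by omega
  omega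

theorem card_cs0_lt {H : AddSubgroup G} {B : Finset G} {x : G} (hx : x ∈ B) (hxH : x ∉ H) :
    (cs B H 0).card < B.card := by
  apply Finset.card_lt_card
  rw [Finset.ssubset_iff_of_subset cs_sub]
  exact ⟨x, hx, fun h => hxH (mem_cs0.mp h).2⟩

theorem exists_out {H : AddSubgroup G} (hH : H ≠ ⊤) {B : Finset G}
    (hgen : AddSubgroup.closure (B : Set G) = ⊤) : ∃ x ∈ B, x ∉ H := by
  by_contra hcon
  push Not at hcon
  apply hH
  rw [eq_top_iff, ← hgen, AddSubgroup.closure_le]
  exact hcon

theorem preim_out {H : AddSubgroup G} {B : Finset G} (hs : H ≤ stab (out B H)) :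
    (QuotientAddGroup.mk' H) ⁻¹' ((im H B : Set (G ⧸ H)) \ {0}) = (out B H : Set G) := by
  ext y
  rw [Set.mem_preimage, Set.mem_sdiff, Finset.mem_coe, Finset.mem_coe, mem_im,
    Set.mem_singleton_iff, QuotientAddGroup.mk'_apply, mk_eq_zero]
  constructor
  · rintro ⟨⟨x, hx, hxy⟩, hy⟩
    rw [mk_eq_mk] at hxy
    have hxH : x ∉ H := by
      intro h
      apply hy
      have e : y = x - (x - y) := by abel
      rw [e]
      exact H.sub_mem h hxy
    have h1 := stab_add (hs (H.neg_mem hxy)) (mem_out.mpr ⟨hx, hxH⟩)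
    have e : x + -(x - y) = y := by abel
    rwa [e] at h1
  · intro hy
    exact ⟨⟨y, (mem_out.mp hy).1, rfl⟩, (mem_out.mp hy).2⟩

theorem Chain.pull {k : ℕ} {H : AddSubgroup G} {B : Finset G} (hs : H ≤ stab (out B H))
    (h : Chain (k + 1) ⊥ ⊤ ((im H B : Set (G ⧸ H)) \ {0})) :
    Chain (k + 1) H ⊤ (out B H : Set G) := by
  have := h.comap (QuotientAddGroup.mk' H) (QuotientAddGroup.mk'_surjective H)
  rw [preim_out hs] at this
  have e1 : (⊥ : AddSubgroup (G ⧸ H)).comap (QuotientAddGroup.mk' H) = H := by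
    ext x
    rw [AddSubgroup.mem_comap, AddSubgroup.mem_bot, QuotientAddGroup.mk'_apply, mk_eq_zero]
  rw [e1, AddSubgroup.comap_top] at this
  exact this

end transfer

/-- **Theorem D**: corner-critical sets are chains of layers. -/
theorem thmD (k : ℕ) (hk : 1 ≤ k) : ∀ (n : ℕ) (G : Type u) [AddCommGroup G] [Fintype G]
    [DecidableEq G] (B : Finset G) (L : AddSubgroup G), B.card = n → (∀ x ∈ B, x ∈ L) →
    Cor k B → Chain (k + 1) ⊥ L ((B : Set G) \ {0}) := by
  intro n
  induction n using Nat.strong_induction_on with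
  | _ n ih =>
  -- the generating case
  have hgenc : ∀ (G : Type u) [AddCommGroup G] [Fintype G] [DecidableEq G] (B : Finset G),
      B.card = n → AddSubgroup.closure (B : Set G) = ⊤ → Cor k B →
      Chain (k + 1) ⊥ ⊤ ((B : Set G) \ {0}) := by
    intro G _ _ _ B hBn hgen hB
    by_cases hB2 : 2 ≤ B.card
    · rcases E_corner k hk B hB hB2 hgen with h | ⟨H, hH, hHt, hHc⟩
      · exact Chain.single h
      · obtain ⟨hsat, hc0, hcq⟩ := stepR' k hk B H hB hHc
        obtain ⟨x, hx, hxH⟩ := exists_out hHt hgen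
        have h1 := ih (cs B H 0).card (by rw [← hBn]; exact card_cs0_lt hx hxH) G
          (cs B H 0) H rfl (fun y hy => (mem_cs0.mp hy).2) hc0
        have h2 := ih (im H B).card (by rw [← hBn]; exact card_im_lt hH hB2 hHc) (G ⧸ H)
          (im H B) ⊤ rfl (fun y _ => trivial) hcq
        have h3 := h1.trans (Chain.pull hsat h2)
        have e : (B : Set G) \ {0} = ((cs B H 0 : Set G) \ {0}) ∪ (out B H : Set G) := by
          ext y
          rw [Set.mem_union, Set.mem_sdiff, Set.mem_sdiff, Finset.mem_coe, Finset.mem_coe,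
            Finset.mem_coe, mem_cs0, mem_out, Set.mem_singleton_iff]
          constructor
          · rintro ⟨hy, hy0⟩
            by_cases hyH : y ∈ H
            · exact Or.inl ⟨⟨hy, hyH⟩, hy0⟩
            · exact Or.inr ⟨hy, hyH⟩
          · rintro (⟨⟨hy, hyH⟩, hy0⟩ | ⟨hy, hyH⟩)
            · exact ⟨hy, hy0⟩
            · refine ⟨hy, ?_⟩
              rintro rfl
              exact hyH H.zero_mem
        rw [e]
        exact h3
    · have h1 : B = {0} := by
        symm
        apply Finset.eq_of_subset_of_card_le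
        · intro y hy
          rw [Finset.mem_singleton] at hy
          rw [hy]; exact hB.1
        · rw [Finset.card_singleton]; omega
      rw [h1]
      have : (({0} : Finset G) : Set G) \ {0} = ∅ := by simp
      rw [this]
      exact Chain.nil _ bot_le
  intro G _ _ _ B L hBn hBL hB
  set L' := AddSubgroup.closure (B : Set G) with hL'
  have hBL' : ∀ x ∈ B, x ∈ L' := fun x hx => AddSubgroup.subset_closure hx
  have hLL : L' ≤ L := by
    rw [hL', AddSubgroup.closure_le]
    exact hBL
  have h1 := hgenc L' (res L' B) (by rw [card_res hBL', hBn]) closure_res (Cor.res hBL' hB)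
  have h2 := h1.map L'.subtype L'.subtype_injective
  have e1 : (⊥ : AddSubgroup L').map L'.subtype = ⊥ := AddSubgroup.map_bot _
  have e2 : (⊤ : AddSubgroup L').map L'.subtype = L' := by
    rw [← AddMonoidHom.range_eq_map, AddSubgroup.range_subtype]
  have e3 : L'.subtype '' ((res L' B : Set L') \ {0}) = (B : Set G) \ {0} := by
    ext y
    rw [Set.mem_image, Set.mem_sdiff, Finset.mem_coe, Set.mem_singleton_iff]
    constructor
    · rintro ⟨x, ⟨hx, hx0⟩, rfl⟩
      refine ⟨mem_res.mp hx, ?_⟩
      intro h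
      exact hx0 (Subtype.ext h)
    · rintro ⟨hy, hy0⟩
      refine ⟨⟨y, hBL' y hy⟩, ⟨mem_res.mpr hy, ?_⟩, rfl⟩
      intro h
      exact hy0 (congrArg Subtype.val h)
  rw [e1, e2, e3] at h2
  exact h2.mono hLL

end Pool.Agent.TH409.CS
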