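import Mathlib
import Pool.Agent.TH409.CS5

set_option autoImplicit false
set_option linter.unusedSectionVars false

open scoped Pointwise
open Finset

namespace Pool.Agent.TH409.CS

open Pool.Agent.Helper730.Kneser
open Pool.Agent.Helper730.Atoms
open Pool.Agent.Helper730.Signed
open Pool.Agent.Helper730.Lex

universe u

theorem card_fs_dvd {G : Type u} [AddCommGroup G] [Fintype G] [DecidableEq G]
    (H : AddSubgroup G) : Nat.card H ∣ Fintype.card G := by
  rw [← Nat.card_eq_fintype_card]
  exact AddSubgroup.card_addSubgroup_dvd_card H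

/-- **Theorem C**: aperiodic critical sets are translates of staircases. -/
theorem thmC (k : ℕ) (hk : 1 ≤ k) : ∀ (n : ℕ) (G : Type u) [AddCommGroup G] [Fintype G]
    [DecidableEq G] (A : Finset G) (L : AddSubgroup G), A.card = n → (0 : G) ∈ A →
    (∀ x ∈ A, x ∈ L) → stab (hs A (k + 1)) = ⊥ →
    (hs A (k + 1)).card + (k + 1) = (k + 1) * A.card + 1 →
    (∀ d, d ∣ Nat.card L → (k + 1) * ((A.card - 1) % d) < d) →
    ∃ x ∈ A, ∃ B : Set G, Chain (k + 1) ⊥ L B ∧ ∀ y, y ∈ A ↔ (y = x ∨ y - x ∈ B) := by
  intro n
  induction n using Nat.strong_induction_on with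
  | _ n ih =>
  -- the generating case
  have hgenc : ∀ (G : Type u) [AddCommGroup G] [Fintype G] [DecidableEq G] (A : Finset G),
      A.card = n → (0 : G) ∈ A → AddSubgroup.closure (A : Set G) = ⊤ →
      stab (hs A (k + 1)) = ⊥ →
      (hs A (k + 1)).card + (k + 1) = (k + 1) * A.card + 1 →
      (∀ d, d ∣ Fintype.card G → (k + 1) * ((A.card - 1) % d) < d) →
      ∃ x ∈ A, ∃ B : Set G, Chain (k + 1) ⊥ ⊤ B ∧ ∀ y, y ∈ A ↔ (y = x ∨ y - x ∈ B) := by
    intro G _ _ _ A hAn h0 hgen hst hcard hV
    by_cases hA2 : 2 ≤ A.card
    · rcases E_aper k hk A hA2 hst hcard hV with ⟨x, hx, hlay⟩ | ⟨H, hH, hHt, hHc⟩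
      · refine ⟨x, hx, _, Chain.single hlay, ?_⟩
        intro y
        rw [Set.mem_sdiff, Finset.mem_coe, mem_tr, Set.mem_singleton_iff, sub_eq_zero]
        have e : y - x - -x = y := by abel
        rw [e]
        constructor
        · intro hy
          by_cases hyx : y = x
          · exact Or.inl hyx
          · exact Or.inr ⟨hy, hyx⟩
        · rintro (rfl | ⟨hy, -⟩)
          · exact hx
          · exact hy
      · obtain ⟨x0, hx0, hsat, hst0, hc0, hcq⟩ := stepR k hk A H hH hst hcard hHc
        set B := tr A (-x0) with hB
        have hB0 : (0 : G) ∈ B := by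
          rw [hB, mem_tr]; simpa using hx0
        have hBc : B.card = A.card := card_tr A (-x0)
        obtain ⟨x, hx, hxH⟩ : ∃ x ∈ B, x ∉ H := by
          by_contra hcon
          push Not at hcon
          have h1 : -x0 ∈ H := by
            apply hcon
            rw [hB, mem_tr, sub_self]
            exact h0
          obtain ⟨y, hy, hyH⟩ := exists_out hHt hgen
          apply hyH
          have h2 : y - x0 ∈ H := by
            apply hcon
            rw [hB, mem_tr]
            have e : y - x0 - -x0 = y := by abel
            rw [e]; exact hy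
          have e : y = (y - x0) - (-x0) := by abel
          rw [e]
          exact H.sub_mem h2 h1
        have hlt := card_cs0_lt hx hxH
        have h00 : (0 : G) ∈ cs B H 0 := mem_cs0.mpr ⟨hB0, H.zero_mem⟩
        have hpos : 0 < (cs B H 0).card := Finset.card_pos.mpr ⟨0, h00⟩
        have hsplit := card_split B H
        have hout := card_eq_im H (out B H) hsat
        have hfs : (fs H).card = Nat.card H := fs_card_eq H
        obtain ⟨x1, hx1, B1, hB1, hform⟩ := ih (cs B H 0).card (by rw [← hAn, ← hBc]; exact hlt) G
          (cs B H 0) H rfl h00 (fun y hy => (mem_cs0.mp hy).2) hst0 hc0 (by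
            intro d hd
            have h1 := hV d (hd.trans (card_fs_dvd H))
            obtain ⟨e, he⟩ := hd
            have h2 : A.card - 1 = ((cs B H 0).card - 1) + d * (e * (im H (out B H)).card) := by
              rw [hfs, he] at hout
              rw [← hBc, ← hsplit, hout]
              have : d * e * (im H (out B H)).card = d * (e * (im H (out B H)).card) := by ring
              omega
            rw [h2, Nat.add_mul_mod_self_left] at h1
            exact h1)
        have hA1 : 2 ≤ B.card := by rw [hBc]; exact hA2
        have h2 := thmD k hk (im H B).card (G ⧸ H) (im H B) ⊤ rfl (fun y _ => trivial) hcq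
        have h3 := hB1.trans (Chain.pull hsat h2)
        refine ⟨x0 + x1, ?_, _, h3, ?_⟩
        · have := (mem_cs0.mp hx1).1
          rw [hB, mem_tr] at this
          have e : x1 - -x0 = x0 + x1 := by abel
          rwa [e] at this
        · intro y
          have hx1H : x1 ∈ H := (mem_cs0.mp hx1).2
          have hyA : y ∈ A ↔ y - x0 ∈ B := by
            rw [hB, mem_tr]
            have e : y - x0 - -x0 = y := by abel
            rw [e]
          have hyB : y - x0 ∈ B ↔ y - x0 ∈ cs B H 0 ∨ y - x0 ∈ out B H := by
            rw [mem_cs0, mem_out]; tauto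
          have hyo : y - x0 ∈ out B H ↔ y - (x0 + x1) ∈ out B H := by
            have e : y - (x0 + x1) = (y - x0) + (-x1) := by abel
            rw [e]
            exact mem_stab.mp (hsat (H.neg_mem hx1H)) _
          have e1 : y - x0 = x1 ↔ y = x0 + x1 := by
            rw [sub_eq_iff_eq_add, add_comm]
          have e2 : y - x0 - x1 = y - (x0 + x1) := by abel
          rw [hyA, hyB, hform, hyo, e1, e2, Set.mem_union, Finset.mem_coe, or_assoc]
    · have h1 : A = {0} := by
        symm
        apply Finset.eq_of_subset_of_card_le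
        · intro y hy
          rw [Finset.mem_singleton] at hy
          rw [hy]; exact h0
        · rw [Finset.card_singleton]; omega
      refine ⟨0, h0, ∅, Chain.nil _ bot_le, ?_⟩
      intro y
      rw [h1, Finset.mem_singleton]
      simp
  intro G _ _ _ A L hAn h0 hAL hst hcard hV
  set L' := AddSubgroup.closure (A : Set G) with hL'
  have hAL' : ∀ x ∈ A, x ∈ L' := fun x hx => AddSubgroup.subset_closure hx
  have hLL : L' ≤ L := by
    rw [hL', AddSubgroup.closure_le]
    exact hAL
  have hdvd : Nat.card L' ∣ Nat.card L := AddSubgroup.card_dvd_of_le hLL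
  obtain ⟨x, hx, B, hB, hform⟩ := hgenc L' (res L' A) (by rw [card_res hAL', hAn])
    (mem_res.mpr h0) closure_res (stab_res hAL' _ hst)
    (by rw [card_hs_res hAL', card_res hAL']; exact hcard)
    (by
      intro d hd
      rw [card_res hAL']
      apply hV d
      rw [← Nat.card_eq_fintype_card] at hd
      exact hd.trans hdvd)
  have h2 := hB.map L'.subtype L'.subtype_injective
  have e1 : (⊥ : AddSubgroup L').map L'.subtype = ⊥ := AddSubgroup.map_bot _
  have e2 : (⊤ : AddSubgroup L').map L'.subtype = L' := by
    rw [← AddMonoidHom.range_eq_map, AddSubgroup.range_subtype]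
  rw [e1, e2] at h2
  refine ⟨x, mem_res.mp hx, _, h2.mono hLL, ?_⟩
  intro y
  constructor
  · intro hy
    have h3 := (hform ⟨y, hAL' y hy⟩).mp (mem_res.mpr hy)
    rcases h3 with h3 | h3
    · left
      exact congrArg Subtype.val h3
    · right
      exact ⟨_, h3, rfl⟩
  · rintro (rfl | ⟨z, hz, hzy⟩)
    · exact mem_res.mp hx
    · have h3 : (z + x) ∈ res L' A := by
        rw [hform]
        right
        rw [add_sub_cancel_right]; exact hz
      have h4 := mem_res.mp h3
      have : ((z + x : L') : G) = y := by
        rw [AddSubgroup.coe_add]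
        have : (z : G) = y - x := hzy
        rw [this, sub_add_cancel]
      rwa [this] at h4

end Pool.Agent.TH409.CS
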