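import Mathlib
import Pool.Agent.TH409.CS6

set_option autoImplicit false
set_option linter.unusedSectionVars false

open scoped Pointwise
open Finset

namespace Pool.Agent.TH409.CS

open Pool.Agent.Helper730.Kneser
open Pool.Agent.Helper730.Atoms
open Pool.Agent.Helper730.Signed
open Pool.Agent.Helper730.Lex

universe u

variable {G : Type u} [AddCommGroup G] [Fintype G] [DecidableEq G]

/-- Arithmetic of the reduction to the aperiodic case. -/
theorem arith (k m q a t : ℕ) (hm : 1 ≤ m) (hq : 0 < q)
    (h1 : q * t + (k + 1) = (k + 1) * m + 1) (h2 : (k + 1) * a + 1 ≤ t + (k + 1))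
    (h3 : m ≤ q * a) (h4 : (k + 1) * ((m - 1) % q) < q) :
    (k + 1) * ((m - 1) % q) + 1 = q ∧ a = (m - 1) / q + 1 ∧ t + (k + 1) = (k + 1) * a + 1 := by
  set r := (m - 1) % q with hr
  set s := (m - 1) / q with hs
  have hm1 : m - 1 = q * s + r := (Nat.div_add_mod (m - 1) q).symm
  have hm2 : m = q * s + r + 1 := by omega
  have h5 : q * t = q * ((k + 1) * s) + ((k + 1) * r + 1) := by
    have e : (k + 1) * m = q * ((k + 1) * s) + (k + 1) * r + (k + 1) := by
      rw [hm2]; ring
    omega
  have hdvd : q ∣ (k + 1) * r + 1 := by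
    have h6 : q ∣ q * ((k + 1) * s) + ((k + 1) * r + 1) := by
      rw [← h5]; exact Dvd.intro _ rfl
    exact (Nat.dvd_add_right (Dvd.intro _ rfl)).mp h6
  have hq1 : (k + 1) * r + 1 = q := by
    have := Nat.le_of_dvd (Nat.succ_pos _) hdvd
    omega
  have ht : t = (k + 1) * s + 1 := by
    apply Nat.eq_of_mul_eq_mul_left hq
    rw [h5, hq1]; ring
  have hsa : s < a := by
    by_contra hcon
    push Not at hcon
    have := Nat.mul_le_mul_left q hcon
    omega
  have has : a ≤ s + 1 := by
    by_contra hcon
    push Not at hcon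
    have h7 : (k + 1) * (s + 2) ≤ (k + 1) * a := Nat.mul_le_mul_left _ hcon
    have e : (k + 1) * (s + 2) = (k + 1) * s + 2 * k + 2 := by ring
    omega
  have ha : a = s + 1 := by omega
  refine ⟨hq1, ha, ?_⟩
  rw [ht, ha]; ring

theorem forward0 (k : ℕ) (hk : 1 ≤ k) (A : Finset G) (h0 : (0 : G) ∈ A)
    (hcard : (hs A (k + 1)).card + (k + 1) = (k + 1) * A.card + 1)
    (hV : ∀ d, d ∣ Fintype.card G → (k + 1) * ((A.card - 1) % d) < d) :
    ∃ (K : AddSubgroup G) (B : Set G) (x : G), Chain (k + 1) K ⊤ B ∧
      (∀ y, y ∈ A + fs K ↔ (y - x ∈ K ∨ y - x ∈ B)) ∧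
      (k + 1) * (A + fs K).card = (k + 1) * A.card + k * ((fs K).card - 1) := by
  set K := stab (hs A (k + 1)) with hK
  have hKb : stab (hs (im K A) (k + 1)) = ⊥ := by
    rw [hs_im]
    exact stab_im_bot _ K rfl
  have h0q : (0 : G ⧸ K) ∈ im K A := mem_im_mk (K := K) h0
  have h1 : (hs A (k + 1)).card = (fs K).card * (hs (im K A) (k + 1)).card := by
    rw [hs_im]
    exact card_eq_im K _ le_rfl
  have h2 := hs_lower ⟨_, h0q⟩ (k + 1) hKb
  have h3 := card_le_im K A
  have hq := fs_card_pos K
  have hqd : (fs K).card ∣ Fintype.card G := by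
    rw [fs_card_eq]; exact card_fs_dvd K
  have hm : 1 ≤ A.card := Finset.card_pos.mpr ⟨_, h0⟩
  obtain ⟨a1, a2, a3⟩ := arith k A.card (fs K).card (im K A).card
    (hs (im K A) (k + 1)).card hm hq (by rw [← h1]; exact hcard) h2 h3 (hV _ hqd)
  have hVq : ∀ d, d ∣ Fintype.card (G ⧸ K) → (k + 1) * (((im K A).card - 1) % d) < d := by
    intro d hd
    have hqd2 : (fs K).card * d ∣ Fintype.card G := by
      rw [← Nat.card_eq_fintype_card,
        AddSubgroup.card_eq_card_quotient_mul_card_addSubgroup K, Nat.card_eq_fintype_card,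
        mul_comm, fs_card_eq]
      exact Nat.mul_dvd_mul hd dvd_rfl
    have h4 := hV _ hqd2
    rw [Nat.mod_mul] at h4
    have h5 : (im K A).card - 1 = (A.card - 1) / (fs K).card := by
      rw [a2, Nat.add_sub_cancel]
    rw [h5]
    set s := (A.card - 1) / (fs K).card with hs
    by_contra hcon
    push Not at hcon
    have h6 := Nat.mul_le_mul_left (fs K).card hcon
    have e : (k + 1) * ((A.card - 1) % (fs K).card + (fs K).card * (s % d))
        = (k + 1) * ((A.card - 1) % (fs K).card) + (fs K).card * ((k + 1) * (s % d)) := by ring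
    omega
  obtain ⟨xb, hxb, Bb, hBb, hform⟩ := thmC k hk (im K A).card (G ⧸ K) (im K A) ⊤ rfl h0q
    (fun y _ => trivial) hKb a3 (by
      intro d hd
      apply hVq
      rw [← Nat.card_eq_fintype_card]
      rwa [AddSubgroup.card_top] at hd)
  obtain ⟨x, rfl⟩ := QuotientAddGroup.mk_surjective xb
  have hch := hBb.comap (QuotientAddGroup.mk' K) (QuotientAddGroup.mk'_surjective K)
  have e1 : (⊥ : AddSubgroup (G ⧸ K)).comap (QuotientAddGroup.mk' K) = K := by
    ext x
    rw [AddSubgroup.mem_comap, AddSubgroup.mem_bot, QuotientAddGroup.mk'_apply, mk_eq_zero]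
  rw [e1, AddSubgroup.comap_top] at hch
  refine ⟨K, _, x, hch, ?_, ?_⟩
  · intro y
    have hy : y ∈ A + fs K ↔ (QuotientAddGroup.mk y : G ⧸ K) ∈ im K A := by
      rw [mem_im]
      constructor
      · intro h
        obtain ⟨z, hz, u, hu, rfl⟩ := Finset.mem_add.mp h
        refine ⟨z, hz, ?_⟩
        rw [mk_eq_mk]
        have : z - (z + u) = -u := by abel
        rw [this]
        exact K.neg_mem (mem_fs.mp hu)
      · rintro ⟨z, hz, hzy⟩
        rw [mk_eq_mk] at hzy
        have e : y = z + (-(z - y)) := by abel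
        rw [e]
        exact Finset.add_mem_add hz (mem_fs.mpr (K.neg_mem hzy))
    rw [hy, hform, mk_eq_mk]
    rfl
  · rw [card_add_fs, a2]
    set r := (A.card - 1) % (fs K).card with hr
    set s := (A.card - 1) / (fs K).card with hs
    have hm1 : A.card - 1 = (fs K).card * s + r := (Nat.div_add_mod _ _).symm
    have hm2 : A.card = (fs K).card * s + r + 1 := by omega
    have hq1 : (fs K).card - 1 = (k + 1) * r := by omega
    rw [hq1]
    conv_rhs => rw [hm2]
    have e : (k + 1) * ((fs K).card * (s + 1)) = (k + 1) * ((fs K).card * s)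
      + (k + 1) * (fs K).card := by ring
    rw [e, ← a1]
    ring

theorem forward (k : ℕ) (hk : 1 ≤ k) (A : Finset G) (hne : A.Nonempty)
    (hcard : (hs A (k + 1)).card + (k + 1) = (k + 1) * A.card + 1)
    (hV : ∀ d, d ∣ Fintype.card G → (k + 1) * ((A.card - 1) % d) < d) :
    ∃ (K : AddSubgroup G) (B : Set G) (x : G), Chain (k + 1) K ⊤ B ∧
      (∀ y ∈ A, (y - x ∈ K ∨ y - x ∈ B)) ∧
      ∃ S : Finset G, (∀ y, y ∈ S ↔ (y ∈ K ∨ y ∈ B)) ∧
      (k + 1) * S.card = (k + 1) * A.card + k * ((fs K).card - 1) := by
  obtain ⟨a0, ha0⟩ := hne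
  have h0 : (0 : G) ∈ tr A (-a0) := by rw [mem_tr]; simpa using ha0
  obtain ⟨K, B, x, hch, hform, hc⟩ := forward0 k hk (tr A (-a0)) h0
    (by rw [card_hs_tr, card_tr]; exact hcard) (by rw [card_tr]; exact hV)
  refine ⟨K, B, x + a0, hch, ?_, tr (tr A (-a0) + fs K) (-x), ?_, ?_⟩
  · intro y hy
    have h1 : y - a0 ∈ tr A (-a0) := by
      rw [mem_tr]
      have e : y - a0 - -a0 = y := by abel
      rwa [e]
    have h2 := (hform _).mp (subset_add_fs _ K h1)
    have e : y - a0 - x = y - (x + a0) := by abel
    rwa [e] at h2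
  · intro y
    rw [mem_tr, hform]
    have e : y - -x - x = y := by abel
    rw [e]
  · rw [card_tr, hc, card_tr]

/-! ### Upper bound for staircases -/

theorem hs_sub_of {T : Finset G} {K : AddSubgroup G} (hT : ∀ x ∈ T, x ∈ K) (n : ℕ) :
    ∀ x ∈ hs T n, x ∈ K := by
  induction n with
  | zero =>
    intro x hx
    rw [hs_zero, Finset.mem_singleton] at hx
    rw [hx]; exact K.zero_mem
  | succ n ih =>
    intro x hx
    rw [hs_succ] at hx
    obtain ⟨w, hw, y, hy, rfl⟩ := Finset.mem_add.mp hx
    exact K.add_mem (ih w hw) (hT y hy)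

/-- A set as a finset. -/
noncomputable def fin (S : Set G) : Finset G := by
  classical exact Finset.univ.filter (fun x => x ∈ S)

theorem mem_fin {S : Set G} {x : G} : x ∈ fin S ↔ x ∈ S := by
  simp [fin]

theorem IsLayer.upper {h : ℕ} (hh : 2 ≤ h) {K L : AddSubgroup G} {B : Set G}
    (hB : IsLayer h K L B) (T : Finset G) (hT : ∀ x ∈ T, x ∈ K) :
    (∀ x ∈ B, x ∉ K) ∧ (∀ x ∈ B, x ∈ L) ∧ ∃ E : Finset G,
      hs (T ∪ fin B) h ⊆ hs T h ∪ E ∧ E.card ≤ h * (fin B).card := by
  obtain ⟨hKL, hB⟩ := hB
  rcases hB with ⟨g, hg, c, hc, hBe⟩ | ⟨h2, hp, hu, hd⟩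
  · have hmem : ∀ x, x ∈ B ↔ ∃ j : ℕ, 1 ≤ j ∧ j ≤ c ∧ x - j • g ∈ K := by
      intro x; rw [hBe]; rfl
    have hch : c ≤ h * c := Nat.le_mul_of_pos_left c (by omega)
    refine ⟨?_, ?_, (Finset.Icc 1 (h * c)).biUnion (fun j => tr (fs K) (j • g)), ?_, ?_⟩
    · intro x hx hxK
      obtain ⟨j, h1, h2, h3⟩ := (hmem x).mp hx
      apply hc j h1 (by omega)
      have e : j • g = x - (x - j • g) := by abel
      rw [e]
      exact K.sub_mem hxK h3
    · intro x hx
      obtain ⟨j, h1, h2, h3⟩ := (hmem x).mp hx
      have e : x = (x - j • g) + j • g := by abel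
      rw [e]
      exact L.add_mem (hKL h3) (L.nsmul_mem hg j)
    · have key : ∀ n : ℕ, hs (T ∪ fin B) n ⊆
          hs T n ∪ (Finset.Icc 1 (n * c)).biUnion (fun j => tr (fs K) (j • g)) := by
        intro n
        induction n with
        | zero =>
          rw [hs_zero, hs_zero]
          exact Finset.subset_union_left
        | succ n ih =>
          intro z hz
          rw [hs_succ] at hz
          obtain ⟨w, hw, x, hx, rfl⟩ := Finset.mem_add.mp hz
          have hw' := ih hw
          rw [Finset.mem_union, Finset.mem_biUnion] at hw' ⊢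
          rw [Finset.mem_union, mem_fin, hmem] at hx
          rcases hw' with hw' | ⟨i, hi, hiw⟩
          · rcases hx with hx | ⟨j, j1, j2, j3⟩
            · left
              rw [hs_succ]
              exact Finset.add_mem_add hw' hx
            · right
              refine ⟨j, ?_, ?_⟩
              · rw [Finset.mem_Icc]
                have : (n + 1) * c = n * c + c := by ring
                omega
              · rw [mem_tr, mem_fs]
                have e : w + x - j • g = w + (x - j • g) := by abel
                rw [e]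
                exact K.add_mem (hs_sub_of hT n w hw') j3
          · right
            rw [Finset.mem_Icc] at hi
            rw [mem_tr, mem_fs] at hiw
            have e0 : (n + 1) * c = n * c + c := by ring
            rcases hx with hx | ⟨j, j1, j2, j3⟩
            · refine ⟨i, ?_, ?_⟩
              · rw [Finset.mem_Icc]
                omega
              · rw [mem_tr, mem_fs]
                have e : w + x - i • g = (w - i • g) + x := by abel
                rw [e]
                exact K.add_mem hiw (hT x hx)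
            · refine ⟨i + j, ?_, ?_⟩
              · rw [Finset.mem_Icc]
                omega
              · rw [mem_tr, mem_fs]
                have e : w + x - (i + j) • g = (w - i • g) + (x - j • g) := by
                  rw [add_nsmul]; abel
                rw [e]
                exact K.add_mem hiw j3
      exact key h
    · have h1 : ((Finset.Icc 1 (h * c)).biUnion (fun j => tr (fs K) (j • g))).card
          ≤ (Finset.Icc 1 (h * c)).card * (fs K).card := by
        apply Finset.card_biUnion_le_card_mul
        intro j _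
        rw [card_tr]
      have h2 : fin B = (Finset.Icc 1 c).biUnion (fun j => tr (fs K) (j • g)) := by
        ext x
        rw [mem_fin, hmem, Finset.mem_biUnion]
        constructor
        · rintro ⟨j, j1, j2, j3⟩
          exact ⟨j, Finset.mem_Icc.mpr ⟨j1, j2⟩, by rw [mem_tr, mem_fs]; exact j3⟩
        · rintro ⟨j, j1, j2⟩
          rw [Finset.mem_Icc] at j1
          rw [mem_tr, mem_fs] at j2
          exact ⟨j, j1.1, j1.2, j2⟩
      have h3 : (fin B).card = c * (fs K).card := by
        rw [h2, Finset.card_biUnion]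
        · simp only [card_tr, Finset.sum_const, Nat.card_Icc, smul_eq_mul]
          congr 1
        · have hlt : ∀ i j : ℕ, 1 ≤ i → j ≤ c → i < j →
              Disjoint (tr (fs K) (i • g)) (tr (fs K) (j • g)) := by
            intro i j hi hj hij
            rw [Finset.disjoint_left]
            intro x hx hx'
            rw [mem_tr, mem_fs] at hx hx'
            apply hc (j - i) (by omega) (by omega)
            have e : (j - i) • g = (x - i • g) - (x - j • g) := by
              have e2 : j • g = (j - i) • g + i • g := by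
                rw [← add_nsmul]; congr 1; omega
              rw [e2]; abel
            rw [e]
            exact K.sub_mem hx hx'
          intro i hi j hj hij
          rw [Finset.mem_coe, Finset.mem_Icc] at hi hj
          rcases Nat.lt_or_gt_of_ne hij with h | h
          · exact hlt i j hi.1 hj.2 h
          · exact (hlt j i hj.1 hi.2 h).symm
      rw [h3]
      rw [Nat.card_Icc] at h1
      have e : h * c + 1 - 1 = h * c := by omega
      rw [e] at h1
      calc _ ≤ _ := h1
        _ = _ := by ring
  · subst h2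
    have hBK : ∀ x ∈ B, x ∈ L ∧ x ∉ K := fun x hx => (hu x).mp (Or.inl hx)
    refine ⟨fun x hx => (hBK x hx).2, fun x hx => (hBK x hx).1,
      fin B ∪ (fin B).image (fun x => -x), ?_, ?_⟩
    · have hE : ∀ x, x ∈ L → x ∉ K → x ∈ fin B ∪ (fin B).image (fun x => -x) := by
        intro x hx hxK
        rw [Finset.mem_union, Finset.mem_image, mem_fin]
        rcases (hu x).mpr ⟨hx, hxK⟩ with h | h
        · exact Or.inl h
        · exact Or.inr ⟨-x, mem_fin.mpr h, neg_neg x⟩
      have hmix : ∀ x ∈ T, ∀ y ∈ fin B, x + y ∈ fin B ∪ (fin B).image (fun x => -x) := by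
        intro x hx y hy
        rw [mem_fin] at hy
        apply hE
        · exact L.add_mem (hKL (hT x hx)) (hBK y hy).1
        · intro h
          apply (hBK y hy).2
          have e : y = (x + y) - x := by abel
          rw [e]
          exact K.sub_mem h (hT x hx)
      intro z hz
      rw [hs_two] at hz ⊢
      obtain ⟨x, hx, y, hy, rfl⟩ := Finset.mem_add.mp hz
      rw [Finset.mem_union] at hx hy
      rw [Finset.mem_union]
      rcases hx with hx | hx
      · rcases hy with hy | hy
        · exact Or.inl (Finset.add_mem_add hx hy)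
        · exact Or.inr (hmix x hx y hy)
      · right
        rcases hy with hy | hy
        · rw [add_comm]
          exact hmix y hy x hx
        · rw [mem_fin] at hx hy
          apply hE
          · exact L.add_mem (hBK x hx).1 (hBK y hy).1
          · intro h
            apply hd y hy
            have h3 := hp x hx (-(x + y)) (K.neg_mem h)
            have e : x + -(x + y) = -y := by abel
            rwa [e] at h3
    · refine (Finset.card_union_le _ _).trans ?_
      have := Finset.card_image_le (s := fin B) (f := fun x => -x)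
      omega

theorem Chain.upper {h : ℕ} (hh : 2 ≤ h) {K L : AddSubgroup G} {B : Set G}
    (hB : Chain h K L B) : (∀ x ∈ fin ((K : Set G) ∪ B), x ∈ L) ∧
      (hs (fin ((K : Set G) ∪ B)) h).card + (h - 1) * (fs K).card
        ≤ h * (fin ((K : Set G) ∪ B)).card := by
  induction hB with
  | nil L hKL =>
    have e : fin ((K : Set G) ∪ ∅) = fs K := by
      ext x
      rw [mem_fin, mem_fs, Set.union_empty]
      rfl
    rw [e]
    refine ⟨fun x hx => hKL (mem_fs.mp hx), ?_⟩
    have h1 : (hs (fs K) h).card ≤ (fs K).card :=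
      Finset.card_le_card (fun x hx => mem_fs.mpr (hs_sub_of (fun y hy => mem_fs.mp hy) h x hx))
    obtain ⟨d, rfl⟩ : ∃ d, h = d + 1 := ⟨h - 1, by omega⟩
    have e1 : d + 1 - 1 = d := by omega
    rw [e1]
    have e2 : (d + 1) * (fs K).card = d * (fs K).card + (fs K).card := by ring
    omega
  | snoc K₁ L₁ L B B' h1 h2 h3 ih =>
    obtain ⟨ih1, ih2⟩ := ih
    obtain ⟨u1, u2, E, u3, u4⟩ := h2.upper hh _ ih1
    have e : fin ((K : Set G) ∪ (B ∪ B')) = fin ((K : Set G) ∪ B) ∪ fin B' := by
      ext x
      rw [Finset.mem_union, mem_fin, mem_fin, mem_fin, ← Set.union_assoc]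
      rfl
    have hdis : Disjoint (fin ((K : Set G) ∪ B)) (fin B') := by
      rw [Finset.disjoint_left]
      intro x hx hx'
      exact u1 x (mem_fin.mp hx') (ih1 x hx)
    rw [e]
    refine ⟨?_, ?_⟩
    · intro x hx
      rw [Finset.mem_union] at hx
      rcases hx with hx | hx
      · exact h3 (h2.1 (ih1 x hx))
      · exact h3 (u2 x (mem_fin.mp hx))
    · have c1 := (Finset.card_le_card u3).trans (Finset.card_union_le _ _)
      rw [Finset.card_union_of_disjoint hdis]
      have e2 : h * ((fin ((K : Set G) ∪ B)).card + (fin B').card)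
        = h * (fin ((K : Set G) ∪ B)).card + h * (fin B').card := by ring
      omega

theorem backward (k : ℕ) (hk : 1 ≤ k) (A : Finset G) (K : AddSubgroup G) (B : Set G) (x : G)
    (hch : Chain (k + 1) K ⊤ B) (hA : ∀ y ∈ A, (y - x ∈ K ∨ y - x ∈ B))
    (S : Finset G) (hS : ∀ y, y ∈ S ↔ (y ∈ K ∨ y ∈ B))
    (hc : (k + 1) * S.card = (k + 1) * A.card + k * ((fs K).card - 1)) :
    (hs A (k + 1)).card + (k + 1) ≤ (k + 1) * A.card + 1 := by
  obtain ⟨-, hup⟩ := hch.upper (by omega)
  have e : fin ((K : Set G) ∪ B) = S := by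
    ext y
    rw [mem_fin, hS]
    rfl
  rw [e] at hup
  have h1 : tr A (-x) ⊆ S := by
    intro y hy
    rw [mem_tr] at hy
    have h2 := hA _ hy
    have e2 : y - -x - x = y := by abel
    rw [e2] at h2
    exact (hS y).mpr h2
  have h2 := Finset.card_le_card (hs_mono h1 (k + 1))
  rw [card_hs_tr] at h2
  have e1 : k + 1 - 1 = k := by omega
  rw [e1] at hup
  have hq := fs_card_pos K
  obtain ⟨q, hq'⟩ : ∃ q, (fs K).card = q + 1 := ⟨(fs K).card - 1, by omega⟩
  rw [hq'] at hup hc
  have e3 : k * (q + 1) = k * q + k := by ring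
  have e4 : q + 1 - 1 = q := by omega
  rw [e4] at hc
  omega

end Pool.Agent.TH409.CS
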