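import Mathlib
import Pool.Agent.TH409.CS7

set_option autoImplicit false
set_option linter.unusedSectionVars false

open scoped Pointwise
open Finset

namespace Pool.Agent.TH409.CS

open Pool.Agent.Helper730.Kneser
open Pool.Agent.Helper730.Atoms
open Pool.Agent.Helper730.Signed
open Pool.Agent.Helper730.Lex

universe u

section lower

variable {G : Type u} [AddCommGroup G] [Fintype G] [DecidableEq G]

/-- The lower bound for valid triples. -/
theorem lower (h : ℕ) (A : Finset G) (hne : A.Nonempty)
    (hV : ∀ d, d ∣ Fintype.card G → h * ((A.card - 1) % d) < d) :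
    h * A.card + 1 ≤ (hs A h).card + h := by
  set K := stab (hs A h) with hK
  have h1 := kneser_hs A hne h K rfl
  rw [card_add_fs] at h1
  have h3 := card_le_im K A
  have hqd : (fs K).card ∣ Fintype.card G := by
    rw [fs_card_eq]; exact card_fs_dvd K
  have h4 := hV _ hqd
  have hm : 1 ≤ A.card := Finset.card_pos.mpr hne
  set q := (fs K).card with hq
  set r := (A.card - 1) % q with hr
  set s := (A.card - 1) / q with hs'
  have hm1 : A.card - 1 = q * s + r := (Nat.div_add_mod _ _).symm
  have hm2 : A.card = q * s + r + 1 := by omega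
  have hsa : s < (im K A).card := by
    by_contra hcon
    push Not at hcon
    have := Nat.mul_le_mul_left q hcon
    omega
  have h5 : h * (q * (s + 1)) ≤ h * (q * (im K A).card) :=
    Nat.mul_le_mul_left _ (Nat.mul_le_mul_left _ hsa)
  have e1 : h * (q * (s + 1)) = h * (q * s) + h * q := by ring
  rw [hm2]
  have e2 : h * (q * s + r + 1) = h * (q * s) + h * r + h := by ring
  omega

theorem mem_hs_iff (A : Finset G) (n : ℕ) : ∀ x, x ∈ hs A n ↔
    ∃ f : Fin n → G, (∀ i, f i ∈ A) ∧ ∑ i, f i = x := by
  induction n with
  | zero =>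
    intro x
    rw [hs_zero, Finset.mem_singleton]
    constructor
    · rintro rfl
      exact ⟨fun i => i.elim0, fun i => i.elim0, by simp⟩
    · rintro ⟨f, -, rfl⟩
      simp
  | succ n ih =>
    intro x
    rw [hs_succ, Finset.mem_add]
    constructor
    · rintro ⟨w, hw, y, hy, rfl⟩
      obtain ⟨f, hf, rfl⟩ := (ih w).mp hw
      refine ⟨Fin.snoc f y, ?_, ?_⟩
      · intro i
        refine Fin.lastCases ?_ (fun j => ?_) i
        · rw [Fin.snoc_last]; exact hy
        · rw [Fin.snoc_castSucc]; exact hf j
      · rw [Fin.sum_univ_castSucc]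
        simp
    · rintro ⟨f, hf, rfl⟩
      refine ⟨∑ i : Fin n, f i.castSucc, ?_, f (Fin.last n), hf _, ?_⟩
      · rw [ih]
        exact ⟨fun i => f i.castSucc, fun i => hf _, rfl⟩
      · rw [Fin.sum_univ_castSucc]

end lower

/-- Subsets of every size with small iterated sumsets. -/
theorem exists_small (h : ℕ) (hh : 1 ≤ h) : ∀ (n : ℕ) (G : Type u) [AddCommGroup G] [Fintype G]
    [DecidableEq G], Fintype.card G = n → ∀ m, 1 ≤ m → m ≤ n →
    ∃ A : Finset G, A.card = m ∧ (hs A h).card + h ≤ h * m + 1 := by
  intro n
  induction n using Nat.strong_induction_on with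
  | _ n ih =>
  intro G _ _ _ hn m hm1 hmn
  rcases subsingleton_or_nontrivial G with hsub | hnt
  · have hG1 : Fintype.card G ≤ 1 := Fintype.card_le_one_iff_subsingleton.mpr hsub
    have hm : m = 1 := by omega
    subst hm
    refine ⟨{0}, Finset.card_singleton _, ?_⟩
    have h1 : (hs ({0} : Finset G) h).card ≤ 1 := (Finset.card_le_univ _).trans hG1
    omega
  · obtain ⟨H, hH⟩ := IsCoatomic.exists_coatom (α := AddSubgroup G)
    obtain ⟨g, hg⟩ : ∃ g, g ∉ H := by
      by_contra hcon
      push Not at hcon
      exact hH.1 (eq_top_iff.mpr (fun x _ => hcon x))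
    have hsup : H ⊔ AddSubgroup.zmultiples g = ⊤ := by
      apply hH.2
      rw [lt_iff_le_not_ge]
      refine ⟨le_sup_left, ?_⟩
      intro h1
      exact hg (h1 (AddSubgroup.mem_sup_right (AddSubgroup.mem_zmultiples g)))
    set gb : G ⧸ H := QuotientAddGroup.mk g with hgb
    have hgen : ∀ y : G ⧸ H, y ∈ AddSubgroup.zmultiples gb := by
      intro y
      obtain ⟨x, rfl⟩ := QuotientAddGroup.mk_surjective y
      have hx : x ∈ H ⊔ AddSubgroup.zmultiples g := by rw [hsup]; trivial
      rw [AddSubgroup.mem_sup] at hx
      obtain ⟨u, hu, v, hv, rfl⟩ := hx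
      obtain ⟨i, rfl⟩ := AddSubgroup.mem_zmultiples_iff.mp hv
      rw [AddSubgroup.mem_zmultiples_iff]
      refine ⟨i, ?_⟩
      have e1 : (QuotientAddGroup.mk (u + i • g) : G ⧸ H)
          = QuotientAddGroup.mk u + i • gb := rfl
      rw [e1, mk_eq_zero.mpr hu, zero_add]
    have hP : addOrderOf gb = Nat.card (G ⧸ H) :=
      addOrderOf_eq_card_of_forall_mem_zmultiples hgen
    set P := Nat.card (G ⧸ H) with hPdef
    have hcardG : Fintype.card G = P * (fs H).card := by
      rw [← Nat.card_eq_fintype_card,
        AddSubgroup.card_eq_card_quotient_mul_card_addSubgroup H, fs_card_eq]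
    have hqpos := fs_card_pos H
    set q := (fs H).card with hq
    have hqlt : q < n := by
      have h1 : fs H ⊂ Finset.univ := by
        rw [Finset.ssubset_iff_of_subset (Finset.subset_univ _)]
        exact ⟨g, Finset.mem_univ _, fun h2 => hg (mem_fs.mp h2)⟩
      have := Finset.card_lt_card h1
      rw [Finset.card_univ, hn] at this
      exact this
    have hfin : Fintype.card H = q := by
      rw [hq, fs_card_eq, Nat.card_eq_fintype_card]
    set c := (m - 1) / q with hc
    set m0 := (m - 1) % q + 1 with hm0
    have hm0q : m0 ≤ q := by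
      have := Nat.mod_lt (m - 1) hqpos
      omega
    have hmc : m = q * c + m0 := by
      have := Nat.div_add_mod (m - 1) q
      rw [← hc] at this
      omega
    have hcP : c < P := by
      rw [hc, Nat.div_lt_iff_lt_mul hqpos, ← hcardG, hn]
      omega
    obtain ⟨A0, hA0, hA0h⟩ := ih q hqlt H hfin m0 (by omega) hm0q
    set A1 := A0.image H.subtype with hA1
    have hA1c : A1.card = m0 := by
      rw [hA1, Finset.card_image_of_injective _ H.subtype_injective, hA0]
    have hA1H : ∀ x ∈ A1, x ∈ H := by
      intro x hx
      obtain ⟨y, -, rfl⟩ := Finset.mem_image.mp hx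
      exact y.2
    have hA1h : (hs A1 h).card = (hs A0 h).card := by
      rw [hA1, hs_image, Finset.card_image_of_injective _ H.subtype_injective]
    have hnm : ∀ j : ℕ, 1 ≤ j → j < P → j • g ∉ H := by
      intro j hj1 hj2 hjH
      rw [← hP] at hj2
      apply nsmul_ne_zero_of_lt_addOrderOf (by omega) hj2
      have e1 : j • gb = QuotientAddGroup.mk (j • g) := rfl
      rw [e1, mk_eq_zero]
      exact hjH
    have hdisj : ∀ i j : ℕ, j < P → i < j →
        Disjoint (tr (fs H) (i • g)) (tr (fs H) (j • g)) := by
      intro i j hj hij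
      rw [Finset.disjoint_left]
      intro x hx hx'
      rw [mem_tr, mem_fs] at hx hx'
      apply hnm (j - i) (by omega) (by omega)
      have e : (j - i) • g = (x - i • g) - (x - j • g) := by
        have e2 : j • g = (j - i) • g + i • g := by
          rw [← add_nsmul]; congr 1; omega
        rw [e2]; abel
      rw [e]
      exact H.sub_mem hx hx'
    set U : ℕ → Finset G := fun t => (Finset.range t).biUnion (fun j => tr (fs H) (j • g)) with hU
    have hmemU : ∀ t x, x ∈ U t ↔ ∃ j < t, x - j • g ∈ H := by
      intro t x
      rw [hU]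
      simp only [Finset.mem_biUnion, Finset.mem_range, mem_tr, mem_fs]
    have hA1sub : tr A1 (c • g) ⊆ tr (fs H) (c • g) := by
      intro x hx
      rw [mem_tr] at hx ⊢
      exact mem_fs.mpr (hA1H _ hx)
    refine ⟨U c ∪ tr A1 (c • g), ?_, ?_⟩
    · rw [Finset.card_union_of_disjoint, card_tr, hA1c, hU]
      · simp only
        rw [Finset.card_biUnion]
        · simp only [card_tr, Finset.sum_const, Finset.card_range, smul_eq_mul]
          rw [hmc]; ring
        · intro i hi j hj hij
          rw [Finset.mem_coe, Finset.mem_range] at hi hj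
          rcases Nat.lt_or_gt_of_ne hij with h1 | h1
          · exact hdisj i j (by omega) h1
          · exact (hdisj j i (by omega) h1).symm
      · rw [hU]
        simp only
        rw [Finset.disjoint_biUnion_left]
        intro i hi
        rw [Finset.mem_range] at hi
        exact Finset.disjoint_of_subset_right hA1sub (hdisj i c hcP hi)
    · have key : ∀ t : ℕ, hs (U c ∪ tr A1 (c • g)) t ⊆
          U (t * c) ∪ tr (hs A1 t) ((t * c) • g) := by
        intro t
        induction t with
        | zero =>
          intro x hx
          rw [hs_zero, Finset.mem_singleton] at hx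
          rw [Finset.mem_union, mem_tr, hs_zero, Finset.mem_singleton, hx]
          right
          rw [zero_mul, zero_nsmul, sub_zero]
        | succ t iht =>
          intro z hz
          rw [hs_succ] at hz
          obtain ⟨w, hw, x, hx, rfl⟩ := Finset.mem_add.mp hz
          have hw' := iht hw
          have e0 : (t + 1) * c = t * c + c := by ring
          rw [Finset.mem_union, hmemU] at hw' hx ⊢
          rcases hw' with ⟨i, hi, hiw⟩ | hw'
          · left
            rcases hx with ⟨j, hj, hjx⟩ | hx
            · refine ⟨i + j, by omega, ?_⟩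
              have e : w + x - (i + j) • g = (w - i • g) + (x - j • g) := by
                rw [add_nsmul]; abel
              rw [e]
              exact H.add_mem hiw hjx
            · refine ⟨i + c, by omega, ?_⟩
              have e : w + x - (i + c) • g = (w - i • g) + (x - c • g) := by
                rw [add_nsmul]; abel
              rw [e]
              rw [mem_tr] at hx
              exact H.add_mem hiw (hA1H _ hx)
          · rw [mem_tr] at hw'
            rcases hx with ⟨j, hj, hjx⟩ | hx
            · left
              refine ⟨t * c + j, by omega, ?_⟩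
              have e : w + x - (t * c + j) • g = (w - (t * c) • g) + (x - j • g) := by
                rw [add_nsmul]; abel
              rw [e]
              exact H.add_mem (hs_sub_of hA1H t _ hw') hjx
            · right
              rw [mem_tr] at hx ⊢
              rw [hs_succ, e0]
              have e : w + x - (t * c + c) • g = (w - (t * c) • g) + (x - c • g) := by
                rw [add_nsmul]; abel
              rw [e]
              exact Finset.add_mem_add hw' hx
      have h1 := (Finset.card_le_card (key h)).trans (Finset.card_union_le _ _)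
      rw [card_tr, hA1h] at h1
      have h2 : (U (h * c)).card ≤ (h * c) * q := by
        rw [hU]
        simp only
        have := Finset.card_biUnion_le_card_mul (Finset.range (h * c))
          (fun j => tr (fs H) (j • g)) q (fun j _ => by rw [card_tr])
        rwa [Finset.card_range] at this
      have e2 : h * m = h * c * q + h * m0 := by rw [hmc]; ring
      omega

/-- Subsets built from subgroups. -/
theorem exists_small_sub (h : ℕ) (hh : 1 ≤ h) : ∀ (d : ℕ) (G : Type u) [AddCommGroup G]
    [Fintype G] [DecidableEq G] (s : ℕ), d ∣ Fintype.card G → d * (s + 1) ≤ Fintype.card G →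
    ∃ A : Finset G, A.card = d * (s + 1) ∧ (hs A h).card ≤ d * (h * s + 1) := by
  intro d
  induction d using Nat.strong_induction_on with
  | _ d ih =>
  intro G _ _ _ s hd hle
  have hGpos : 0 < Fintype.card G := Fintype.card_pos
  have hdpos : 0 < d := Nat.pos_of_dvd_of_pos hd hGpos
  rcases Nat.lt_or_ge 1 d with hd1 | hd1
  · obtain ⟨p, hp, hpd⟩ := Nat.exists_prime_and_dvd (by omega : d ≠ 1)
    have : Fact p.Prime := ⟨hp⟩
    obtain ⟨x, hx⟩ := exists_prime_addOrderOf_dvd_card p (hpd.trans hd)
    set K := AddSubgroup.zmultiples x with hK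
    have hKc : (fs K).card = p := by
      rw [fs_card_eq, hK, Nat.card_zmultiples, hx]
    obtain ⟨d', rfl⟩ := hpd
    have hGc : Fintype.card G = Fintype.card (G ⧸ K) * p := by
      rw [← Nat.card_eq_fintype_card,
        AddSubgroup.card_eq_card_quotient_mul_card_addSubgroup K, Nat.card_eq_fintype_card,
        ← hKc, fs_card_eq]
    have hd'pos : 0 < d' := Nat.pos_of_mul_pos_left hdpos
    have hlt : d' < p * d' := by
      have := hp.two_le
      nlinarith
    have hdvd' : d' ∣ Fintype.card (G ⧸ K) := by
      rw [hGc, mul_comm p d'] at hd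
      exact Nat.dvd_of_mul_dvd_mul_right hp.pos hd
    have hle' : d' * (s + 1) ≤ Fintype.card (G ⧸ K) := by
      rw [hGc] at hle
      apply Nat.le_of_mul_le_mul_right _ hp.pos
      calc d' * (s + 1) * p = p * d' * (s + 1) := by ring
        _ ≤ _ := hle
    obtain ⟨Ab, hAb, hAbh⟩ := ih d' hlt (G ⧸ K) s hdvd' hle'
    set A : Finset G := Finset.univ.filter (fun y => (QuotientAddGroup.mk y : G ⧸ K) ∈ Ab) with hA
    have hmemA : ∀ y, y ∈ A ↔ (QuotientAddGroup.mk y : G ⧸ K) ∈ Ab := by
      intro y; rw [hA]; simp
    have him : im K A = Ab := by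
      ext y
      rw [mem_im]
      constructor
      · rintro ⟨z, hz, rfl⟩
        exact (hmemA z).mp hz
      · intro hy
        obtain ⟨z, rfl⟩ := QuotientAddGroup.mk_surjective y
        exact ⟨z, (hmemA z).mpr hy, rfl⟩
    have hst : K ≤ stab A := by
      intro g hg
      apply mem_stab_of_forall
      intro y hy
      rw [hmemA] at hy ⊢
      have : (QuotientAddGroup.mk (y + g) : G ⧸ K) = QuotientAddGroup.mk y := by
        rw [mk_eq_mk]
        have e : y + g - y = g := by abel
        rw [e]; exact hg
      rw [this]; exact hy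
    refine ⟨A, ?_, ?_⟩
    · rw [card_eq_im K A hst, him, hAb, hKc]; ring
    · have h1 := card_le_im K (hs A h)
      rw [← hs_im, him, hKc] at h1
      calc _ ≤ _ := h1
        _ ≤ p * (d' * (h * s + 1)) := Nat.mul_le_mul_left _ hAbh
        _ = _ := by ring
  · have hd1' : d = 1 := by omega
    subst hd1'
    obtain ⟨A, hA, hAh⟩ := exists_small h hh (Fintype.card G) G rfl (s + 1) (by omega) (by omega)
    refine ⟨A, by omega, ?_⟩
    have : h * (s + 1) = h * s + h := by ring
    omega

end Pool.Agent.TH409.CS
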