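import Mathlib
import Pool.Agent.TH409.CS8

set_option autoImplicit false
set_option linter.unusedSectionVars false

open scoped Pointwise
open Finset

namespace Pool.Agent.TH409.CS

open Pool.Agent.Helper730.Kneser
open Pool.Agent.Helper730.Atoms
open Pool.Agent.Helper730.Signed
open Pool.Agent.Helper730.Lex

universe u

section main

variable {G : Type u} [AddCommGroup G] [Fintype G] [DecidableEq G]

theorem sumset_coe (h : ℕ) (A : Finset G) : sumset h (A : Set G) = (hs A h : Set G) := by
  ext x
  rw [Finset.mem_coe, mem_hs_iff]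
  rfl

theorem fin_coe (A : Set G) : (fin A : Set G) = A := by
  ext x
  rw [Finset.mem_coe, mem_fin]

theorem ncard_eq (A : Set G) : A.ncard = (fin A).card := by
  conv_lhs => rw [← fin_coe A]
  rw [Set.ncard_coe_finset]

theorem ncard_sumset (h : ℕ) (A : Set G) : (sumset h A).ncard = (hs (fin A) h).card := by
  conv_lhs => rw [← fin_coe A]
  rw [sumset_coe, Set.ncard_coe_finset]

theorem exists_fin (h m : ℕ) (hm1 : 1 ≤ m) (hm : m ≤ Fintype.card G) (hh : 1 ≤ h) :
    ∃ A : Finset G, A.card = m ∧ (hs A h).card + h ≤ h * m + 1 :=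
  exists_small h hh (Fintype.card G) G rfl m hm1 hm

theorem rho_le (h : ℕ) (A : Finset G) : rho G A.card h ≤ (hs A h).card := by
  apply Nat.sInf_le
  refine ⟨(A : Set G), Set.ncard_coe_finset A, ?_⟩
  rw [sumset_coe, Set.ncard_coe_finset]

/-- validity criterion -/
theorem valid_iff (m h : ℕ) (hh : 2 ≤ h) (hm1 : 1 ≤ m) (hm : m ≤ Fintype.card G) :
    (rho G m h = h * m - h + 1 ∧ h * m - h + 1 < Fintype.card G) ↔
      (h * m - h + 1 < Fintype.card G ∧
        ∀ d, d ∣ Fintype.card G → h * ((m - 1) % d) < d) := by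
  have hmm : h ≤ h * m := Nat.le_mul_of_pos_right h hm1
  constructor
  · rintro ⟨h1, h2⟩
    refine ⟨h2, ?_⟩
    intro d hd
    by_contra hcon
    push Not at hcon
    have hGpos : 0 < Fintype.card G := Fintype.card_pos
    have hdpos : 0 < d := Nat.pos_of_dvd_of_pos hd hGpos
    set s := (m - 1) / d with hs'
    have hdm : d * s + (m - 1) % d = m - 1 := Nat.div_add_mod (m - 1) d
    have hlt := Nat.mod_lt (m - 1) hdpos
    have hle : d * (s + 1) ≤ Fintype.card G := by
      obtain ⟨e, he⟩ := hd
      rw [he]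
      apply Nat.mul_le_mul_left
      rw [hs']
      show (m - 1) / d < e
      rw [Nat.div_lt_iff_lt_mul hdpos, mul_comm, ← he]
      omega
    obtain ⟨A, hA, hAh⟩ := exists_small_sub h (by omega) d G s hd hle
    have hmA : m ≤ A.card := by
      rw [hA]
      have : d * (s + 1) = d * s + d := by ring
      omega
    obtain ⟨A', hA'A, hA'⟩ := Finset.exists_subset_card_eq hmA
    have h3 := rho_le h A'
    rw [hA', h1] at h3
    have h4 := Finset.card_le_card (hs_mono hA'A h)
    have e1 : d * (h * s + 1) = h * (d * s) + d := by ring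
    have e2 : h * (m - 1) = h * (d * s) + h * ((m - 1) % d) := by
      calc h * (m - 1) = h * (d * s + (m - 1) % d) := by rw [hdm]
        _ = _ := by ring
    have e3 : h * m - h = h * (m - 1) := by
      obtain ⟨m', rfl⟩ : ∃ m', m = m' + 1 := ⟨m - 1, by omega⟩
      have : h * (m' + 1) = h * m' + h := by ring
      rw [this, Nat.add_sub_cancel, Nat.add_sub_cancel]
    omega
  · rintro ⟨h2, hV⟩
    refine ⟨?_, h2⟩
    apply le_antisymm
    · obtain ⟨A, hA, hAh⟩ := exists_fin (G := G) h m hm1 hm (by omega)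
      have h3 := rho_le h A
      rw [hA] at h3
      omega
    · obtain ⟨A, hA, hAh⟩ := exists_fin (G := G) h m hm1 hm (by omega)
      apply le_csInf
      · exact ⟨_, (A : Set G), by rw [Set.ncard_coe_finset, hA], rfl⟩
      · rintro t ⟨B, hB, rfl⟩
        rw [ncard_eq] at hB
        rw [ncard_sumset]
        have hne : (fin B).Nonempty := Finset.card_pos.mp (by omega)
        have h3 := lower h (fin B) hne (by rw [hB]; exact hV)
        rw [hB] at h3
        omega

theorem minimisers (m h : ℕ) (hh : 2 ≤ h) (hm1 : 1 ≤ m) (hm : m ≤ Fintype.card G)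
    (h1 : rho G m h = h * m - h + 1) (h2 : h * m - h + 1 < Fintype.card G)
    (A : Set G) (hA : A.ncard = m) :
    (sumset h A).ncard = h * m - h + 1 ↔
      ∃ (K : AddSubgroup G) (S : Set G) (x : G), IsStaircase h K S ∧ (∀ a ∈ A, a - x ∈ S) ∧
        h * S.ncard = h * m + (h - 1) * (Nat.card K - 1) := by
  have hmm : h ≤ h * m := Nat.le_mul_of_pos_right h hm1
  have hV := ((valid_iff m h hh hm1 hm).mp ⟨h1, h2⟩).2
  obtain ⟨k, rfl⟩ : ∃ k, h = k + 1 := ⟨h - 1, by omega⟩
  have hk : 1 ≤ k := by omega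
  rw [ncard_eq] at hA
  rw [ncard_sumset]
  have hne : (fin A).Nonempty := Finset.card_pos.mp (by omega)
  have e1 : k + 1 - 1 = k := by omega
  rw [e1]
  constructor
  · intro hc
    obtain ⟨K, B, x, hch, hAS, S, hS, hSc⟩ := forward k hk (fin A) hne
      (by rw [hA]; omega) (by rw [hA]; exact hV)
    obtain ⟨r, P, C, hP0, hPr, hlay, hB⟩ := hch.seq
    refine ⟨K, {y | y ∈ K ∨ y ∈ B}, x, ⟨r, P, C, hP0, hlay, ?_⟩, ?_, ?_⟩
    · ext y
      simp only [Set.mem_ofPred_eq, hB]
    · intro a ha
      exact hAS a (mem_fin.mpr ha)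
    · rw [hA] at hSc
      have e2 : fin {y | y ∈ K ∨ y ∈ B} = S := by
        ext y
        rw [mem_fin, hS]
        rfl
      rw [ncard_eq, e2, hSc, fs_card_eq]
  · rintro ⟨K, S, x, ⟨r, P, C, hP0, hlay, hSe⟩, hAS, hSc⟩
    have hch := (Chain.of_seq r hlay).mono (L' := ⊤) le_top
    rw [hP0] at hch
    have h3 := backward k hk (fin A) K _ x hch (by
      intro y hy
      have := hAS y (mem_fin.mp hy)
      rw [hSe] at this
      exact this) (fin S) (by
        intro y
        rw [mem_fin, hSe]
        rfl) (by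
        rw [hA, fs_card_eq, ← ncard_eq]
        exact hSc)
    have h4 := lower (k + 1) (fin A) hne (by rw [hA]; exact hV)
    rw [hA] at h3 h4
    omega

end main

end Pool.Agent.TH409.CS
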