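import Pool.Agent.TH843.PY.Stm

/-!
Job 206 (PYTH-A3): roots and leading coefficient bound for the Dickson polynomial.
-/

set_option autoImplicit false
open Polynomial NumberField

namespace Pool.Agent.TH409.J206

open Pool.Agent.TH843.PY

section basic

theorem dick_monic_deg (n : ℕ) :
    (dickson 1 (4 : ℤ) (n + 1)).Monic ∧ (dickson 1 (4 : ℤ) (n + 1)).natDegree = n + 1 ∧
    (dickson 1 (4 : ℤ) (n + 2)).Monic ∧ (dickson 1 (4 : ℤ) (n + 2)).natDegree = n + 2 := by
  induction n with
  | zero =>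
    have h2 : dickson 1 (4 : ℤ) (0 + 2) = X ^ 2 - C 8 := by
      rw [dickson_two]
      have : (3 - ((1 : ℕ) : ℤ[X])) = C 2 := by
        simp only [Nat.cast_one, map_ofNat]; norm_num
      rw [this, ← C_mul]
      norm_num
    rw [h2]
    refine ⟨by simpa using monic_X, by simp, ?_, ?_⟩
    · exact monic_X_pow_sub_C 8 (by norm_num)
    · exact natDegree_X_pow_sub_C
  | succ n ih =>
    obtain ⟨a, b, c, d⟩ := ih
    refine ⟨c, d, ?_⟩
    have h3 : dickson 1 (4 : ℤ) (n + 1 + 2) =
        X * dickson 1 (4 : ℤ) (n + 2) - C 4 * dickson 1 (4 : ℤ) (n + 1) := dickson_add_two _ _ _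
    have hm : (X * dickson 1 (4 : ℤ) (n + 2)).Monic := monic_X.mul c
    have hd : (X * dickson 1 (4 : ℤ) (n + 2)).natDegree = n + 3 := by
      rw [natDegree_X_mul c.ne_zero, d]
    have hlt : (C 4 * dickson 1 (4 : ℤ) (n + 1)).degree < (X * dickson 1 (4 : ℤ) (n + 2)).degree := by
      rw [degree_eq_natDegree hm.ne_zero, hd]
      refine lt_of_le_of_lt (degree_le_natDegree) ?_
      refine Nat.cast_lt.mpr ?_
      have := natDegree_C_mul_le (4 : ℤ) (dickson 1 (4 : ℤ) (n + 1))
      omega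
    rw [h3]
    constructor
    · exact hm.sub_of_left hlt
    · rw [natDegree_sub_eq_left_of_natDegree_lt]
      · rw [hd]
      · rw [hd]
        have := natDegree_C_mul_le (4 : ℤ) (dickson 1 (4 : ℤ) (n + 1))
        omega

theorem dick_monic {n : ℕ} (hn : 1 ≤ n) : (dickson 1 (4 : ℤ) n).Monic := by
  obtain ⟨m, rfl⟩ := Nat.exists_eq_add_of_le' hn
  exact (dick_monic_deg m).1

theorem dick_natDegree {n : ℕ} (hn : 1 ≤ n) : (dickson 1 (4 : ℤ) n).natDegree = n := by
  obtain ⟨m, rfl⟩ := Nat.exists_eq_add_of_le' hn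
  exact (dick_monic_deg m).2.1

theorem DP_monic {q : ℕ} (t : ℤ) (hq : 1 ≤ q) : (DP q t).Monic := by
  unfold DP
  refine (dick_monic hq).sub_of_left ?_
  rw [degree_eq_natDegree (dick_monic hq).ne_zero, dick_natDegree hq]
  refine lt_of_le_of_lt degree_C_le ?_
  exact_mod_cast hq

theorem DP_natDegree {q : ℕ} (t : ℤ) (hq : 1 ≤ q) : (DP q t).natDegree = q := by
  unfold DP
  rw [natDegree_sub_C, dick_natDegree hq]

/-- scaling -/
theorem dick_scale {R : Type*} [CommRing R] (n : ℕ) :
    (dickson 1 (4 : R) n).comp (C 2 * X) = C (2 ^ n) * dickson 1 (1 : R) n ∧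
    (dickson 1 (4 : R) (n + 1)).comp (C 2 * X) = C (2 ^ (n + 1)) * dickson 1 (1 : R) (n + 1) := by
  induction n with
  | zero =>
    simp
  | succ n ih =>
    refine ⟨ih.2, ?_⟩
    have h1 : dickson 1 (4 : R) (n + 1 + 1) =
        X * dickson 1 (4 : R) (n + 1) - C 4 * dickson 1 (4 : R) n := dickson_add_two _ _ _
    have h2 : dickson 1 (1 : R) (n + 1 + 1) =
        X * dickson 1 (1 : R) (n + 1) - C 1 * dickson 1 (1 : R) n := dickson_add_two _ _ _
    rw [h1, h2, sub_comp, mul_comp, mul_comp, X_comp, C_comp, ih.1, ih.2]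
    have h3 : (C (4 : R)) = C 2 * C 2 := by rw [← C_mul]; norm_num
    rw [h3]
    simp only [pow_succ, C_mul, map_one, one_mul]
    ring

theorem dick_zmod {q : ℕ} (hq : q.Prime) (hq5 : 5 ≤ q) :
    (dickson 1 (4 : ℤ) q).map (Int.castRingHom (ZMod q)) = X ^ q := by
  haveI : Fact q.Prime := ⟨hq⟩
  have h0 : (dickson 1 (4 : ℤ) q).map (Int.castRingHom (ZMod q)) = dickson 1 (4 : ZMod q) q := by
    rw [map_dickson]; simp
  rw [h0]
  have h1 := (dick_scale (R := ZMod q) q).1
  rw [dickson_one_one_zmod_p] at h1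
  have h2 : (2 : ZMod q) ≠ 0 := by
    intro h
    have h3 : ((2 : ℕ) : ZMod q) = 0 := by exact_mod_cast h
    rw [ZMod.natCast_eq_zero_iff] at h3
    have := Nat.le_of_dvd (by norm_num) h3
    omega
  have h4 := congrArg (fun p : (ZMod q)[X] => p.comp (C (2⁻¹) * X)) h1
  simp only [comp_assoc] at h4
  have h5 : (C (2 : ZMod q) * X).comp (C 2⁻¹ * X) = X := by
    rw [mul_comp, C_comp, X_comp, ← mul_assoc, ← C_mul, mul_inv_cancel₀ h2, C_1, one_mul]
  rw [h5, comp_X, mul_comp, C_comp, X_pow_comp, mul_pow, ← mul_assoc, ← C_pow, ← C_mul,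
    ← mul_pow, mul_inv_cancel₀ h2, one_pow, C_1, one_mul] at h4
  exact h4

/-- values at `4 cos θ` -/
theorem dick_cos (θ : ℝ) (n : ℕ) :
    (dickson 1 (4 : ℝ) n).eval (4 * Real.cos θ) = 2 ^ (n + 1) * Real.cos (n * θ) ∧
    (dickson 1 (4 : ℝ) (n + 1)).eval (4 * Real.cos θ) = 2 ^ (n + 2) * Real.cos ((n + 1 : ℕ) * θ) := by
  induction n with
  | zero =>
    simp
    norm_num
  | succ n ih =>
    refine ⟨ih.2, ?_⟩
    have h1 : dickson 1 (4 : ℝ) (n + 1 + 1) =
        X * dickson 1 (4 : ℝ) (n + 1) - C 4 * dickson 1 (4 : ℝ) n := dickson_add_two _ _ _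
    rw [h1, eval_sub, eval_mul, eval_mul, eval_X, eval_C, ih.1, ih.2]
    have h2 : Real.cos ((n + 1 + 1 : ℕ) * θ) =
        2 * Real.cos θ * Real.cos ((n + 1 : ℕ) * θ) - Real.cos (n * θ) := by
      have e1 : ((n + 1 + 1 : ℕ) : ℝ) * θ = ((n + 1 : ℕ) : ℝ) * θ + θ := by push_cast; ring
      have e2 : (n : ℝ) * θ = ((n + 1 : ℕ) : ℝ) * θ - θ := by push_cast; ring
      rw [e1, e2, Real.cos_add, Real.cos_sub]
      ring
    rw [h2]
    ring

theorem dick_aeval_real (n : ℕ) (x : ℝ) :
    aeval (x : ℂ) (dickson 1 (4 : ℤ) n) = ((dickson 1 (4 : ℝ) n).eval x : ℝ) := by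
  have h1 : dickson 1 (4 : ℝ) n = (dickson 1 (4 : ℤ) n).map (Int.castRingHom ℝ) := by
    rw [map_dickson]; simp
  rw [h1]
  rw [eval_map, aeval_def, eval₂_eq_sum, eval₂_eq_sum]
  simp [Polynomial.sum]

end basic

section geom

/-- geometric sum -/
theorem sum_sin {q : ℕ} (hq : 0 < q) (φ : ℝ) (a : ℤ) (ha : a = q ∨ ¬ (q : ℤ) ∣ a) :
    ∑ j ∈ Finset.range q, Real.sin (φ - a * ((φ + 2 * Real.pi * j) / q)) = 0 := by
  have hq' : (q : ℝ) ≠ 0 := by positivity
  rcases ha with ha | ha
  · refine Finset.sum_eq_zero (fun j _ => ?_)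
    have : φ - a * ((φ + 2 * Real.pi * j) / q) = -(((2 * j : ℕ) : ℝ) * Real.pi) := by
      rw [ha]; push_cast; field_simp; ring
    rw [this, Real.sin_neg, Real.sin_nat_mul_pi, neg_zero]
  · set ζ : ℂ := Complex.exp (-(2 * Real.pi * a / q) * Complex.I) with hζ
    set c : ℂ := Complex.exp ((φ - a * φ / q) * Complex.I) with hc
    have h1 : ∀ j : ℕ, Real.sin (φ - a * ((φ + 2 * Real.pi * j) / q)) = (c * ζ ^ j).im := by
      intro j
      rw [hζ, hc, ← Complex.exp_nat_mul, ← Complex.exp_add]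
      have : ((φ : ℂ) - a * φ / q) * Complex.I + j * (-(2 * Real.pi * a / q) * Complex.I)
          = ((φ - a * ((φ + 2 * Real.pi * j) / q) : ℝ) : ℂ) * Complex.I := by
        push_cast; ring
      rw [this, Complex.exp_ofReal_mul_I_im]
    have h2 : ζ ^ q = 1 := by
      rw [hζ, ← Complex.exp_nat_mul]
      have hqc : (q : ℂ) ≠ 0 := by exact_mod_cast hq.ne'
      have : (q : ℂ) * (-(2 * Real.pi * a / q) * Complex.I) = ((-a : ℤ) : ℂ) * (2 * Real.pi * Complex.I) := by
        push_cast; field_simp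
      rw [this, Complex.exp_int_mul_two_pi_mul_I]
    have h3 : ζ ≠ 1 := by
      intro h
      rw [hζ, Complex.exp_eq_one_iff] at h
      obtain ⟨n, hn⟩ := h
      apply ha
      have hqc : (q : ℂ) ≠ 0 := by exact_mod_cast hq.ne'
      have hpi : (Real.pi : ℂ) ≠ 0 := by exact_mod_cast Real.pi_ne_zero
      have hI := Complex.I_ne_zero
      have h4 : (a : ℂ) = (-(n : ℂ)) * q := by
        field_simp at hn
        have h5 : -(a : ℂ) = n * q := by
          linear_combination hn
        linear_combination -h5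
      have h6 : a = -n * q := by exact_mod_cast h4
      exact ⟨-n, by rw [h6]; ring⟩
    have h4 : ∑ j ∈ Finset.range q, ζ ^ j = 0 := by
      rw [geom_sum_eq h3, h2, sub_self, zero_div]
    calc ∑ j ∈ Finset.range q, Real.sin (φ - a * ((φ + 2 * Real.pi * j) / q))
        = ∑ j ∈ Finset.range q, (c * ζ ^ j).im := Finset.sum_congr rfl (fun j _ => h1 j)
      _ = (∑ j ∈ Finset.range q, c * ζ ^ j).im := by rw [Complex.im_sum]
      _ = 0 := by rw [← Finset.mul_sum, h4, mul_zero]; rfl

end geom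

section main

variable {q : ℕ} {t : ℤ}

theorem irr (h : GoodPar q t) : Irreducible ((DP q t).map (Int.castRingHom ℚ)) := by
  obtain ⟨hq, hq5, hodd, hle, hqt, hqt2, -⟩ := h
  have : Fact q.Prime := ⟨hq⟩
  have hm := DP_monic (q := q) t (by omega)
  have hd := DP_natDegree (q := q) t (by omega)
  have hqint : Prime (q : ℤ) := Nat.prime_iff_prime_int.mp hq
  have hzero : (DP q t).map (Int.castRingHom (ZMod q)) = X ^ q := by
    unfold DP
    rw [Polynomial.map_sub, dick_zmod hq hq5, map_C]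
    have : (Int.castRingHom (ZMod q)) t = 0 := by
      rw [eq_intCast, ZMod.intCast_zmod_eq_zero_iff_dvd]
      exact hqt
    rw [this, C_0, sub_zero]
  have hE : (DP q t).IsEisensteinAt (Ideal.span {(q : ℤ)}) := by
    refine ⟨?_, ?_, ?_⟩
    · rw [hm.leadingCoeff, Ideal.mem_span_singleton]
      intro hdvd
      exact hqint.not_unit (isUnit_of_dvd_one hdvd)
    · intro n hn
      rw [hd] at hn
      rw [Ideal.mem_span_singleton, ← ZMod.intCast_zmod_eq_zero_iff_dvd]
      have h1 := congrArg (fun p : (ZMod q)[X] => p.coeff n) hzero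
      simp only [coeff_map, coeff_X_pow] at h1
      rw [if_neg (by omega)] at h1
      simpa using h1
    · rw [Ideal.span_singleton_pow, Ideal.mem_span_singleton]
      have h0 : ∀ n : ℕ, (dickson 1 (4 : ℤ) (2 * n + 1)).coeff 0 = 0 := by
        intro n
        induction n with
        | zero => simp
        | succ n ih =>
          have h1 : dickson 1 (4 : ℤ) (2 * (n + 1) + 1) =
            X * dickson 1 (4 : ℤ) (2 * n + 2) - C 4 * dickson 1 (4 : ℤ) (2 * n + 1) :=
            dickson_add_two _ _ _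
          rw [h1, coeff_sub, coeff_X_mul_zero, coeff_C_mul, ih]
          simp
      obtain ⟨n, hn⟩ : Odd q := hq.odd_of_ne_two (by omega)
      unfold DP
      rw [coeff_sub, hn, h0, coeff_C_zero, zero_sub, dvd_neg, ← hn]
      exact hqt2
  have h1 : Irreducible (DP q t) := by
    refine hE.irreducible ?_ hm.isPrimitive (by rw [hd]; omega)
    rw [Ideal.span_singleton_prime hqint.ne_zero]
    exact hqint
  exact (hm.irreducible_iff_irreducible_map_fraction_map (K := ℚ)).mp h1

/-- the angle -/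
noncomputable def ang (q : ℕ) (t : ℤ) : ℝ := Real.arccos ((t : ℝ) / 2 ^ (q + 1))

/-- the angles of the roots -/
noncomputable def th (q : ℕ) (t : ℤ) (j : ℕ) : ℝ := (ang q t + 2 * Real.pi * j) / q

theorem cos_ang (h : GoodPar q t) : Real.cos (ang q t) = (t : ℝ) / 2 ^ (q + 1) ∧
    |Real.cos (ang q t)| ≤ 1 / 2 ∧ 1 / 2 ≤ Real.sin (ang q t) := by
  obtain ⟨hq, hq5, hodd, hle, hqt, hqt2, -⟩ := h
  have h1 : |(t : ℝ)| ≤ 2 ^ q := by
    have : ((|t| : ℤ) : ℝ) ≤ ((2 ^ q : ℤ) : ℝ) := by exact_mod_cast hle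
    simpa using this
  have h2 : |(t : ℝ) / 2 ^ (q + 1)| ≤ 1 / 2 := by
    rw [abs_div, abs_of_pos (by positivity : (0 : ℝ) < 2 ^ (q + 1)), div_le_iff₀ (by positivity),
      pow_succ]
    linarith
  have h3 := abs_le.mp h2
  have h4 : Real.cos (ang q t) = (t : ℝ) / 2 ^ (q + 1) := by
    unfold ang
    rw [Real.cos_arccos (by linarith) (by linarith)]
  refine ⟨h4, by rw [h4]; exact h2, ?_⟩
  have h5 : 0 ≤ Real.sin (ang q t) := by
    apply Real.sin_nonneg_of_nonneg_of_le_pi
    · exact Real.arccos_nonneg _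
    · exact Real.arccos_le_pi _
  have h6 := Real.sin_sq_add_cos_sq (ang q t)
  rw [← h4] at h2
  have h7 : Real.cos (ang q t) ^ 2 ≤ 1 / 4 := by
    have := abs_le.mp h2
    nlinarith
  nlinarith

theorem root_th (h : GoodPar q t) (j : ℕ) :
    aeval (((4 * Real.cos (th q t j) : ℝ)) : ℂ) (DP q t) = 0 := by
  have hq0 : (q : ℝ) ≠ 0 := by
    have := h.1.pos
    exact_mod_cast this.ne'
  unfold DP
  rw [map_sub, dick_aeval_real, aeval_C, (dick_cos (th q t j) q).1]
  have h1 : (q : ℝ) * th q t j = ang q t + (j : ℕ) * (2 * Real.pi) := by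
    unfold th; field_simp
  rw [h1, Real.cos_add_nat_mul_two_pi, (cos_ang h).1]
  simp
  field_simp
  ring

theorem th_ne (h : GoodPar q t) (i j : ℕ) : ∀ k : ℤ, th q t i ≠ 2 * k * Real.pi - th q t j := by
  intro k hk
  have hq0 : (q : ℝ) ≠ 0 := by
    have := h.1.pos; positivity
  obtain ⟨h1, h2, h3⟩ := cos_ang h
  have h4 : ang q t = (k * q - i - j : ℤ) * Real.pi := by
    unfold th at hk
    field_simp at hk
    push_cast
    linear_combination hk / 2
  have h5 : Real.sin (ang q t) = 0 := by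
    rw [h4, Real.sin_int_mul_pi]
  rw [h5] at h3
  norm_num at h3

theorem roots_inj (h : GoodPar q t) : Set.InjOn (fun j : ℕ => (((4 * Real.cos (th q t j) : ℝ)) : ℂ))
    (Finset.range q : Set ℕ) := by
  intro i hi j hj hij
  have hq0 : (q : ℝ) ≠ 0 := by
    have := h.1.pos; positivity
  simp only [Complex.ofReal_inj] at hij
  have h1 : Real.cos (th q t i) = Real.cos (th q t j) := by linarith
  rw [Real.cos_eq_cos_iff] at h1
  obtain ⟨k, hk | hk⟩ := h1
  · have h2 : ((j : ℤ) - i : ℤ) = k * q := by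
      have h3 : ((j : ℝ) - i) = k * q := by
        have hpi := Real.pi_ne_zero
        unfold th at hk
        field_simp at hk
        have h4 : 2 * Real.pi * ((j : ℝ) - i - k * q) = 0 := by linear_combination hk
        have h5 : (j : ℝ) - i - k * q = 0 := by
          rcases mul_eq_zero.mp h4 with h | h
          · exact absurd h (by positivity)
          · exact h
        linarith
      exact_mod_cast h3
    rw [Finset.coe_range, Set.mem_Iio] at hi hj
    have h3 : (q : ℤ) ∣ (j : ℤ) - i := ⟨k, by rw [h2]; ring⟩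
    have h4 : |(j : ℤ) - i| < q := by
      rw [abs_lt]; constructor <;> omega
    have h5 := Int.eq_zero_of_abs_lt_dvd h3 h4
    omega
  · exact absurd hk (th_ne h j i k)

theorem root_iff (h : GoodPar q t) (v : ℂ) (hv : aeval v (DP q t) = 0) :
    ∃ j < q, v = ((4 * Real.cos (th q t j) : ℝ) : ℂ) := by
  classical
  by_contra hcon
  push Not at hcon
  set s : Finset ℂ := (Finset.range q).image (fun j : ℕ => (((4 * Real.cos (th q t j) : ℝ)) : ℂ))
    with hs
  have hcard : s.card = q := by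
    rw [hs, Finset.card_image_of_injOn (roots_inj h), Finset.card_range]
  have hvs : v ∉ s := by
    rw [hs, Finset.mem_image]
    rintro ⟨j, hj, hj'⟩
    exact hcon j (Finset.mem_range.mp hj) hj'.symm
  have hq1 : 1 ≤ q := h.1.pos
  have hm := DP_monic (q := q) t hq1
  have hd := DP_natDegree (q := q) t hq1
  have hz : (DP q t).map (algebraMap ℤ ℂ) = 0 := by
    apply eq_zero_of_natDegree_lt_card_of_eval_eq_zero' _ (insert v s)
    · intro x hx
      rw [eval_map_algebraMap]
      rcases Finset.mem_insert.mp hx with rfl | hx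
      · exact hv
      · rw [hs, Finset.mem_image] at hx
        obtain ⟨j, -, rfl⟩ := hx
        exact root_th h j
    · rw [Finset.card_insert_of_notMem hvs, hcard]
      have := natDegree_map_le (p := DP q t) (f := algebraMap ℤ ℂ)
      omega
  exact (hm.map (algebraMap ℤ ℂ)).ne_zero hz

/-- the functional -/
noncomputable def L (q : ℕ) (t : ℤ) (i : ℕ) (g : ℂ[X]) : ℂ :=
  ∑ j ∈ Finset.range q, g.eval ((4 * Real.cos (th q t j) : ℝ) : ℂ) *
    ((Real.sin (ang q t - i * th q t j) : ℝ) : ℂ)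

theorem L_sub (i : ℕ) (g g' : ℂ[X]) : L q t i (g - g') = L q t i g - L q t i g' := by
  unfold L
  rw [← Finset.sum_sub_distrib]
  refine Finset.sum_congr rfl (fun j _ => ?_)
  rw [eval_sub]; ring

theorem L_C_mul (i : ℕ) (c : ℂ) (g : ℂ[X]) : L q t i (C c * g) = c * L q t i g := by
  unfold L
  rw [Finset.mul_sum]
  refine Finset.sum_congr rfl (fun j _ => ?_)
  rw [eval_mul, eval_C]; ring

theorem dickC (n : ℕ) (x : ℝ) : (dickson 1 (4 : ℂ) n).eval (x : ℂ) =
    ((dickson 1 (4 : ℝ) n).eval x : ℝ) := by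
  have h1 : dickson 1 (4 : ℂ) n = (dickson 1 (4 : ℝ) n).map (algebraMap ℝ ℂ) := by
    rw [map_dickson]; simp
  rw [h1, eval_map]
  exact eval₂_at_apply (algebraMap ℝ ℂ) x

theorem L_dick (h : GoodPar q t) {l i : ℕ} (hi : 1 ≤ i) (hli : l ≤ i) (hiq : i < q) :
    L q t i (dickson 1 (4 : ℂ) l) =
      if l = i then (((q : ℝ) * 2 ^ i * Real.sin (ang q t) : ℝ) : ℂ) else (0 : ℂ) := by
  have hq0 := h.1.pos
  have h1 : L q t i (dickson 1 (4 : ℂ) l) =
      ((∑ j ∈ Finset.range q, 2 ^ l * (Real.sin (ang q t - ((i - l : ℤ) : ℝ) * th q t j)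
        + Real.sin (ang q t - ((i + l : ℤ) : ℝ) * th q t j)) : ℝ) : ℂ) := by
    unfold L
    rw [Complex.ofReal_sum]
    refine Finset.sum_congr rfl (fun j _ => ?_)
    rw [dickC, (dick_cos (th q t j) l).1, ← Complex.ofReal_mul]
    congr 1
    have e1 : ang q t - ((i - l : ℤ) : ℝ) * th q t j = (ang q t - i * th q t j) + l * th q t j := by
      push_cast; ring
    have e2 : ang q t - ((i + l : ℤ) : ℝ) * th q t j = (ang q t - i * th q t j) - l * th q t j := by
      push_cast; ring
    rw [e1, e2, Real.sin_add (ang q t - i * th q t j), Real.sin_sub (ang q t - i * th q t j)]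
    ring
  have hprime := h.1
  have hnd : ∀ a : ℕ, 1 ≤ a → a < 2 * q → ((a : ℤ) = q ∨ ¬ (q : ℤ) ∣ a) := by
    intro a ha haq
    by_cases hd : q ∣ a
    · left
      obtain ⟨k, hk⟩ := hd
      have hk1 : k = 1 := by
        rcases Nat.lt_or_ge k 1 with h | h
        · interval_cases k; omega
        · have : k < 2 := by
            by_contra hcon
            push Not at hcon
            have := Nat.mul_le_mul_left q hcon
            omega
          omega
      rw [hk, hk1, mul_one]
    · right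
      intro hcon
      exact hd (by exact_mod_cast hcon)
  rw [h1, ← Finset.mul_sum, Finset.sum_add_distrib]
  have hplus : ∑ j ∈ Finset.range q, Real.sin (ang q t - ((i + l : ℤ) : ℝ) * th q t j) = 0 := by
    have := sum_sin hq0 (ang q t) ((i : ℤ) + l) (by
      have := hnd (i + l) (by omega) (by omega)
      push_cast at this
      exact this)
    exact_mod_cast this
  split_ifs with hl
  · subst hl
    rw [hplus]
    simp only [sub_self, Int.cast_zero, zero_mul, sub_zero, Finset.sum_const, Finset.card_range,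
      nsmul_eq_mul, add_zero]
    congr 1
    ring
  · have hminus : ∑ j ∈ Finset.range q, Real.sin (ang q t - ((i - l : ℤ) : ℝ) * th q t j) = 0 := by
      have := sum_sin hq0 (ang q t) ((i : ℤ) - l) (by
        have := hnd (i - l) (by omega) (by omega)
        rw [Nat.cast_sub hli] at this
        exact this)
      exact_mod_cast this
    rw [hplus, hminus]
    simp

theorem dickC_monic {n : ℕ} (hn : 1 ≤ n) : (dickson 1 (4 : ℂ) n).Monic ∧
    (dickson 1 (4 : ℂ) n).natDegree = n := by
  have h1 : dickson 1 (4 : ℂ) n = (dickson 1 (4 : ℤ) n).map (algebraMap ℤ ℂ) := by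
    rw [map_dickson]; simp
  rw [h1]
  exact ⟨(dick_monic hn).map _, by rw [(dick_monic hn).natDegree_map, dick_natDegree hn]⟩

theorem sub_deg {k : ℕ} {g : ℂ[X]} (hg : g.natDegree ≤ k + 1) :
    (g - C (g.coeff (k + 1)) * dickson 1 (4 : ℂ) (k + 1)).natDegree ≤ k := by
  obtain ⟨hm, hd⟩ := dickC_monic (n := k + 1) (by omega)
  rw [natDegree_le_iff_coeff_eq_zero]
  intro N hN
  rw [coeff_sub, coeff_C_mul]
  rcases Nat.lt_or_ge (k + 1) N with h | h
  · rw [coeff_eq_zero_of_natDegree_lt (lt_of_le_of_lt hg h),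
      coeff_eq_zero_of_natDegree_lt (p := dickson 1 (4 : ℂ) (k + 1)) (by rw [hd]; exact h)]
    simp
  · have hN' : N = k + 1 := by omega
    subst hN'
    have := hm.coeff_natDegree
    rw [hd] at this
    rw [this]; ring

theorem L_low (h : GoodPar q t) {i : ℕ} (hi : 1 ≤ i) (hiq : i < q) :
    ∀ k : ℕ, k < i → ∀ g : ℂ[X], g.natDegree ≤ k → L q t i g = 0 := by
  intro k
  induction k with
  | zero =>
    intro _ g hg
    rw [eq_C_of_natDegree_le_zero hg]
    have h1 := L_dick h hi (Nat.zero_le i) hiq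
    rw [if_neg (by omega)] at h1
    have h2 : C (g.coeff 0) = C (g.coeff 0 / 2) * dickson 1 (4 : ℂ) 0 := by
      rw [dickson_zero]
      have : (3 - ((1 : ℕ) : ℂ[X])) = C 2 := by
        have e : (3 : ℂ[X]) = C 3 := (map_ofNat C 3).symm
        rw [e, Nat.cast_one, ← C_1, ← C_sub]; norm_num
      rw [this, ← C_mul]
      congr 1
      ring
    rw [h2, L_C_mul, h1, mul_zero]
  | succ k ih =>
    intro hk g hg
    have h1 := ih (by omega) _ (sub_deg hg)
    rw [L_sub, L_C_mul, L_dick h hi (by omega) hiq, if_neg (by omega), mul_zero, sub_zero] at h1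
    exact h1

theorem L_top (h : GoodPar q t) {i : ℕ} (hi : 1 ≤ i) (hiq : i < q) (g : ℂ[X])
    (hg : g.natDegree ≤ i) :
    L q t i g = g.coeff i * ((q : ℝ) * 2 ^ i * Real.sin (ang q t) : ℝ) := by
  obtain ⟨k, rfl⟩ := Nat.exists_eq_add_of_le' hi
  have h1 := L_low h hi hiq k (by omega) _ (sub_deg hg)
  rw [L_sub, L_C_mul, L_dick h hi le_rfl hiq, if_pos rfl, sub_eq_zero] at h1
  exact h1

end main

theorem stmA3 : StmA3 := by
  intro q t h
  have hq1 : 1 ≤ q := h.1.pos
  refine ⟨DP_monic t hq1, DP_natDegree t hq1, irr h, ?_, ?_⟩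
  · intro v hv
    obtain ⟨j, -, rfl⟩ := root_iff h v hv
    refine ⟨Complex.ofReal_im _, ?_⟩
    rw [Complex.ofReal_re, abs_mul, abs_of_pos (by norm_num : (0 : ℝ) < 4)]
    have h1 : |Real.cos (th q t j)| ≤ 1 := Real.abs_cos_le_one _
    have h2 : |Real.cos (th q t j)| ≠ 1 := by
      intro h3
      have h4 : Real.sin (th q t j) = 0 := by
        have := Real.sin_sq_add_cos_sq (th q t j)
        rw [← sq_abs (Real.cos _), h3] at this
        nlinarith
      rw [Real.sin_eq_zero_iff] at h4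
      obtain ⟨n, hn⟩ := h4
      exact th_ne h j j n (by rw [← hn]; ring)
    have h3 := lt_of_le_of_ne h1 h2
    linarith
  · intro g B hg hB
    have hq0 : (0 : ℝ) < q := by exact_mod_cast hq1
    have hB0 : ∀ j : ℕ, ‖g.eval (((4 * Real.cos (th q t j) : ℝ)) : ℂ)‖ ≤ B := fun j =>
      hB _ (root_th h j)
    have hBn : 0 ≤ B := le_trans (norm_nonneg _) (hB0 0)
    rcases Nat.eq_zero_or_pos g.natDegree with h0 | hpos
    · rw [h0, pow_zero, mul_one]
      have h1 := hB0 0
      rw [eq_C_of_natDegree_eq_zero h0, eval_C] at h1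
      rw [leadingCoeff, h0]
      linarith
    · have h1 := L_top h hpos hg g le_rfl
      have h2 : ‖L q t g.natDegree g‖ ≤ q * B := by
        unfold L
        refine le_trans (norm_sum_le _ _) ?_
        have : ∀ j ∈ Finset.range q, ‖g.eval ((4 * Real.cos (th q t j) : ℝ) : ℂ) *
            ((Real.sin (ang q t - g.natDegree * th q t j) : ℝ) : ℂ)‖ ≤ B := by
          intro j _
          rw [norm_mul, Complex.norm_real, Real.norm_eq_abs]
          have a1 := hB0 j
          have a2 := Real.abs_sin_le_one (ang q t - g.natDegree * th q t j)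
          have a3 := abs_nonneg (Real.sin (ang q t - g.natDegree * th q t j))
          nlinarith [norm_nonneg (g.eval ((4 * Real.cos (th q t j) : ℝ) : ℂ))]
        refine le_trans (Finset.sum_le_sum this) ?_
        simp
      rw [h1, norm_mul, Complex.norm_real, Real.norm_eq_abs] at h2
      obtain ⟨-, -, hs⟩ := cos_ang h
      have h3 : |(q : ℝ) * 2 ^ g.natDegree * Real.sin (ang q t)|
          = q * 2 ^ g.natDegree * Real.sin (ang q t) := by
        apply abs_of_nonneg
        positivity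
      rw [h3] at h2
      have h4 : ‖g.coeff g.natDegree‖ * 2 ^ g.natDegree * Real.sin (ang q t) ≤ B := by
        have h5 : q * (‖g.coeff g.natDegree‖ * 2 ^ g.natDegree * Real.sin (ang q t)) ≤ q * B := by
          linarith
        exact le_of_mul_le_mul_left h5 hq0
      have h6 : 0 ≤ ‖g.coeff g.natDegree‖ * 2 ^ g.natDegree := by positivity
      rw [leadingCoeff]
      nlinarith

end Pool.Agent.TH409.J206
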