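import Pool.Agent.TH409.J82C

set_option autoImplicit false

namespace Pool.Agent.TH409.J82

open scoped Pointwise commutatorElement
open Pool.Agent.TH82.BS

universe u

section step3

variable {T : Type u} [Group T] [IsSimpleGroup T]
variable {G : Type u} [Group G] [Finite G]
variable {V : Type u} [AddCommGroup V] [Finite V] [DistribMulAction G V]

theorem R0_ne_top (hT : ¬ ∀ a b : T, a * b = b * a) {φ : G →* T}
    (hZcyc : IsCyclic (Subgroup.center G))
    (hZfree : ∀ z ∈ Subgroup.center G, ∀ v : V, v ≠ 0 → z • v = v → z = 1)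
    (M : Subgroup G) [hMn : M.Normal] (hZM : Subgroup.center G ≤ M)
    (hMab : ∀ a ∈ M, ∀ b ∈ M, a * b * a⁻¹ * b⁻¹ ∈ Subgroup.center G)
    (hMne : ¬ ∀ a ∈ M, ∀ b ∈ M, a * b = b * a)
    (hC : ∀ g : G, (∀ m ∈ M, g * m * g⁻¹ * m⁻¹ ∈ Subgroup.center G) → φ g = 1)
    {r : ℕ} (hr : r.Prime) (hMr : ∀ m ∈ M, m ^ r ∈ Subgroup.center G)
    {v₁ : V} (hv₁ : v₁ ≠ 0)
    (hmax : ∀ u : V, u ≠ 0 → Nat.card (M ⊓ MulAction.stabilizer G u : Subgroup G) ≤
      Nat.card (M ⊓ MulAction.stabilizer G v₁ : Subgroup G))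
    (R₀ : Subgroup G) (hR₀ : ∀ g, g ∈ R₀ ↔ g • v₁ = v₁ ∧ ∀ d ∈ M, d • v₁ = v₁ → g * d = d * g) :
    R₀.map φ ≠ ⊤ := by
  intro hφ
  obtain ⟨CM, hCM⟩ : ∃ CM : Subgroup G, ∀ m, m ∈ CM ↔ m ∈ M ∧
      ∀ d ∈ M, d • v₁ = v₁ → d * m = m * d := by
    refine ⟨M ⊓ Subgroup.centralizer {d | d ∈ M ∧ d • v₁ = v₁}, fun m => ?_⟩
    rw [Subgroup.mem_inf, Subgroup.mem_centralizer_iff]
    constructor
    · rintro ⟨h1, h2⟩
      exact ⟨h1, fun d hd hd' => h2 d ⟨hd, hd'⟩⟩
    · rintro ⟨h1, h2⟩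
      exact ⟨h1, fun d hd => h2 d hd.1 hd.2⟩
  obtain ⟨R₁, hR₁, hR₁φ, hR₁c⟩ := claim_R1 hT hZcyc hZfree M hZM hMab hMne hr hMr hv₁ hmax R₀ hR₀
    hφ CM hCM
  have hDab : ∀ d ∈ M, d • v₁ = v₁ → ∀ e ∈ M, e • v₁ = v₁ → d * e = e * d := by
    intro d hd hd1 e he he1
    have h1 : (d * e * d⁻¹ * e⁻¹) • v₁ = v₁ := by
      rw [mul_smul, mul_smul, mul_smul, inv_smul_eq_iff.mpr he1.symm,
        inv_smul_eq_iff.mpr hd1.symm, he1, hd1]
    have h2 := hZfree _ (hMab d hd e he) v₁ hv₁ h1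
    calc d * e = (d * e * d⁻¹ * e⁻¹) * (e * d) := by group
      _ = e * d := by rw [h2, one_mul]
  have hDZ : ∀ m ∈ DZ M v₁, ∃ d ∈ M, d • v₁ = v₁ ∧ ∃ z ∈ Subgroup.center G, m = z * d := by
    rintro m ⟨hm, z, hz, hmz⟩
    refine ⟨z⁻¹ * m, M.mul_mem (M.inv_mem (hZM hz)) hm, ?_, z, hz, by group⟩
    rw [mul_smul, hmz, inv_smul_smul]
  have hDZR : ∀ g ∈ R₀, ∀ m ∈ DZ M v₁, g * m = m * g := by
    intro g hg m hm
    obtain ⟨d, hd, hd1, z, hz, rfl⟩ := hDZ m hm
    have h1 := ((hR₀ g).mp hg).2 d hd hd1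
    rw [← mul_assoc, ← cen hz g, mul_assoc, h1, ← mul_assoc]
  have hDZle : DZ M v₁ ≤ CM := by
    intro m hm
    rw [hCM]
    refine ⟨hm.1, fun e he he1 => ?_⟩
    obtain ⟨d, hd, hd1, z, hz, rfl⟩ := hDZ m hm
    rw [← mul_assoc, ← cen hz e, mul_assoc, hDab e he he1 d hd hd1, ← mul_assoc]
  have hF2 : ∀ g ∈ R₀, ∀ m ∈ M, g * m * g⁻¹ * m⁻¹ ∈ CM := by
    intro g hg m hm
    rw [hCM]
    refine ⟨M.mul_mem (hMn.conj_mem m hm g) (M.inv_mem hm), fun d hd hd1 => ?_⟩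
    have h1 := ((hR₀ g).mp hg).2 d hd hd1
    have h2 : g⁻¹ * d * g = d := by
      rw [mul_assoc, ← h1]; group
    have hk := hMab m hm d hd
    set k := m * d * m⁻¹ * d⁻¹ with hkdef
    have e1 : m * d * m⁻¹ = k * d := by rw [hkdef]; group
    have e2 : m⁻¹ * d * m = k⁻¹ * d := by
      have h3 := cen (Subgroup.inv_mem _ hk) m⁻¹
      calc m⁻¹ * d * m = m⁻¹ * (k⁻¹ * (k * d)) * m := by group
        _ = m⁻¹ * k⁻¹ * (m * d * m⁻¹) * m := by rw [← e1]; group
        _ = k⁻¹ * m⁻¹ * (m * d * m⁻¹) * m := by rw [← h3]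
        _ = k⁻¹ * d := by group
    have e3 : (g * m * g⁻¹ * m⁻¹) * d * (g * m * g⁻¹ * m⁻¹)⁻¹ = d := by
      have h4 := cen (Subgroup.inv_mem _ hk) (g * m * g⁻¹)
      have h5 := cen hk g
      calc (g * m * g⁻¹ * m⁻¹) * d * (g * m * g⁻¹ * m⁻¹)⁻¹
          = (g * m * g⁻¹) * (m⁻¹ * d * m) * (g * m * g⁻¹)⁻¹ := by group
        _ = (g * m * g⁻¹) * k⁻¹ * d * (g * m * g⁻¹)⁻¹ := by rw [e2]; group
        _ = k⁻¹ * (g * m * g⁻¹) * d * (g * m * g⁻¹)⁻¹ := by rw [← h4]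
        _ = k⁻¹ * (g * (m * (g⁻¹ * d * g) * m⁻¹) * g⁻¹) := by group
        _ = k⁻¹ * (g * k * d * g⁻¹) := by rw [h2, e1]; group
        _ = k⁻¹ * (k * (g * d) * g⁻¹) := by rw [← h5]; group
        _ = d := by rw [h1]; group
    calc d * (g * m * g⁻¹ * m⁻¹)
        = ((g * m * g⁻¹ * m⁻¹) * d * (g * m * g⁻¹ * m⁻¹)⁻¹) * (g * m * g⁻¹ * m⁻¹) := by rw [e3]
      _ = g * m * g⁻¹ * m⁻¹ * d := by group
  -- the double commutator argument
  set π := QuotientGroup.mk' (Subgroup.center G) with hπ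
  have hπ1 : ∀ g : G, π g = 1 ↔ g ∈ Subgroup.center G := fun g => QuotientGroup.eq_one_iff g
  have hdc := double_comm (M.map π) (CM.map π) ((DZ M v₁).map π) (R₁.map π)
    (by
      rintro _ ⟨a, ha, rfl⟩ _ ⟨b, hb, rfl⟩
      have h1 := (hπ1 _).mpr (hMab a ha b hb)
      have h2 : π a * π b = π (a * b * a⁻¹ * b⁻¹) * (π b * π a) := by
        rw [← map_mul, ← map_mul, ← map_mul]; congr 1; group
      rw [h2, h1, one_mul])
    (Subgroup.map_mono (fun m hm => ((hCM m).mp hm).1))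
    (Subgroup.map_mono hDZle)
    (by
      rintro _ ⟨g, hg, rfl⟩ _ ⟨a, ha, rfl⟩
      exact ⟨g * a * g⁻¹ * a⁻¹, hF2 g (hR₁ hg) a ha, by simp⟩)
    (by
      rintro _ ⟨g, hg, rfl⟩ _ ⟨a, ha, rfl⟩
      exact ⟨g * a * g⁻¹ * a⁻¹, hR₁c g hg a ha, by simp⟩)
    (by
      rintro _ ⟨g, hg, rfl⟩ _ ⟨a, ha, rfl⟩
      rw [← map_mul, ← map_mul, hDZR g (hR₁ hg) a ha])
  have hK1 := map_commutator_eq_top hT hR₁φ hR₁φ
  have hK2 := map_commutator_eq_top hT hK1 hK1
  have hall : ∀ x ∈ ⁅⁅R₁, R₁⁆, ⁅R₁, R₁⁆⁆, φ x = 1 := by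
    intro x hx
    apply hC
    intro m hm
    have h1 : π x ∈ ⁅⁅R₁.map π, R₁.map π⁆, ⁅R₁.map π, R₁.map π⁆⁆ := by
      rw [← Subgroup.map_commutator, ← Subgroup.map_commutator]
      exact ⟨x, hx, rfl⟩
    have h2 := hdc _ h1 _ ⟨m, hm, rfl⟩
    rw [← hπ1, map_mul, map_mul, map_mul, h2, map_inv, map_inv]
    group
  apply hT
  have hone : ∀ t : T, t = 1 := by
    intro t
    have ht : t ∈ (⁅⁅R₁, R₁⁆, ⁅R₁, R₁⁆⁆).map φ := by rw [hK2]; exact Subgroup.mem_top t
    obtain ⟨x, hx, rfl⟩ := ht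
    exact hall x hx
  intro a b
  rw [hone a, hone b]

end step3

section weights

variable {G : Type u} [Group G]
variable {V : Type u} [AddCommGroup V] [DistribMulAction G V]

/-- weight vectors -/
def Wt {D : Subgroup G} (c : D → Subgroup.center G) (v : V) : Prop :=
  ∀ d : D, (d : G) • v = (c d : G) • v

theorem Wt.smul_center {D : Subgroup G} {c : D → Subgroup.center G} {v : V} (h : Wt c v) {z : G}
    (hz : z ∈ Subgroup.center G) : Wt c (z • v) := by
  intro d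
  rw [← mul_smul, ← cen hz, mul_smul, h d, ← mul_smul, ← mul_smul, cen hz]

theorem Wt.neg {D : Subgroup G} {c : D → Subgroup.center G} {v : V} (h : Wt c v) :
    Wt c (-v) := by
  intro d
  rw [smul_neg, h d, smul_neg]

theorem Wt.sub {D : Subgroup G} {c : D → Subgroup.center G} {v w : V} (h : Wt c v)
    (h' : Wt c w) : Wt c (v - w) := by
  intro d
  rw [smul_sub, h d, h' d, smul_sub]

theorem exists_sep {D : Subgroup G}
    (hZfree : ∀ z ∈ Subgroup.center G, ∀ v : V, v ≠ 0 → z • v = v → z = 1)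
    (c c' : D → Subgroup.center G) (hcc : c ≠ c') :
    ∃ F : V →+ V, (∀ (c'' : D → Subgroup.center G) (w : V), Wt c'' w → Wt c'' (F w)) ∧
      (∀ w : V, Wt c' w → F w = 0) ∧ (∀ w : V, Wt c w → F w = 0 → w = 0) := by
  obtain ⟨d, hd⟩ := Function.ne_iff.mp hcc
  refine ⟨DistribSMul.toAddMonoidHom V (d : G) - DistribSMul.toAddMonoidHom V ((c' d : G)),
    ?_, ?_, ?_⟩
  · intro c'' w hw
    simp only [AddMonoidHom.sub_apply, DistribSMul.toAddMonoidHom_apply]
    rw [hw d]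
    exact (hw.smul_center (c'' d).2).sub (hw.smul_center (c' d).2)
  · intro w hw
    simp only [AddMonoidHom.sub_apply, DistribSMul.toAddMonoidHom_apply]
    rw [hw d, sub_self]
  · intro w hw h
    simp only [AddMonoidHom.sub_apply, DistribSMul.toAddMonoidHom_apply] at h
    rw [hw d, sub_eq_zero] at h
    by_contra hne
    have h1 : ((c' d : G)⁻¹ * (c d : G)) • w = w := by
      rw [mul_smul, h, inv_smul_smul]
    have h2 := hZfree _ (Subgroup.mul_mem _ (Subgroup.inv_mem _ (c' d).2) (c d).2) w hne h1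
    apply hd
    apply Subtype.ext
    exact (inv_mul_eq_one.mp h2).symm

theorem wt_indep {D : Subgroup G}
    (hZfree : ∀ z ∈ Subgroup.center G, ∀ v : V, v ≠ 0 → z • v = v → z = 1)
    {c c₁ c₂ c₃ : D → Subgroup.center G} {u u₁ u₂ u₃ : V} (hu : Wt c u) (h₁ : Wt c₁ u₁)
    (h₂ : Wt c₂ u₂) (h₃ : Wt c₃ u₃) (h : u = u₁ + u₂ + u₃) (n₁ : c ≠ c₁) (n₂ : c ≠ c₂)
    (n₃ : c ≠ c₃) : u = 0 := by
  obtain ⟨F₁, a₁, b₁, e₁⟩ := exists_sep hZfree c c₁ n₁
  obtain ⟨F₂, a₂, b₂, e₂⟩ := exists_sep hZfree c c₂ n₂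
  obtain ⟨F₃, a₃, b₃, e₃⟩ := exists_sep hZfree c c₃ n₃
  have k : F₃ (F₂ (F₁ u)) = 0 := by
    rw [h, map_add, map_add, map_add, map_add, map_add, map_add, b₁ _ h₁, map_zero, map_zero,
      b₂ _ (a₁ _ _ h₂), map_zero, b₃ _ (a₂ _ _ (a₁ _ _ h₃))]
    simp
  exact e₁ _ hu (e₂ _ (a₁ _ _ hu) (e₃ _ (a₂ _ _ (a₁ _ _ hu)) k))

theorem wt_eq {D : Subgroup G}
    (hZfree : ∀ z ∈ Subgroup.center G, ∀ v : V, v ≠ 0 → z • v = v → z = 1)
    {c c₁ : D → Subgroup.center G} {u : V} (hu : Wt c u) (h₁ : Wt c₁ u) (hne : u ≠ 0) :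
    c = c₁ := by
  by_contra h
  obtain ⟨F₁, a₁, b₁, e₁⟩ := exists_sep hZfree c c₁ h
  exact hne (e₁ _ hu (b₁ _ h₁))

end weights

end Pool.Agent.TH409.J82

namespace Pool.Agent.TH82.BS

open scoped commutatorElement
open Pool.Agent.TH409.J82

universe u

theorem sympl_lemma {T : Type u} [Group T] [IsSimpleGroup T] (hT : ¬ ∀ a b : T, a * b = b * a)
    {G : Type u} [Group G] [Finite G] (φ : G →* T)
    {V : Type u} [AddCommGroup V] [Finite V] [DistribMulAction G V] [Nontrivial V]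
    (hfaith : ∀ g : G, (∀ v : V, g • v = v) → g = 1)
    (hZcyc : IsCyclic (Subgroup.center G))
    (hZfree : ∀ z ∈ Subgroup.center G, ∀ v : V, v ≠ 0 → z • v = v → z = 1)
    (M : Subgroup G) [M.Normal] (hZM : Subgroup.center G ≤ M)
    (hMmin : ∀ K : Subgroup G, K.Normal → Subgroup.center G ≤ K → K ≤ M →
      K = Subgroup.center G ∨ K = M)
    (hMab : ∀ a ∈ M, ∀ b ∈ M, a * b * a⁻¹ * b⁻¹ ∈ Subgroup.center G)
    (hMcen : ∀ a ∈ M, (∀ b ∈ M, a * b = b * a) → a ∈ Subgroup.center G)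
    (hMne : ¬ ∀ a ∈ M, ∀ b ∈ M, a * b = b * a)
    (hC : ∀ g : G, (∀ m ∈ M, g * m * g⁻¹ * m⁻¹ ∈ Subgroup.center G) → φ g = 1)
    (IH : ∀ (H : Subgroup G) (W : Type u) [AddCommGroup W] [Finite W] [DistribMulAction H W],
      Nat.card W < Nat.card V → H.map φ = ⊤ →
      (∀ h : H, (∀ w : W, h • w = w) → φ h = 1) → LinConcl (φ.comp H.subtype) W) :
    LinConcl φ V := by
  classical
  have hMn : M.Normal := inferInstance
  by_contra hL
  have hbad : ∀ v₁ v₂ : V,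
      (MulAction.stabilizer G v₁ ⊓ MulAction.stabilizer G v₂).map φ = ⊤ := by
    intro v₁ v₂
    by_contra h
    exact hL ⟨v₁, v₂, h⟩
  obtain ⟨r, hr, hMr⟩ := exists_prime_exp M hZM hMmin hMab hMne
  -- the maximal stabilizer
  obtain ⟨v₁, hv₁, hmax⟩ : ∃ v₁ : V, v₁ ≠ 0 ∧ ∀ u : V, u ≠ 0 →
      Nat.card (M ⊓ MulAction.stabilizer G u : Subgroup G) ≤
      Nat.card (M ⊓ MulAction.stabilizer G v₁ : Subgroup G) := by
    obtain ⟨v0, hv0⟩ := exists_ne (0 : V)
    obtain ⟨v₁, hv₁, hm⟩ := Set.exists_max_image {v : V | v ≠ 0}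
      (fun u => Nat.card (M ⊓ MulAction.stabilizer G u : Subgroup G)) (Set.toFinite _)
      ⟨v0, hv0⟩
    exact ⟨v₁, hv₁, fun u hu => hm u hu⟩
  set R : Subgroup G := MulAction.stabilizer G v₁ with hR
  have hRmem : ∀ g, g ∈ R ↔ g • v₁ = v₁ := fun g => MulAction.mem_stabilizer_iff
  have hRtop : R.map φ = ⊤ := by
    refine map_top_mono ?_ (hbad v₁ 0)
    exact inf_le_left
  obtain ⟨R₀, hR₀⟩ : ∃ R₀ : Subgroup G, ∀ g, g ∈ R₀ ↔ g • v₁ = v₁ ∧
      ∀ d ∈ M, d • v₁ = v₁ → g * d = d * g := by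
    refine ⟨R ⊓ Subgroup.centralizer {d | d ∈ M ∧ d • v₁ = v₁}, fun g => ?_⟩
    rw [Subgroup.mem_inf, Subgroup.mem_centralizer_iff, hRmem]
    constructor
    · rintro ⟨h1, h2⟩
      exact ⟨h1, fun d hd hd' => (h2 d ⟨hd, hd'⟩).symm⟩
    · rintro ⟨h1, h2⟩
      exact ⟨h1, fun d hd => (h2 d hd.1 hd.2).symm⟩
  have hR₀top := R0_ne_top hT hZcyc hZfree M hZM hMab hMne hC hr hMr hv₁ hmax R₀ hR₀
  have hR₀bot : R₀.map φ = ⊥ := by
    rcases map_eq_bot_or_top (A := R₀) hRtop (by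
      intro k hk g hg
      rw [hRmem] at hk
      rw [hR₀] at hg ⊢
      have hk' : k⁻¹ • v₁ = v₁ := by rw [inv_smul_eq_iff, hk]
      refine ⟨by rw [mul_smul, mul_smul, hk', hg.1, hk], fun d hd hd1 => ?_⟩
      have h1 : k⁻¹ * d * k ∈ M := by simpa using hMn.conj_mem d hd k⁻¹
      have h2 : (k⁻¹ * d * k) • v₁ = v₁ := by rw [mul_smul, mul_smul, hk, hd1, hk']
      have h3 := hg.2 _ h1 h2
      calc k * g * k⁻¹ * d = k * (g * (k⁻¹ * d * k)) * k⁻¹ := by group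
        _ = k * ((k⁻¹ * d * k) * g) * k⁻¹ := by rw [h3]
        _ = d * (k * g * k⁻¹) := by group) with h | h
    · exact h
    · exact absurd h hR₀top
  have hR₀1 : ∀ g ∈ R₀, φ g = 1 := by
    intro g hg
    have : φ g ∈ R₀.map φ := ⟨g, hg, rfl⟩
    rw [hR₀bot] at this
    exact Subgroup.mem_bot.mp this
  -- the group `D` and the weights
  obtain ⟨D, hD⟩ : ∃ D : Subgroup G, ∀ d, d ∈ D ↔ d ∈ M ∧ d • v₁ = v₁ :=
    ⟨M ⊓ R, fun d => by rw [Subgroup.mem_inf, hRmem]⟩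
  let κ : M →* (D → Subgroup.center G) := MonoidHom.mk'
    (fun x d => ⟨(d : G) * x * (d : G)⁻¹ * (x : G)⁻¹, hMab _ ((hD d).mp d.2).1 _ x.2⟩)
    (by
      intro a b
      funext d
      apply Subtype.ext
      exact comm_mul_right (hMab _ ((hD d).mp d.2).1 _ b.2))
  have hκ : ∀ (x : M) (d : D), ((κ x d : Subgroup.center G) : G)
      = (d : G) * x * (d : G)⁻¹ * (x : G)⁻¹ := fun x d => rfl
  let cj : R → D → D := fun g d => ⟨(g : G)⁻¹ * d * g, by
    rw [hD]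
    have hd := (hD d).mp d.2
    have hg := (hRmem g).mp g.2
    refine ⟨by simpa using hMn.conj_mem d hd.1 (g : G)⁻¹, ?_⟩
    rw [mul_smul, mul_smul, hg, hd.2, inv_smul_eq_iff, hg]⟩
  have hcj : ∀ (g : R) (d : D), ((cj g d : D) : G) = (g : G)⁻¹ * d * g := fun g d => rfl
  have hcjκ : ∀ (g : R) (x : M), (fun d => κ x (cj g d))
      = κ ⟨(g : G) * x * (g : G)⁻¹, hMn.conj_mem x x.2 g⟩ := by
    intro g x
    funext d
    apply Subtype.ext
    rw [hκ, hκ, hcj]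
    have h1 := comm_conj (g := (g : G)⁻¹) (a := (d : G)) (b := (x : G)) (by
      have h2 := hMab _ (hMn.conj_mem d ((hD d).mp d.2).1 (g : G)⁻¹) x x.2
      exact h2)
    simpa using h1
  have hsm : ∀ (g : R) (w : κ.range), (fun d => (w : D → Subgroup.center G) (cj g d)) ∈ κ.range := by
    rintro g ⟨_, x, rfl⟩
    exact ⟨_, (hcjκ g x).symm⟩
  letI icg : CommGroup κ.range :=
    { (inferInstance : Group κ.range) with
      mul_comm := by
        intro a b
        apply Subtype.ext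
        funext d
        apply Subtype.ext
        exact cen ((a : D → Subgroup.center G) d).2 _ }
  let W : Type u := Additive κ.range
  letI iacg : AddCommGroup W := inferInstanceAs (AddCommGroup (Additive κ.range))
  let inst : DistribMulAction R W :=
    { smul := fun g w => Additive.ofMul
        (⟨fun d => ((Additive.toMul w : κ.range) : D → Subgroup.center G) (cj g d),
          hsm g (Additive.toMul w)⟩ : κ.range)
      one_smul := by
        intro w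
        apply Additive.toMul.injective
        apply Subtype.ext
        funext d
        have h1 : cj 1 d = d := by
          apply Subtype.ext
          rw [hcj]; simp
        change ((Additive.toMul w : κ.range) : D → Subgroup.center G) (cj 1 d) = _
        rw [h1]
      mul_smul := by
        intro g h w
        apply Additive.toMul.injective
        apply Subtype.ext
        funext d
        have h1 : cj (g * h) d = cj h (cj g d) := by
          apply Subtype.ext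
          rw [hcj, hcj, hcj]
          simp only [Subgroup.coe_mul]
          group
        change ((Additive.toMul w : κ.range) : D → Subgroup.center G) (cj (g * h) d) =
          ((Additive.toMul w : κ.range) : D → Subgroup.center G) (cj h (cj g d))
        rw [h1]
      smul_zero := by
        intro g
        rfl
      smul_add := by
        intro g w w'
        rfl }
  have hsmul : ∀ (g : R) (w : W) (d : D),
      ((Additive.toMul (g • w) : κ.range) : D → Subgroup.center G) d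
        = ((Additive.toMul w : κ.range) : D → Subgroup.center G) (cj g d) := fun g w d => rfl
  -- coordinates
  have hex : ∀ w : W, ∃ x : M, κ x = ((Additive.toMul w : κ.range) : D → Subgroup.center G) :=
    fun w => (Additive.toMul w).2
  choose rep hrep using hex
  have hWt : ∀ x : M, Wt (κ x) ((x : G) • v₁) := by
    intro x d
    rw [hκ, ← mul_smul, ← mul_smul]
    have h1 : (d : G) * x = (d : G) * x * (d : G)⁻¹ * (x : G)⁻¹ * x * d := by group
    rw [h1, mul_smul _ (d : G), ((hD d).mp d.2).2]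
    congr 1
    group
  have hne0 : ∀ g : G, g • v₁ ≠ 0 := by
    intro g h
    rw [smul_eq_zero_iff_eq] at h
    exact hv₁ h
  have hcard : Nat.card W < Nat.card V := by
    have h1 : Function.Injective (fun o : Option W => match o with
        | none => (0 : V)
        | some w => ((rep w : M) : G) • v₁) := by
      intro o o' h
      rcases o with _ | w
      · rcases o' with _ | w'
        · rfl
        · exact absurd h.symm (hne0 _)
      · rcases o' with _ | w'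
        · exact absurd h (hne0 _)
        · simp only at h
          have h2 := hWt (rep w)
          have h3 := hWt (rep w')
          rw [← h] at h3
          have h4 := wt_eq hZfree h2 h3 (hne0 _)
          rw [hrep, hrep] at h4
          congr 1
          exact Additive.toMul.injective (Subtype.ext h4)
    have h2 := Nat.card_le_card_of_injective _ h1
    rw [Finite.card_option] at h2
    omega
  have hfin : Finite W := inferInstance
  have hfaithW : ∀ h : R, (∀ w : W, h • w = w) → φ h = 1 := by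
    intro g hg
    apply hR₀1
    rw [hR₀]
    refine ⟨(hRmem g).mp g.2, fun d hd hd1 => ?_⟩
    have hdD : d ∈ D := (hD d).mpr ⟨hd, hd1⟩
    -- `g⁻¹ d g d⁻¹` commutes with `M`
    have h1 : ∀ x ∈ M, ((g : G)⁻¹ * d * g) * x * ((g : G)⁻¹ * d * g)⁻¹ * x⁻¹
        = d * x * d⁻¹ * x⁻¹ := by
      intro x hx
      have h2 := hg (Additive.ofMul ⟨κ ⟨x, hx⟩, ⟨x, hx⟩, rfl⟩)
      have h3 := hsmul g (Additive.ofMul ⟨κ ⟨x, hx⟩, ⟨x, hx⟩, rfl⟩) ⟨d, hdD⟩
      rw [h2] at h3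
      have h4 := congrArg (fun z : Subgroup.center G => (z : G)) h3
      exact h4.symm
    have hconj : (g : G)⁻¹ * d * g ∈ D := (cj g ⟨d, hdD⟩).2
    have hconj' := (hD _).mp hconj
    have h5 : ((g : G)⁻¹ * d * g) * d⁻¹ ∈ Subgroup.center G := by
      apply hMcen _ (M.mul_mem hconj'.1 (M.inv_mem hd))
      intro x hx
      have h6 := comm_mul_left (a := (g : G)⁻¹ * d * g) (b := d⁻¹) (x := x)
        (hMab _ (M.inv_mem hd) x hx)
      have h7 := comm_inv (hMab d hd x hx)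
      rw [inv_inv] at h6
      rw [h7, h1 x hx, mul_inv_cancel] at h6
      calc (g : G)⁻¹ * d * g * d⁻¹ * x
          = ((g : G)⁻¹ * d * g * d⁻¹ * x * ((g : G)⁻¹ * d * g * d⁻¹)⁻¹ * x⁻¹) *
            (x * ((g : G)⁻¹ * d * g * d⁻¹)) := by group
        _ = x * ((g : G)⁻¹ * d * g * d⁻¹) := by rw [h6, one_mul]
    have h8 : (((g : G)⁻¹ * d * g) * d⁻¹) • v₁ = v₁ := by
      have : d⁻¹ • v₁ = v₁ := by rw [inv_smul_eq_iff, hd1]
      rw [mul_smul, this, hconj'.2]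
    have h9 := hZfree _ h5 v₁ hv₁ h8
    have h10 : (g : G)⁻¹ * d * g = d := mul_inv_eq_one.mp h9
    calc (g : G) * d = g * ((g : G)⁻¹ * d * g) := by rw [h10]
      _ = d * g := by group
  obtain ⟨w₁, w₂, hw⟩ := IH R W hcard hRtop hfaithW
  apply hw
  obtain ⟨x₁, hx₁⟩ : ∃ x : M, κ x = ((Additive.toMul w₁ : κ.range) : D → Subgroup.center G) :=
    ⟨rep w₁, hrep w₁⟩
  obtain ⟨x₂, hx₂⟩ : ∃ x : M, κ x = ((Additive.toMul w₂ : κ.range) : D → Subgroup.center G) :=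
    ⟨rep w₂, hrep w₂⟩
  -- weights of translates
  have htr : ∀ (g : R) (x : M) (w : W), κ x = ((Additive.toMul w : κ.range) : D → _) →
      Wt ((Additive.toMul (g • w) : κ.range) : D → Subgroup.center G)
        ((g : G) • (x : G) • v₁) := by
    intro g x w hx
    have h1 := hWt ⟨(g : G) * x * (g : G)⁻¹, hMn.conj_mem x x.2 g⟩
    rw [← hcjκ] at h1
    have h2 : (fun d => κ x (cj g d))
        = ((Additive.toMul (g • w) : κ.range) : D → Subgroup.center G) := by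
      funext d
      rw [hsmul, hx]
    rw [h2] at h1
    have h3 : (g : G)⁻¹ • v₁ = v₁ := by rw [inv_smul_eq_iff, (hRmem g).mp g.2]
    have h4 : ((⟨(g : G) * x * (g : G)⁻¹, hMn.conj_mem x x.2 g⟩ : M) : G) • v₁
        = (g : G) • (x : G) • v₁ := by
      change ((g : G) * x * (g : G)⁻¹) • v₁ = _
      rw [mul_smul, mul_smul, h3]
    rw [h4] at h1
    exact h1
  have hinjW : ∀ w w' : W, ((Additive.toMul w : κ.range) : D → Subgroup.center G)
      = ((Additive.toMul w' : κ.range) : D → Subgroup.center G) → w = w' :=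
    fun w w' h => Additive.toMul.injective (Subtype.ext h)
  have hKmap : ∀ K : Subgroup R, K.map (φ.comp R.subtype) = (K.map R.subtype).map φ := by
    intro K
    rw [Subgroup.map_map]
  rw [hKmap]
  by_cases hww : w₁ = w₂
  · -- equal classes
    refine map_top_mono ?_ (hbad v₁ ((x₁ : G) • v₁))
    intro g hg
    rw [Subgroup.mem_inf, MulAction.mem_stabilizer_iff, MulAction.mem_stabilizer_iff] at hg
    have hgR : g ∈ R := (hRmem g).mpr hg.1
    have h1 := htr ⟨g, hgR⟩ x₁ w₁ hx₁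
    have h2 := hWt x₁
    rw [hx₁] at h2
    have h3 : ((⟨g, hgR⟩ : R) : G) • (x₁ : G) • v₁ = (x₁ : G) • v₁ := hg.2
    rw [h3] at h1
    have h4 := hinjW _ _ (wt_eq hZfree h1 h2 (hne0 _))
    refine ⟨⟨g, hgR⟩, ?_, rfl⟩
    rw [SetLike.mem_coe, Subgroup.mem_inf, MulAction.mem_stabilizer_iff,
      MulAction.mem_stabilizer_iff, ← hww]
    exact ⟨h4, h4⟩
  · refine map_eq_top_of_commutator_le hT (hbad v₁ ((x₁ : G) • v₁ + (x₂ : G) • v₁)) ?_
    have hperm : ∀ g : R, (g : G) • ((x₁ : G) • v₁ + (x₂ : G) • v₁)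
        = (x₁ : G) • v₁ + (x₂ : G) • v₁ →
        (g • w₁ = w₁ ∧ g • w₂ = w₂) ∨ (g • w₁ = w₂ ∧ g • w₂ = w₁) := by
      intro g hg
      rw [smul_add] at hg
      have a1 := htr g x₁ w₁ hx₁
      have a2 := htr g x₂ w₂ hx₂
      have b1 := hWt x₁
      have b2 := hWt x₂
      rw [hx₁] at b1
      rw [hx₂] at b2
      have hne12 : g • w₁ ≠ g • w₂ := fun h => hww (by
        have := congrArg (fun w => g⁻¹ • w) h
        simpa only [inv_smul_smul] using this)
      have c1 : (g : G) • (x₁ : G) • v₁ =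
          (x₁ : G) • v₁ + (x₂ : G) • v₁ + -((g : G) • (x₂ : G) • v₁) := by
        rw [← hg]; abel
      have c2 : (g : G) • (x₂ : G) • v₁ =
          (x₁ : G) • v₁ + (x₂ : G) • v₁ + -((g : G) • (x₁ : G) • v₁) := by
        rw [← hg]; abel
      have n1 : (g : G) • (x₁ : G) • v₁ ≠ 0 := by
        rw [← mul_smul]; exact hne0 _
      have n2 : (g : G) • (x₂ : G) • v₁ ≠ 0 := by
        rw [← mul_smul]; exact hne0 _
      have d1 : g • w₁ = w₁ ∨ g • w₁ = w₂ := by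
        by_contra hcon
        push Not at hcon
        exact n1 (wt_indep hZfree a1 b1 b2 a2.neg c1 (fun h => hcon.1 (hinjW _ _ h))
          (fun h => hcon.2 (hinjW _ _ h)) (fun h => hne12 (hinjW _ _ h)))
      have d2 : g • w₂ = w₁ ∨ g • w₂ = w₂ := by
        by_contra hcon
        push Not at hcon
        exact n2 (wt_indep hZfree a2 b1 b2 a1.neg c2 (fun h => hcon.1 (hinjW _ _ h))
          (fun h => hcon.2 (hinjW _ _ h)) (fun h => hne12 (hinjW _ _ h.symm)))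
      rcases d1 with d1 | d1 <;> rcases d2 with d2 | d2
      · exact absurd (d1.trans d2.symm) hne12
      · exact Or.inl ⟨d1, d2⟩
      · exact Or.inr ⟨d1, d2⟩
      · exact absurd (d1.trans d2.symm) hne12
    rw [Subgroup.commutator_le]
    intro g hg h hh
    rw [Subgroup.mem_inf, MulAction.mem_stabilizer_iff, MulAction.mem_stabilizer_iff] at hg hh
    have hgR : g ∈ R := (hRmem g).mpr hg.1
    have hhR : h ∈ R := (hRmem h).mpr hh.1
    have pg := hperm ⟨g, hgR⟩ hg.2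
    have ph := hperm ⟨h, hhR⟩ hh.2
    refine ⟨⁅(⟨g, hgR⟩ : R), (⟨h, hhR⟩ : R)⁆, ?_, rfl⟩
    generalize (⟨g, hgR⟩ : R) = g' at pg
    generalize (⟨h, hhR⟩ : R) = h' at ph
    rw [SetLike.mem_coe, Subgroup.mem_inf, MulAction.mem_stabilizer_iff,
      MulAction.mem_stabilizer_iff, commutatorElement_def, mul_smul, mul_smul, mul_smul,
      mul_smul, mul_smul, mul_smul]
    rcases pg with ⟨p1, p2⟩ | ⟨p1, p2⟩ <;> rcases ph with ⟨q1, q2⟩ | ⟨q1, q2⟩
    · have p1' : g'⁻¹ • w₁ = w₁ := by rw [inv_smul_eq_iff, p1]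
      have p2' : g'⁻¹ • w₂ = w₂ := by rw [inv_smul_eq_iff, p2]
      have q1' : h'⁻¹ • w₁ = w₁ := by rw [inv_smul_eq_iff, q1]
      have q2' : h'⁻¹ • w₂ = w₂ := by rw [inv_smul_eq_iff, q2]
      rw [q1', p1', q1, p1, q2', p2', q2, p2]
      exact ⟨rfl, rfl⟩
    · have p1' : g'⁻¹ • w₁ = w₁ := by rw [inv_smul_eq_iff, p1]
      have p2' : g'⁻¹ • w₂ = w₂ := by rw [inv_smul_eq_iff, p2]
      have q1' : h'⁻¹ • w₁ = w₂ := by rw [inv_smul_eq_iff, q2]
      have q2' : h'⁻¹ • w₂ = w₁ := by rw [inv_smul_eq_iff, q1]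
      rw [q1', p2', q2, p1, q2', p1', q1, p2]
      exact ⟨rfl, rfl⟩
    · have p1' : g'⁻¹ • w₁ = w₂ := by rw [inv_smul_eq_iff, p2]
      have p2' : g'⁻¹ • w₂ = w₁ := by rw [inv_smul_eq_iff, p1]
      have q1' : h'⁻¹ • w₁ = w₁ := by rw [inv_smul_eq_iff, q1]
      have q2' : h'⁻¹ • w₂ = w₂ := by rw [inv_smul_eq_iff, q2]
      rw [q1', p1', q2, p2, q2', p2', q1, p1]
      exact ⟨rfl, rfl⟩
    · have p1' : g'⁻¹ • w₁ = w₂ := by rw [inv_smul_eq_iff, p2]
      have p2' : g'⁻¹ • w₂ = w₁ := by rw [inv_smul_eq_iff, p1]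
      have q1' : h'⁻¹ • w₁ = w₂ := by rw [inv_smul_eq_iff, q2]
      have q2' : h'⁻¹ • w₂ = w₁ := by rw [inv_smul_eq_iff, q1]
      rw [q1', p2', q1, p2, q2', p1', q2, p1]
      exact ⟨rfl, rfl⟩

end Pool.Agent.TH82.BS
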