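import Pool.Agent.TH82.BS.Basic

set_option autoImplicit false

namespace Pool.Agent.TH409.J82

open scoped Pointwise commutatorElement

universe u

section comm
variable {G : Type u} [Group G]

theorem cen {z : G} (hz : z ∈ Subgroup.center G) (g : G) : z * g = g * z :=
  (Subgroup.mem_center_iff.mp hz g).symm

theorem comm_mul_left {a b x : G} (h : b * x * b⁻¹ * x⁻¹ ∈ Subgroup.center G) :
    a * b * x * (a * b)⁻¹ * x⁻¹ = (a * x * a⁻¹ * x⁻¹) * (b * x * b⁻¹ * x⁻¹) := by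
  have h1 : a * b * x * (a * b)⁻¹ * x⁻¹ = a * ((b * x * b⁻¹ * x⁻¹) * (x * a⁻¹ * x⁻¹)) := by group
  rw [h1, cen h]
  group

theorem comm_mul_right {a b x : G} (h : x * b * x⁻¹ * b⁻¹ ∈ Subgroup.center G) :
    x * (a * b) * x⁻¹ * (a * b)⁻¹ = (x * a * x⁻¹ * a⁻¹) * (x * b * x⁻¹ * b⁻¹) := by
  have h1 : x * (a * b) * x⁻¹ * (a * b)⁻¹ = x * a * x⁻¹ * ((x * b * x⁻¹ * b⁻¹) * a⁻¹) := by group
  rw [h1, cen h]
  group

theorem comm_inv {a x : G} (h : a * x * a⁻¹ * x⁻¹ ∈ Subgroup.center G) :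
    a⁻¹ * x * a * x⁻¹ = (a * x * a⁻¹ * x⁻¹)⁻¹ := by
  have h1 := cen h a⁻¹
  have h2 : a⁻¹ * x * a * x⁻¹ = (a⁻¹ * (a * x * a⁻¹ * x⁻¹) * a)⁻¹ := by group
  rw [h2, ← h1]
  group

theorem comm_conj {g a b : G} (h : g * a * g⁻¹ * b * (g * a * g⁻¹)⁻¹ * b⁻¹ ∈ Subgroup.center G) :
    g * a * g⁻¹ * b * (g * a * g⁻¹)⁻¹ * b⁻¹
      = a * (g⁻¹ * b * g) * a⁻¹ * (g⁻¹ * b * g)⁻¹ := by
  have h1 := cen h g
  have h2 : a * (g⁻¹ * b * g) * a⁻¹ * (g⁻¹ * b * g)⁻¹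
      = g⁻¹ * ((g * a * g⁻¹ * b * (g * a * g⁻¹)⁻¹ * b⁻¹) * g) := by group
  rw [h2, h1]
  group

theorem comm_pow {a x : G} (h : a * x * a⁻¹ * x⁻¹ ∈ Subgroup.center G) (n : ℕ) :
    a ^ n * x * (a ^ n)⁻¹ * x⁻¹ = (a * x * a⁻¹ * x⁻¹) ^ n := by
  induction n with
  | zero => simp
  | succ n ih =>
    have h1 := comm_mul_left (a := a ^ n) h
    rw [← pow_succ] at h1
    rw [h1, ih, pow_succ]

/-- `(a b)^n = a^n b^n [b,a]^(n choose 2)` in class two. -/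
theorem mul_pow_class2 {a b : G} (h : b * a * b⁻¹ * a⁻¹ ∈ Subgroup.center G) (n : ℕ) :
    (a * b) ^ n = a ^ n * b ^ n * (b * a * b⁻¹ * a⁻¹) ^ (n * (n - 1) / 2) := by
  set k := b * a * b⁻¹ * a⁻¹ with hk
  induction n with
  | zero => simp
  | succ n ih =>
    have h1 : b ^ n * a * (b ^ n)⁻¹ * a⁻¹ = k ^ n := comm_pow h n
    have h2 : b ^ n * a = k ^ n * a * b ^ n := by
      rw [← h1]; group
    have hkc : ∀ m : ℕ, k ^ m ∈ Subgroup.center G := fun m => Subgroup.pow_mem _ h m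
    have h3 : (n + 1) * (n + 1 - 1) / 2 = n + n * (n - 1) / 2 := by
      rcases n with _ | n
      · simp
      · have : (n + 1 + 1) * (n + 1 + 1 - 1) = 2 * (n + 1) + (n + 1) * (n + 1 - 1) := by
          simp only [Nat.add_sub_cancel]; ring
        rw [this]
        omega
    have h4 : k ^ (n + n * (n - 1) / 2) = k ^ n * k ^ (n * (n - 1) / 2) := pow_add _ _ _
    rw [pow_succ, ih, h3, h4]
    calc a ^ n * b ^ n * k ^ (n * (n - 1) / 2) * (a * b)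
        = a ^ n * b ^ n * (k ^ (n * (n - 1) / 2) * (a * b)) := by group
      _ = a ^ n * b ^ n * ((a * b) * k ^ (n * (n - 1) / 2)) := by rw [cen (hkc _)]
      _ = a ^ n * (b ^ n * a) * b * k ^ (n * (n - 1) / 2) := by group
      _ = a ^ n * (k ^ n * a * b ^ n) * b * k ^ (n * (n - 1) / 2) := by rw [h2]
      _ = a ^ n * (k ^ n * (a * b ^ n * b)) * k ^ (n * (n - 1) / 2) := by group
      _ = a ^ n * ((a * b ^ n * b) * k ^ n) * k ^ (n * (n - 1) / 2) := by rw [cen (hkc n)]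
      _ = a ^ (n + 1) * b ^ (n + 1) * (k ^ n * k ^ (n * (n - 1) / 2)) := by
          rw [pow_succ, pow_succ]; group

end comm

section dc
variable {H : Type u} [Group H]

/-- stability group argument -/
theorem double_comm (A A1 A2 R : Subgroup H)
    (hab : ∀ a ∈ A, ∀ b ∈ A, a * b = b * a) (h1A : A1 ≤ A) (h21 : A2 ≤ A1)
    (hRA : ∀ g ∈ R, ∀ a ∈ A, g * a * g⁻¹ * a⁻¹ ∈ A1)
    (hRA1 : ∀ g ∈ R, ∀ a ∈ A1, g * a * g⁻¹ * a⁻¹ ∈ A2)
    (hRA2 : ∀ g ∈ R, ∀ a ∈ A2, g * a = a * g) :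
    ∀ x ∈ ⁅⁅R, R⁆, ⁅R, R⁆⁆, ∀ a ∈ A, x * a = a * x := by
  -- the middle group
  let P : Subgroup H :=
    { carrier := {x | (∀ a ∈ A, x * a * x⁻¹ * a⁻¹ ∈ A2) ∧ ∀ a ∈ A1, x * a = a * x}
      one_mem' := by
        refine ⟨fun a _ => ?_, fun a _ => ?_⟩
        · have : (1 : H) * a * 1⁻¹ * a⁻¹ = 1 := by group
          rw [this]; exact A2.one_mem
        · simp
      mul_mem' := by
        rintro x y ⟨hx, hx'⟩ ⟨hy, hy'⟩
        refine ⟨fun a ha => ?_, fun a ha => ?_⟩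
        · have h1 := hx' _ (h21 (hy a ha))
          have h2 : x * y * a * (x * y)⁻¹ * a⁻¹
              = x * (y * a * y⁻¹ * a⁻¹) * (a * x⁻¹ * a⁻¹) := by group
          have h3 : x * y * a * (x * y)⁻¹ * a⁻¹
              = (y * a * y⁻¹ * a⁻¹) * (x * a * x⁻¹ * a⁻¹) := by
            rw [h2, h1]; group
          rw [h3]
          exact A2.mul_mem (hy a ha) (hx a ha)
        · rw [mul_assoc, hy' a ha, ← mul_assoc, hx' a ha, mul_assoc]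
      inv_mem' := by
        rintro x ⟨hx, hx'⟩
        refine ⟨fun a ha => ?_, fun a ha => ?_⟩
        · have h1 := hx' _ (h21 (hx a ha))
          have h2 : x⁻¹ * a * x⁻¹⁻¹ * a⁻¹ = (x * a * x⁻¹ * a⁻¹)⁻¹ := by
            have h3 : x⁻¹ * (x * a * x⁻¹ * a⁻¹) * x = (x * a * x⁻¹ * a⁻¹) := by
              rw [mul_assoc, ← h1]; group
            rw [← h3]; group
          rw [h2]
          exact A2.inv_mem (hx a ha)
        · have h1 := hx' a ha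
          calc x⁻¹ * a = x⁻¹ * (a * x) * x⁻¹ := by group
            _ = x⁻¹ * (x * a) * x⁻¹ := by rw [h1]
            _ = a * x⁻¹ := by group }
  have hPmem : ∀ x, x ∈ P ↔ (∀ a ∈ A, x * a * x⁻¹ * a⁻¹ ∈ A2) ∧ ∀ a ∈ A1, x * a = a * x :=
    fun x => Iff.rfl
  have hconjA : ∀ g ∈ R, ∀ a ∈ A, g * a * g⁻¹ ∈ A := by
    intro g hg a ha
    have h1 := A.mul_mem (h1A (hRA g hg a ha)) ha
    have h2 : g * a * g⁻¹ * a⁻¹ * a = g * a * g⁻¹ := by group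
    rwa [h2] at h1
  have hconjA1 : ∀ g ∈ R, ∀ a ∈ A1, g * a * g⁻¹ ∈ A1 := by
    intro g hg a ha
    have h1 := A1.mul_mem (h21 (hRA1 g hg a ha)) ha
    have h2 : g * a * g⁻¹ * a⁻¹ * a = g * a * g⁻¹ := by group
    rwa [h2] at h1
  -- key computation
  have key : ∀ g ∈ R, ∀ h ∈ R, ∀ a ∈ A,
      g * (h * a * h⁻¹) * g⁻¹ =
        (g * (h * a * h⁻¹ * a⁻¹) * g⁻¹ * (h * a * h⁻¹ * a⁻¹)⁻¹) *
        (h * (g * a * g⁻¹ * a⁻¹) * h⁻¹ * (g * a * g⁻¹ * a⁻¹)⁻¹)⁻¹ * (h * (g * a * g⁻¹) * h⁻¹) := by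
    intro g hg h hh a ha
    have hβ := h1A (hRA h hh a ha)
    have hα := h1A (hRA g hg a ha)
    have hβ2 := h1A (h21 (hRA1 g hg _ (hRA h hh a ha)))
    have hα2 := h1A (h21 (hRA1 h hh _ (hRA g hg a ha)))
    have e1 : g * (h * a * h⁻¹) * g⁻¹ =
        (g * (h * a * h⁻¹ * a⁻¹) * g⁻¹ * (h * a * h⁻¹ * a⁻¹)⁻¹) * ((h * a * h⁻¹ * a⁻¹) *
          ((g * a * g⁻¹ * a⁻¹) * a)) := by group
    have e2 : h * (g * a * g⁻¹) * h⁻¹ =
        (h * (g * a * g⁻¹ * a⁻¹) * h⁻¹ * (g * a * g⁻¹ * a⁻¹)⁻¹) * ((g * a * g⁻¹ * a⁻¹) *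
          ((h * a * h⁻¹ * a⁻¹) * a)) := by group
    have e3 : (h * a * h⁻¹ * a⁻¹) * ((g * a * g⁻¹ * a⁻¹) * a) =
        (g * a * g⁻¹ * a⁻¹) * ((h * a * h⁻¹ * a⁻¹) * a) := by
      rw [← mul_assoc, hab _ hβ _ hα, mul_assoc]
    have e4 : ∀ p q s t : H, p = s → p = q * q⁻¹ * s := by
      intro p q s t h; rw [h]; group
    rw [e1, e2, e3]
    generalize g * (h * a * h⁻¹ * a⁻¹) * g⁻¹ * (h * a * h⁻¹ * a⁻¹)⁻¹ = X
    generalize h * (g * a * g⁻¹ * a⁻¹) * h⁻¹ * (g * a * g⁻¹ * a⁻¹)⁻¹ = Y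
    generalize g * a * g⁻¹ * a⁻¹ * (h * a * h⁻¹ * a⁻¹ * a) = U
    group
  have hRP : ⁅R, R⁆ ≤ P := by
    rw [Subgroup.commutator_le]
    intro g hg h hh
    rw [hPmem]
    have hcore : ∀ b ∈ A, ∃ a ∈ A, (b ∈ A1 → a ∈ A1) ∧
        ⁅g, h⁆ * b * ⁅g, h⁆⁻¹ = g * (h * a * h⁻¹) * g⁻¹ ∧ h * (g * a * g⁻¹) * h⁻¹ = b := by
      intro b hb
      refine ⟨g⁻¹ * (h⁻¹ * b * h) * g, ?_, ?_, ?_, ?_⟩
      · have h1 := hconjA h⁻¹ (R.inv_mem hh) b hb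
        have h2 := hconjA g⁻¹ (R.inv_mem hg) _ h1
        simpa using h2
      · intro hb1
        have h1 := hconjA1 h⁻¹ (R.inv_mem hh) b hb1
        have h2 := hconjA1 g⁻¹ (R.inv_mem hg) _ h1
        simpa using h2
      · simp only [commutatorElement_def]; group
      · group
    constructor
    · intro b hb
      obtain ⟨a, ha, -, h1, h2⟩ := hcore b hb
      have h3 := key g hg h hh a ha
      rw [h1, h3, h2]
      have h4 := hRA1 g hg _ (hRA h hh a ha)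
      have h5 := hRA1 h hh _ (hRA g hg a ha)
      have h6 := A2.mul_mem h4 (A2.inv_mem h5)
      have e : ∀ p b : H, p * b * b⁻¹ = p := fun p b => by group
      rw [e]
      exact h6
    · intro b hb
      obtain ⟨a, ha, hab1, h1, h2⟩ := hcore b (h1A hb)
      have ha1 := hab1 hb
      have h3 := key g hg h hh a ha
      have h4 := hRA2 g hg _ (hRA1 h hh a ha1)
      have h5 := hRA2 h hh _ (hRA1 g hg a ha1)
      have h6 : g * (h * a * h⁻¹ * a⁻¹) * g⁻¹ * (h * a * h⁻¹ * a⁻¹)⁻¹ = 1 := by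
        rw [h4]; group
      have h7 : h * (g * a * g⁻¹ * a⁻¹) * h⁻¹ * (g * a * g⁻¹ * a⁻¹)⁻¹ = 1 := by
        rw [h5]; group
      rw [h6, h7, h2] at h3
      simp only [inv_one, one_mul] at h3
      rw [h3] at h1
      calc ⁅g, h⁆ * b = (⁅g, h⁆ * b * ⁅g, h⁆⁻¹) * ⁅g, h⁆ := by group
        _ = b * ⁅g, h⁆ := by rw [h1]
  have hconjPA : ∀ g ∈ P, ∀ a ∈ A, g * a * g⁻¹ ∈ A := by
    intro g hg a ha
    have h1 := A.mul_mem (h1A (h21 (hg.1 a ha))) ha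
    have h2 : g * a * g⁻¹ * a⁻¹ * a = g * a * g⁻¹ := by group
    rwa [h2] at h1
  have hPC : ⁅P, P⁆ ≤ Subgroup.centralizer (A : Set H) := by
    rw [Subgroup.commutator_le]
    intro x hx y hy
    rw [Subgroup.mem_centralizer_iff]
    intro b hb
    set a := x⁻¹ * (y⁻¹ * b * y) * x with haa
    have ha : a ∈ A := by
      have h1 := hconjPA y⁻¹ (P.inv_mem hy) b hb
      have h2 := hconjPA x⁻¹ (P.inv_mem hx) _ h1
      simpa using h2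
    have h1 : ⁅x, y⁆ * b * ⁅x, y⁆⁻¹ = x * (y * a * y⁻¹) * x⁻¹ := by
      rw [haa]; simp only [commutatorElement_def]; group
    have h2 : y * (x * a * x⁻¹) * y⁻¹ = b := by rw [haa]; group
    have h3 := hx.2 _ (h21 (hy.1 a ha))
    have h4 := hy.2 _ (h21 (hx.1 a ha))
    have h5 : x * (y * a * y⁻¹) * x⁻¹ = (y * a * y⁻¹ * a⁻¹) * ((x * a * x⁻¹ * a⁻¹) * a) := by
      have : x * (y * a * y⁻¹) * x⁻¹ = x * (y * a * y⁻¹ * a⁻¹) * (a * x⁻¹) := by group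
      rw [this, h3]; group
    have h6 : y * (x * a * x⁻¹) * y⁻¹ = (x * a * x⁻¹ * a⁻¹) * ((y * a * y⁻¹ * a⁻¹) * a) := by
      have : y * (x * a * x⁻¹) * y⁻¹ = y * (x * a * x⁻¹ * a⁻¹) * (a * y⁻¹) := by group
      rw [this, h4]; group
    have h7 := hab _ (h1A (h21 (hy.1 a ha))) _ (h1A (h21 (hx.1 a ha)))
    have h8 : x * (y * a * y⁻¹) * x⁻¹ = b := by
      rw [← h2, h5, h6, ← mul_assoc, h7, mul_assoc]
    rw [h8] at h1
    calc b * ⁅x, y⁆ = (⁅x, y⁆ * b * ⁅x, y⁆⁻¹) * ⁅x, y⁆ := by rw [h1]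
      _ = ⁅x, y⁆ * b := by group
  intro x hx a ha
  have h1 : x ∈ Subgroup.centralizer (A : Set H) :=
    hPC (Subgroup.commutator_mono hRP hRP hx)
  exact (Subgroup.mem_centralizer_iff.mp h1 a ha).symm

end dc

end Pool.Agent.TH409.J82
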