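import Pool.Agent.TH409.J82A

set_option autoImplicit false

namespace Pool.Agent.TH409.J82

open scoped Pointwise commutatorElement
open Pool.Agent.TH82.BS

universe u

section fix

variable {G : Type u} [Group G] {V : Type u} [AddCommGroup V] [DistribMulAction G V]

theorem smul_sum_pow (g : G) (r : ℕ) (hg : g ^ r = 1) (v : V) :
    g • ∑ i ∈ Finset.range r, g ^ i • v = ∑ i ∈ Finset.range r, g ^ i • v := by
  rw [Finset.smul_sum]
  have h1 : ∀ i ∈ Finset.range r, g • g ^ i • v = g ^ (i + 1) • v := by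
    intro i _
    rw [← mul_smul, ← pow_succ']
  rw [Finset.sum_congr rfl h1]
  have h2 := Finset.sum_range_succ' (fun i => g ^ i • v) r
  have h3 := Finset.sum_range_succ (fun i => g ^ i • v) r
  rw [h3] at h2
  simp only [hg, pow_zero, one_smul] at h2
  exact (add_right_cancel h2).symm

theorem exists_fixed [Finite V]
    (hZfree : ∀ z ∈ Subgroup.center G, ∀ v : V, v ≠ 0 → z • v = v → z = 1)
    {r : ℕ} (hr : r.Prime) {z : G} (hz : z ∈ Subgroup.center G) (hz1 : z ≠ 1) (hzr : z ^ r = 1)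
    {m : G} (hm : m ^ r = 1) {v : V} (hv : v ≠ 0) :
    ∃ (j : ℕ) (u : V), u ≠ 0 ∧ (m * z ^ j) • u = u ∧
      ∀ d : G, d • v = v → d * m = m * d → d • u = u := by
  classical
  have hfact : Fact r.Prime := ⟨hr⟩
  have hmz : Commute m z := Subgroup.mem_center_iff.mp hz m
  have hrv : r • v ≠ 0 := by
    intro h0
    have h1 : addOrderOf v = r := addOrderOf_eq_prime h0 hv
    have h2 : r ∣ Nat.card V := h1 ▸ addOrderOf_dvd_natCard v
    have hP : IsPGroup r (Subgroup.zpowers z) := by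
      intro g
      obtain ⟨n, hn⟩ := Subgroup.mem_zpowers_iff.mp g.2
      refine ⟨1, ?_⟩
      apply Subtype.ext
      rw [pow_one, Subgroup.coe_pow, ← hn, ← zpow_natCast, ← zpow_mul, mul_comm, zpow_mul,
        zpow_natCast, hzr, one_zpow]
      rfl
    obtain ⟨b, hb, hb0⟩ := hP.exists_fixed_point_of_prime_dvd_card_of_fixed_point V h2
      (a := (0 : V)) (by
        rw [MulAction.mem_fixedPoints]
        intro g
        exact smul_zero _)
    rw [MulAction.mem_fixedPoints] at hb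
    have h3 := hb ⟨z, Subgroup.mem_zpowers z⟩
    exact hz1 (hZfree z hz b (Ne.symm hb0) h3)
  have hg : ∀ j : ℕ, (m * z ^ j) ^ r = 1 := by
    intro j
    rw [(hmz.pow_right j).mul_pow, hm, one_mul, ← pow_mul, mul_comm, pow_mul, hzr, one_pow]
  have hsum : ∑ j ∈ Finset.range r, ∑ i ∈ Finset.range r, (m * z ^ j) ^ i • v = r • v := by
    rw [Finset.sum_comm]
    rw [Finset.sum_eq_single 0]
    · simp
    · intro i hi hi0
      have h1 : ∀ j ∈ Finset.range r, (m * z ^ j) ^ i • v = m ^ i • ((z ^ i) ^ j • v) := by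
        intro j _
        rw [(hmz.pow_right j).mul_pow, mul_smul, ← pow_mul, ← pow_mul, mul_comm j i]
      rw [Finset.sum_congr rfl h1, ← Finset.smul_sum]
      have h2 : (z ^ i) ^ r = 1 := by rw [← pow_mul, mul_comm, pow_mul, hzr, one_pow]
      have h3 := smul_sum_pow (z ^ i) r h2 v
      have h4 : ∑ j ∈ Finset.range r, (z ^ i) ^ j • v = 0 := by
        by_contra hne
        have h5 := hZfree (z ^ i) (Subgroup.pow_mem _ hz i) _ hne h3
        have h6 : orderOf z = r := orderOf_eq_prime hzr hz1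
        have h7 := orderOf_dvd_of_pow_eq_one h5
        rw [h6] at h7
        exact absurd (Nat.le_of_dvd (Nat.pos_of_ne_zero hi0) h7)
          (not_le.mpr (Finset.mem_range.mp hi))
      rw [h4, smul_zero]
    · intro h0
      exact absurd (Finset.mem_range.mpr hr.pos) h0
  have hex : ∃ j ∈ Finset.range r, ∑ i ∈ Finset.range r, (m * z ^ j) ^ i • v ≠ 0 := by
    by_contra hcon
    push Not at hcon
    rw [Finset.sum_eq_zero hcon] at hsum
    exact hrv hsum.symm
  obtain ⟨j, -, hj⟩ := hex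
  refine ⟨j, _, hj, smul_sum_pow _ r (hg j) v, ?_⟩
  intro d hd hdm
  rw [Finset.smul_sum]
  refine Finset.sum_congr rfl (fun i _ => ?_)
  have hdz : Commute d (z ^ j) := Subgroup.mem_center_iff.mp (Subgroup.pow_mem _ hz j) d
  have h1 : Commute d ((m * z ^ j) ^ i) := (Commute.mul_right hdm hdz).pow_right i
  rw [← mul_smul, h1.eq, mul_smul, hd]

end fix

theorem cyc_sq {G : Type u} [Group G] {Z : Subgroup G} (h : IsCyclic Z) {x y : G} (hx : x ∈ Z)
    (hy : y ∈ Z) (hxs : ¬ ∃ t ∈ Z, x = t ^ 2) (hys : ¬ ∃ t ∈ Z, y = t ^ 2) :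
    ∃ t ∈ Z, x * y = t ^ 2 := by
  obtain ⟨⟨g, hgZ⟩, hg⟩ := h.exists_generator
  obtain ⟨i, hi⟩ := hg ⟨x, hx⟩
  obtain ⟨j, hj⟩ := hg ⟨y, hy⟩
  have hi' : g ^ i = x := by simpa using congrArg Subtype.val hi
  have hj' : g ^ j = y := by simpa using congrArg Subtype.val hj
  have hio : Odd i := by
    rw [← Int.not_even_iff_odd]
    rintro ⟨k, hk⟩
    exact hxs ⟨g ^ k, Subgroup.zpow_mem _ hgZ k, by
      rw [← hi', hk, zpow_add, pow_two]⟩
  have hjo : Odd j := by
    rw [← Int.not_even_iff_odd]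
    rintro ⟨k, hk⟩
    exact hys ⟨g ^ k, Subgroup.zpow_mem _ hgZ k, by
      rw [← hj', hk, zpow_add, pow_two]⟩
  obtain ⟨k, hk⟩ := hio.add_odd hjo
  exact ⟨g ^ k, Subgroup.zpow_mem _ hgZ k, by
    rw [← hi', ← hj', ← zpow_add, hk, zpow_add, pow_two]⟩

/-- A subgroup of index at most three still maps onto `T`. -/
theorem map_index_le_three {T : Type u} [Group T] [IsSimpleGroup T]
    (hT : ¬ ∀ a b : T, a * b = b * a)
    {G : Type u} [Group G] [Finite G] {φ : G →* T} {J : Subgroup G} (hJ : J.map φ = ⊤)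
    (S : Subgroup G) (f : G → Fin 3) (hf : ∀ g ∈ J, ∀ h ∈ J, f g = f h → g⁻¹ * h ∈ S) :
    (J ⊓ S).map φ = ⊤ := by
  classical
  obtain ⟨S', hS'⟩ : ∃ S' : Subgroup J, S' = S.subgroupOf J := ⟨_, rfl⟩
  have hmem : ∀ x : J, x ∈ S' ↔ (x : G) ∈ S := by
    intro x; rw [hS', Subgroup.mem_subgroupOf]
  have hinj : Function.Injective (fun q : J ⧸ S' => f (q.out : J)) := by
    intro q q' h
    have h1 := hf _ (q.out).2 _ (q'.out).2 h
    have h2 : (q.out)⁻¹ * q'.out ∈ S' := by
      rw [hmem]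
      simpa using h1
    have h3 := (QuotientGroup.eq).mpr h2
    rw [QuotientGroup.out_eq', QuotientGroup.out_eq'] at h3
    exact h3
  have hcard : Nat.card (J ⧸ S') ≤ 3 := by
    have := Nat.card_le_card_of_injective _ hinj
    simpa using this
  have hsolv := perm_solvable_of_card_le_three (J ⧸ S') hcard
  have h1 := map_ker_eq_top_of_solvable hT hJ (MulAction.toPermHom J (J ⧸ S'))
  refine map_top_mono ?_ h1
  rintro _ ⟨k, hk, rfl⟩
  refine ⟨k.2, ?_⟩
  rw [SetLike.mem_coe, MonoidHom.mem_ker] at hk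
  have h2 : k • ((1 : J) : J ⧸ S') = ((1 : J) : J ⧸ S') := by
    have := congrArg (fun p : Equiv.Perm (J ⧸ S') => p ((1 : J) : J ⧸ S')) hk
    simpa using this
  rw [MulAction.Quotient.smul_coe] at h2
  have h3 := (QuotientGroup.eq).mp h2.symm
  rw [hmem] at h3
  simpa using h3

end Pool.Agent.TH409.J82
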