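import Pool.Agent.TH409.J82B

set_option autoImplicit false

namespace Pool.Agent.TH409.J82

open scoped Pointwise commutatorElement
open Pool.Agent.TH82.BS

universe u

section expo

variable {G : Type u} [Group G] [Finite G]

/-- a prime `r` with `m ^ r` central for all `m` in `M` -/
theorem exists_prime_exp (M : Subgroup G) [hMn : M.Normal] (hZM : Subgroup.center G ≤ M)
    (hMmin : ∀ K : Subgroup G, K.Normal → Subgroup.center G ≤ K → K ≤ M →
      K = Subgroup.center G ∨ K = M)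
    (hMab : ∀ a ∈ M, ∀ b ∈ M, a * b * a⁻¹ * b⁻¹ ∈ Subgroup.center G)
    (hMne : ¬ ∀ a ∈ M, ∀ b ∈ M, a * b = b * a) :
    ∃ r : ℕ, r.Prime ∧ ∀ m ∈ M, m ^ r ∈ Subgroup.center G := by
  classical
  obtain ⟨a, ha, haZ⟩ : ∃ a ∈ M, a ∉ Subgroup.center G := by
    by_contra hcon
    push Not at hcon
    exact hMne (fun a ha b _ => cen (hcon a ha) b)
  set q : G ⧸ Subgroup.center G := QuotientGroup.mk a with hq
  have hq1 : q ≠ 1 := by
    intro h
    exact haZ ((QuotientGroup.eq_one_iff a).mp h)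
  set n := orderOf q with hn
  have hn1 : n ≠ 1 := fun h => hq1 (orderOf_eq_one_iff.mp h)
  have hn0 : 0 < n := orderOf_pos q
  set r := n.minFac with hr
  have hrp : r.Prime := Nat.minFac_prime hn1
  have hrn : r ∣ n := Nat.minFac_dvd n
  obtain ⟨k, hk⟩ := hrn
  have hk0 : 0 < k := by
    rcases Nat.eq_zero_or_pos k with h | h
    · rw [h] at hk; omega
    · exact h
  have hkn : k < n := by
    rw [hk]
    exact lt_mul_of_one_lt_left hk0 hrp.one_lt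
  have h1 : a ^ k ∉ Subgroup.center G := by
    intro h
    have h2 : q ^ k = 1 := by
      rw [hq, ← QuotientGroup.mk_pow]
      exact (QuotientGroup.eq_one_iff _).mpr h
    exact absurd (Nat.le_of_dvd hk0 (orderOf_dvd_of_pow_eq_one h2)) (not_le.mpr hkn)
  have h2 : (a ^ k) ^ r ∈ Subgroup.center G := by
    have h3 : q ^ n = 1 := pow_orderOf_eq_one q
    rw [hq, ← QuotientGroup.mk_pow] at h3
    have h4 := (QuotientGroup.eq_one_iff _).mp h3
    rw [← pow_mul, mul_comm k r, ← hk]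
    exact h4
  let K : Subgroup G :=
    { carrier := {m | m ∈ M ∧ m ^ r ∈ Subgroup.center G}
      one_mem' := ⟨M.one_mem, by rw [one_pow]; exact Subgroup.one_mem _⟩
      mul_mem' := by
        rintro x y ⟨hx, hx'⟩ ⟨hy, hy'⟩
        refine ⟨M.mul_mem hx hy, ?_⟩
        have h := hMab y hy x hx
        rw [mul_pow_class2 h]
        exact Subgroup.mul_mem _ (Subgroup.mul_mem _ hx' hy') (Subgroup.pow_mem _ h _)
      inv_mem' := by
        rintro x ⟨hx, hx'⟩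
        refine ⟨M.inv_mem hx, ?_⟩
        rw [inv_pow]
        exact Subgroup.inv_mem _ hx' }
  have hKn : K.Normal := by
    constructor
    rintro x ⟨hx, hx'⟩ g
    refine ⟨hMn.conj_mem x hx g, ?_⟩
    rw [conj_pow]
    exact (inferInstance : (Subgroup.center G).Normal).conj_mem _ hx' g
  rcases hMmin K hKn (fun z hz => ⟨hZM hz, Subgroup.pow_mem _ hz _⟩) (fun x hx => hx.1) with h | h
  · exfalso
    apply h1
    rw [← h]
    exact ⟨M.pow_mem ha k, h2⟩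
  · refine ⟨r, hrp, fun m hm => ?_⟩
    rw [← h] at hm
    exact hm.2

end expo

section step3

variable {T : Type u} [Group T] [IsSimpleGroup T]
variable {G : Type u} [Group G] [Finite G]
variable {V : Type u} [AddCommGroup V] [Finite V] [DistribMulAction G V]

/-- the subgroup `D Z` -/
def DZ (M : Subgroup G) (v₁ : V) : Subgroup G where
  carrier := {m | m ∈ M ∧ ∃ z ∈ Subgroup.center G, m • v₁ = z • v₁}
  one_mem' := ⟨M.one_mem, 1, Subgroup.one_mem _, rfl⟩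
  mul_mem' := by
    rintro x y ⟨hx, z, hz, hxz⟩ ⟨hy, w, hw, hyw⟩
    refine ⟨M.mul_mem hx hy, w * z, Subgroup.mul_mem _ hw hz, ?_⟩
    rw [mul_smul, hyw, ← mul_smul, ← cen hw x, mul_smul, hxz, ← mul_smul]
  inv_mem' := by
    rintro x ⟨hx, z, hz, hxz⟩
    refine ⟨M.inv_mem hx, z⁻¹, Subgroup.inv_mem _ hz, ?_⟩
    rw [inv_smul_eq_iff, ← mul_smul, ← cen (Subgroup.inv_mem _ hz) x, mul_smul, hxz, ← mul_smul,
      inv_mul_cancel, one_smul]

theorem mem_DZ {M : Subgroup G} {v₁ : V} {m : G} :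
    m ∈ DZ M v₁ ↔ m ∈ M ∧ ∃ z ∈ Subgroup.center G, m • v₁ = z • v₁ := Iff.rfl

/-- Claim (2) -/
theorem claim2
    (hZfree : ∀ z ∈ Subgroup.center G, ∀ v : V, v ≠ 0 → z • v = v → z = 1)
    (M : Subgroup G) (hZM : Subgroup.center G ≤ M)
    (hMab : ∀ a ∈ M, ∀ b ∈ M, a * b * a⁻¹ * b⁻¹ ∈ Subgroup.center G)
    (hMne : ¬ ∀ a ∈ M, ∀ b ∈ M, a * b = b * a)
    {r : ℕ} (hr : r.Prime) (hMr : ∀ m ∈ M, m ^ r ∈ Subgroup.center G)
    {v₁ : V} (hv₁ : v₁ ≠ 0)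
    (hmax : ∀ u : V, u ≠ 0 → Nat.card (M ⊓ MulAction.stabilizer G u : Subgroup G) ≤
      Nat.card (M ⊓ MulAction.stabilizer G v₁ : Subgroup G))
    {m : G} (hm : m ∈ M) (hmD : ∀ d ∈ M, d • v₁ = v₁ → d * m = m * d)
    {z₀ : G} (hz₀ : z₀ ∈ Subgroup.center G) (hmz : m ^ r = z₀ ^ r) : m ∈ DZ M v₁ := by
  obtain ⟨z, hz, hz1, hzr⟩ : ∃ z ∈ Subgroup.center G, z ≠ 1 ∧ z ^ r = 1 := by
    push Not at hMne
    obtain ⟨a, ha, b, hb, hab⟩ := hMne
    refine ⟨_, hMab a ha b hb, ?_, ?_⟩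
    · intro h
      apply hab
      calc a * b = (a * b * a⁻¹ * b⁻¹) * (b * a) := by group
        _ = b * a := by rw [h, one_mul]
    · rw [← comm_pow (hMab a ha b hb)]
      have h1 := cen (hMr a ha) b
      rw [h1]; group
  have hz₀' := Subgroup.inv_mem _ hz₀
  have hm1 : (m * z₀⁻¹) ^ r = 1 := by
    have hc : Commute m z₀⁻¹ := Subgroup.mem_center_iff.mp hz₀' m
    rw [hc.mul_pow, hmz, inv_pow, mul_inv_cancel]
  obtain ⟨j, u, hu, hju, hdu⟩ := exists_fixed hZfree hr hz hz1 hzr hm1 hv₁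
  have hle : (M ⊓ MulAction.stabilizer G v₁ : Subgroup G) ≤ M ⊓ MulAction.stabilizer G u := by
    intro d hd0
    rw [Subgroup.mem_inf, MulAction.mem_stabilizer_iff] at hd0 ⊢
    obtain ⟨hd, hd'⟩ := hd0
    refine ⟨hd, ?_⟩
    apply hdu d hd'
    rw [← mul_assoc, hmD d hd hd', mul_assoc, mul_assoc, cen hz₀' d]
  have heq : (M ⊓ MulAction.stabilizer G v₁ : Subgroup G) = M ⊓ MulAction.stabilizer G u :=
    Subgroup.eq_of_le_of_card_ge hle (hmax u hu)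
  have hg : m * z₀⁻¹ * z ^ j ∈ (M ⊓ MulAction.stabilizer G u : Subgroup G) :=
    ⟨M.mul_mem (M.mul_mem hm (hZM hz₀')) (hZM (Subgroup.pow_mem _ hz j)), hju⟩
  rw [← heq] at hg
  have hg2 : (m * z₀⁻¹ * z ^ j) • v₁ = v₁ := hg.2
  have hw : z₀ * (z ^ j)⁻¹ ∈ Subgroup.center G :=
    Subgroup.mul_mem _ hz₀ (Subgroup.inv_mem _ (Subgroup.pow_mem _ hz j))
  refine ⟨hm, z₀ * (z ^ j)⁻¹, hw, ?_⟩
  have h5 : m = (z₀ * (z ^ j)⁻¹) * (m * z₀⁻¹ * z ^ j) := by
    rw [cen hw]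
    have h6 := cen hz₀ (z ^ j)⁻¹
    calc m = m * z₀⁻¹ * z ^ j * ((z ^ j)⁻¹ * z₀) := by group
      _ = _ := by rw [← h6]
  conv_lhs => rw [h5]
  rw [mul_smul, hg2]

theorem claim_R1 (hT : ¬ ∀ a b : T, a * b = b * a) {φ : G →* T}
    (hZcyc : IsCyclic (Subgroup.center G))
    (hZfree : ∀ z ∈ Subgroup.center G, ∀ v : V, v ≠ 0 → z • v = v → z = 1)
    (M : Subgroup G) [hMn : M.Normal] (hZM : Subgroup.center G ≤ M)
    (hMab : ∀ a ∈ M, ∀ b ∈ M, a * b * a⁻¹ * b⁻¹ ∈ Subgroup.center G)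
    (hMne : ¬ ∀ a ∈ M, ∀ b ∈ M, a * b = b * a)
    {r : ℕ} (hr : r.Prime) (hMr : ∀ m ∈ M, m ^ r ∈ Subgroup.center G)
    {v₁ : V} (hv₁ : v₁ ≠ 0)
    (hmax : ∀ u : V, u ≠ 0 → Nat.card (M ⊓ MulAction.stabilizer G u : Subgroup G) ≤
      Nat.card (M ⊓ MulAction.stabilizer G v₁ : Subgroup G))
    (R₀ : Subgroup G) (hR₀ : ∀ g, g ∈ R₀ ↔ g • v₁ = v₁ ∧ ∀ d ∈ M, d • v₁ = v₁ → g * d = d * g)
    (hφ : R₀.map φ = ⊤)
    (CM : Subgroup G) (hCM : ∀ m, m ∈ CM ↔ m ∈ M ∧ ∀ d ∈ M, d • v₁ = v₁ → d * m = m * d) :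
    ∃ R₁ : Subgroup G, R₁ ≤ R₀ ∧ R₁.map φ = ⊤ ∧
      ∀ g ∈ R₁, ∀ m ∈ CM, g * m * g⁻¹ * m⁻¹ ∈ DZ M v₁ := by
  classical
  -- `D` is abelian
  have hDab : ∀ d ∈ M, d • v₁ = v₁ → ∀ e ∈ M, e • v₁ = v₁ → d * e = e * d := by
    intro d hd hd1 e he he1
    have h1 : (d * e * d⁻¹ * e⁻¹) • v₁ = v₁ := by
      rw [mul_smul, mul_smul, mul_smul, inv_smul_eq_iff.mpr he1.symm,
        inv_smul_eq_iff.mpr hd1.symm, he1, hd1]
    have h2 := hZfree _ (hMab d hd e he) v₁ hv₁ h1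
    calc d * e = (d * e * d⁻¹ * e⁻¹) * (e * d) := by group
      _ = e * d := by rw [h2, one_mul]
  -- elements of `DZ` are `d z`
  have hDZ : ∀ m ∈ DZ M v₁, ∃ d ∈ M, d • v₁ = v₁ ∧ ∃ z ∈ Subgroup.center G, m = z * d := by
    rintro m ⟨hm, z, hz, hmz⟩
    refine ⟨z⁻¹ * m, M.mul_mem (M.inv_mem (hZM hz)) hm, ?_, z, hz, by group⟩
    rw [mul_smul, hmz, inv_smul_smul]
  have hDZCM : ∀ m ∈ DZ M v₁, ∀ w ∈ CM, m * w = w * m := by
    intro m hm w hw
    obtain ⟨d, hd, hd1, z, hz, rfl⟩ := hDZ m hm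
    have h1 := ((hCM w).mp hw).2 d hd hd1
    rw [mul_assoc, h1, ← mul_assoc, cen hz w, mul_assoc]
  have hDZR : ∀ g ∈ R₀, ∀ m ∈ DZ M v₁, g * m = m * g := by
    intro g hg m hm
    obtain ⟨d, hd, hd1, z, hz, rfl⟩ := hDZ m hm
    have h1 := ((hR₀ g).mp hg).2 d hd hd1
    rw [← mul_assoc, ← cen hz g, mul_assoc, h1, ← mul_assoc]
  have hDZle : DZ M v₁ ≤ CM := by
    intro m hm
    rw [hCM]
    refine ⟨hm.1, fun e he he1 => ?_⟩
    obtain ⟨d, hd, hd1, z, hz, rfl⟩ := hDZ m hm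
    rw [← mul_assoc, ← cen hz e, mul_assoc, hDab e he he1 d hd hd1, ← mul_assoc]
  have hcl : ∀ m ∈ CM, ∀ z₀ ∈ Subgroup.center G, m ^ r = z₀ ^ r → m ∈ DZ M v₁ := by
    intro m hm z₀ hz₀ h
    exact claim2 hZfree M hZM hMab hMne hr hMr hv₁ hmax ((hCM m).mp hm).1 ((hCM m).mp hm).2 hz₀ h
  -- conjugation by `R₀` preserves `CM`
  have hconjCM : ∀ g ∈ R₀, ∀ m ∈ CM, g * m * g⁻¹ ∈ CM := by
    intro g hg m hm
    rw [hCM] at hm ⊢
    refine ⟨hMn.conj_mem m hm.1 g, fun d hd hd1 => ?_⟩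
    have h1 := ((hR₀ g).mp hg).2 d hd hd1
    have h2 := hm.2 d hd hd1
    have h3 : g⁻¹ * d = d * g⁻¹ := by
      calc g⁻¹ * d = g⁻¹ * (d * g) * g⁻¹ := by group
        _ = g⁻¹ * (g * d) * g⁻¹ := by rw [h1]
        _ = d * g⁻¹ := by group
    calc d * (g * m * g⁻¹) = (d * g) * m * g⁻¹ := by group
      _ = g * (d * m) * g⁻¹ := by rw [← h1]; group
      _ = g * m * (d * g⁻¹) := by rw [h2]; group
      _ = g * m * g⁻¹ * d := by rw [← h3]; group
  have htCM : ∀ g ∈ R₀, ∀ m ∈ CM, g * m * g⁻¹ * m⁻¹ ∈ CM := fun g hg m hm =>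
    CM.mul_mem (hconjCM g hg m hm) (CM.inv_mem hm)
  rcases hr.eq_two_or_odd' with hr2 | hrodd
  swap
  · -- odd case
    refine ⟨R₀, le_rfl, hφ, fun g hg m hm => ?_⟩
    refine hcl _ (htCM g hg m hm) 1 (Subgroup.one_mem _) ?_
    have hmM := ((hCM m).mp hm).1
    have hgM : g * m * g⁻¹ ∈ M := hMn.conj_mem m hmM g
    have hk : m⁻¹ * (g * m * g⁻¹) * m⁻¹⁻¹ * (g * m * g⁻¹)⁻¹ ∈ Subgroup.center G :=
      hMab m⁻¹ (M.inv_mem hmM) _ hgM
    rw [mul_pow_class2 hk]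
    have h1 : (m⁻¹ * (g * m * g⁻¹) * m⁻¹⁻¹ * (g * m * g⁻¹)⁻¹) ^ r = 1 := by
      rw [← comm_pow hk]
      have h2 := hMr m⁻¹ (M.inv_mem hmM)
      rw [cen h2]; group
    have h3 : r ∣ r * (r - 1) / 2 := by
      obtain ⟨k, hk⟩ := hrodd
      refine ⟨k, ?_⟩
      rw [hk, Nat.add_sub_cancel]
      have : (2 * k + 1) * (2 * k) = 2 * ((2 * k + 1) * k) := by ring
      rw [this, Nat.mul_div_cancel_left _ (by norm_num)]
    obtain ⟨k, hk'⟩ := h3
    rw [hk', pow_mul, h1, one_pow, mul_one, one_pow, conj_pow]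
    have h4 := cen (hMr m hmM) g
    rw [← h4]
    group
  · -- the case `r = 2`
    subst hr2
    -- product of non-members
    have hL : ∀ x ∈ CM, ∀ y ∈ CM, x ∉ DZ M v₁ → y ∉ DZ M v₁ → x * y ∉ DZ M v₁ →
        ¬ ∃ t ∈ Subgroup.center G, y * x * y⁻¹ * x⁻¹ = t ^ 2 := by
      rintro x hx y hy hx' hy' hxy ⟨t, ht, htt⟩
      have hxM := ((hCM x).mp hx).1
      have hyM := ((hCM y).mp hy).1
      have h1 : ¬ ∃ t ∈ Subgroup.center G, x ^ 2 = t ^ 2 := by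
        rintro ⟨s, hs, hss⟩
        exact hx' (hcl x hx s hs hss)
      have h2 : ¬ ∃ t ∈ Subgroup.center G, y ^ 2 = t ^ 2 := by
        rintro ⟨s, hs, hss⟩
        exact hy' (hcl y hy s hs hss)
      obtain ⟨s, hs, hss⟩ := cyc_sq hZcyc (hMr x hxM) (hMr y hyM) h1 h2
      apply hxy
      refine hcl _ (CM.mul_mem hx hy) (s * t) (Subgroup.mul_mem _ hs ht) ?_
      rw [mul_pow_class2 (hMab y hyM x hxM) 2]
      norm_num
      rw [hss, htt]
      have hc : Commute s t := Subgroup.mem_center_iff.mp ht s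
      rw [hc.mul_pow]
    -- cancellation
    have hE : ∀ x ∈ CM, ∀ y ∈ CM, x * y ∈ DZ M v₁ → y * x⁻¹ ∈ DZ M v₁ := by
      intro x hx y hy h
      have hxM := ((hCM x).mp hx).1
      have h1 := hDZCM _ h x⁻¹ (CM.inv_mem hx)
      have h2 : (x ^ 2)⁻¹ ∈ DZ M v₁ := by
        apply Subgroup.inv_mem
        exact ⟨M.pow_mem hxM 2, x ^ 2, hMr x hxM, rfl⟩
      have h3 : y * x⁻¹ = (x ^ 2)⁻¹ * (x * y) := by
        have h4 : y = x⁻¹ * (x * y) := by group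
        have h5 : y * x⁻¹ = x⁻¹ * ((x * y) * x⁻¹) := by group
        rw [h5, h1, pow_two]
        group
      rw [h3]
      exact Subgroup.mul_mem _ h2 h
    -- three classes cover
    have hcov : ∃ c₁ ∈ CM, ∃ c₂ ∈ CM, ∃ c₃ ∈ CM, ∀ w ∈ CM, w ∉ DZ M v₁ →
        (w * c₁⁻¹ ∈ DZ M v₁ ∨ w * c₂⁻¹ ∈ DZ M v₁ ∨ w * c₃⁻¹ ∈ DZ M v₁) := by
      by_cases hall : ∀ w ∈ CM, w ∈ DZ M v₁
      · exact ⟨1, CM.one_mem, 1, CM.one_mem, 1, CM.one_mem,
          fun w hw hw' => absurd (hall w hw) hw'⟩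
      push Not at hall
      obtain ⟨a, ha, ha'⟩ := hall
      by_cases hall2 : ∀ w ∈ CM, w ∉ DZ M v₁ → w * a⁻¹ ∈ DZ M v₁
      · exact ⟨a, ha, a, ha, a, ha, fun w hw hw' => Or.inl (hall2 w hw hw')⟩
      push Not at hall2
      obtain ⟨b, hb, hb', hba⟩ := hall2
      refine ⟨a, ha, b, hb, a * b, CM.mul_mem ha hb, ?_⟩
      intro w hw hw'
      by_contra hcon
      push Not at hcon
      obtain ⟨hwa, hwb, hwab⟩ := hcon
      have hab' : a * b ∉ DZ M v₁ := fun h => hba (hE a ha b hb h)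
      have haw : a * w ∉ DZ M v₁ := fun h => hwa (hE a ha w hw h)
      have hbw : b * w ∉ DZ M v₁ := fun h => hwb (hE b hb w hw h)
      have habw : a * (b * w) ∉ DZ M v₁ := by
        intro h
        rw [← mul_assoc] at h
        exact hwab (hE (a * b) (CM.mul_mem ha hb) w hw h)
      have k1 := hL a ha b hb ha' hb' hab'
      have k2 := hL a ha w hw ha' hw' haw
      have k3 := hL a ha (b * w) (CM.mul_mem hb hw) ha' hbw habw
      apply k3
      have haM := ((hCM a).mp ha).1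
      have hbM := ((hCM b).mp hb).1
      have hwM := ((hCM w).mp hw).1
      rw [comm_mul_left (hMab w hwM a haM)]
      exact cyc_sq hZcyc (hMab b hbM a haM) (hMab w hwM a haM) k1 k2
    obtain ⟨c₁, hc₁, c₂, hc₂, c₃, hc₃, hcov⟩ := hcov
    -- the stabilizer of a class
    have hS : ∀ x ∈ CM, ∀ J : Subgroup G, J ≤ R₀ → J.map φ = ⊤ →
        ∃ J' : Subgroup G, J' ≤ J ∧ J'.map φ = ⊤ ∧
          ∀ g ∈ J', g * x * g⁻¹ * x⁻¹ ∈ DZ M v₁ := by
      intro x hx J hJR hJ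
      let S : Subgroup G :=
        { carrier := {g | g ∈ R₀ ∧ g * x * g⁻¹ * x⁻¹ ∈ DZ M v₁}
          one_mem' := ⟨R₀.one_mem, by
            have : (1 : G) * x * 1⁻¹ * x⁻¹ = 1 := by group
            rw [this]; exact Subgroup.one_mem _⟩
          mul_mem' := by
            rintro g h ⟨hg, hg'⟩ ⟨hh, hh'⟩
            refine ⟨R₀.mul_mem hg hh, ?_⟩
            have h1 := hDZR g hg _ hh'
            have h2 : g * h * x * (g * h)⁻¹ * x⁻¹
                = g * (h * x * h⁻¹ * x⁻¹) * (x * g⁻¹ * x⁻¹) := by group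
            rw [h2, h1, mul_assoc]
            refine Subgroup.mul_mem _ hh' ?_
            have h3 : g * (x * g⁻¹ * x⁻¹) = g * x * g⁻¹ * x⁻¹ := by group
            rw [h3]; exact hg'
          inv_mem' := by
            rintro g ⟨hg, hg'⟩
            refine ⟨R₀.inv_mem hg, ?_⟩
            have h1 := hDZR g⁻¹ (R₀.inv_mem hg) _ hg'
            have h2 : g⁻¹ * x * g⁻¹⁻¹ * x⁻¹ = (g * x * g⁻¹ * x⁻¹)⁻¹ := by
              have h3 : g⁻¹ * (g * x * g⁻¹ * x⁻¹) * g = (g * x * g⁻¹ * x⁻¹) := by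
                rw [h1]; group
              rw [← h3]; group
            rw [h2]
            exact Subgroup.inv_mem _ hg' }
      by_cases hxD : x ∈ DZ M v₁
      · refine ⟨J, le_rfl, hJ, fun g hg => ?_⟩
        have h1 := hDZR g (hJR hg) x hxD
        rw [h1]
        have : x * g * g⁻¹ * x⁻¹ = 1 := by group
        rw [this]
        exact Subgroup.one_mem _
      let f : G → Fin 3 := fun g => if g * x * g⁻¹ * c₁⁻¹ ∈ DZ M v₁ then 0 else
        if g * x * g⁻¹ * c₂⁻¹ ∈ DZ M v₁ then 1 else 2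
      have hnot : ∀ g ∈ R₀, g * x * g⁻¹ ∉ DZ M v₁ := by
        intro g hg h
        apply hxD
        have h1 := hDZR g⁻¹ (R₀.inv_mem hg) _ h
        have h2 : x = g⁻¹ * (g * x * g⁻¹) * g := by group
        rw [h2, h1]
        have h3 : g * x * g⁻¹ * g⁻¹ * g = g * x * g⁻¹ := by group
        rw [h3]; exact h
      have hquot : ∀ g ∈ R₀, ∀ h ∈ R₀, ∀ c : G, g * x * g⁻¹ * c⁻¹ ∈ DZ M v₁ →
          h * x * h⁻¹ * c⁻¹ ∈ DZ M v₁ → g⁻¹ * h ∈ S := by
        intro g hg h hh c h1 h2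
        have h3 : (h * x * h⁻¹ * c⁻¹) * (g * x * g⁻¹ * c⁻¹)⁻¹ ∈ DZ M v₁ :=
          Subgroup.mul_mem _ h2 (Subgroup.inv_mem _ h1)
        have h4 := hDZR g⁻¹ (R₀.inv_mem hg) _ h3
        refine ⟨R₀.mul_mem (R₀.inv_mem hg) hh, ?_⟩
        have h5 : g⁻¹ * h * x * (g⁻¹ * h)⁻¹ * x⁻¹
            = g⁻¹ * ((h * x * h⁻¹ * c⁻¹) * (g * x * g⁻¹ * c⁻¹)⁻¹) * g := by group
        rw [h5, h4]
        have h6 : ∀ p : G, p * g⁻¹ * g = p := fun p => by group
        rw [h6]; exact h3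
      have h7 := map_index_le_three hT hJ S f (by
        intro g hg h hh hfgh
        have hg0 := hJR hg
        have hh0 := hJR hh
        have hg1 := hcov _ (hconjCM g hg0 x hx) (hnot g hg0)
        have hh1 := hcov _ (hconjCM h hh0 x hx) (hnot h hh0)
        by_cases a1 : g * x * g⁻¹ * c₁⁻¹ ∈ DZ M v₁
        · by_cases b1 : h * x * h⁻¹ * c₁⁻¹ ∈ DZ M v₁
          · exact hquot g hg0 h hh0 c₁ a1 b1
          · exfalso
            simp only [f, a1, b1, if_true, if_false] at hfgh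
            split_ifs at hfgh
            · exact absurd hfgh (by decide)
            · exact absurd hfgh (by decide)
        · by_cases b1 : h * x * h⁻¹ * c₁⁻¹ ∈ DZ M v₁
          · exfalso
            simp only [f, a1, b1, if_true, if_false] at hfgh
            split_ifs at hfgh
            · exact absurd hfgh (by decide)
            · exact absurd hfgh (by decide)
          · by_cases a2 : g * x * g⁻¹ * c₂⁻¹ ∈ DZ M v₁
            · by_cases b2 : h * x * h⁻¹ * c₂⁻¹ ∈ DZ M v₁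
              · exact hquot g hg0 h hh0 c₂ a2 b2
              · exfalso
                simp only [f, a1, b1, a2, b2, if_true, if_false] at hfgh
                exact absurd hfgh (by decide)
            · by_cases b2 : h * x * h⁻¹ * c₂⁻¹ ∈ DZ M v₁
              · exfalso
                simp only [f, a1, b1, a2, b2, if_true, if_false] at hfgh
                exact absurd hfgh (by decide)
              · rcases hg1 with h | h | ha3
                · exact absurd h a1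
                · exact absurd h a2
                rcases hh1 with h | h | hb3
                · exact absurd h b1
                · exact absurd h b2
                exact hquot g hg0 _ hh0 c₃ ha3 hb3)
      exact ⟨J ⊓ S, inf_le_left, h7, fun g hg => hg.2.2⟩
    obtain ⟨J₁, hJ₁, hJ₁', hJ₁c⟩ := hS c₁ hc₁ R₀ le_rfl hφ
    obtain ⟨J₂, hJ₂, hJ₂', hJ₂c⟩ := hS c₂ hc₂ J₁ hJ₁ hJ₁'
    obtain ⟨J₃, hJ₃, hJ₃', hJ₃c⟩ := hS c₃ hc₃ J₂ (hJ₂.trans hJ₁) hJ₂'
    refine ⟨J₃, (hJ₃.trans hJ₂).trans hJ₁, hJ₃', fun g hg m hm => ?_⟩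
    have hg0 : g ∈ R₀ := hJ₁ (hJ₂ (hJ₃ hg))
    by_cases hmD : m ∈ DZ M v₁
    · rw [hDZR g hg0 m hmD]
      have : m * g * g⁻¹ * m⁻¹ = 1 := by group
      rw [this]
      exact Subgroup.one_mem _
    have hfin : ∀ c ∈ CM, g * c * g⁻¹ * c⁻¹ ∈ DZ M v₁ → m * c⁻¹ ∈ DZ M v₁ →
        g * m * g⁻¹ * m⁻¹ ∈ DZ M v₁ := by
      intro c hc h1 h2
      have h3 := hDZR g hg0 _ h2
      have h4 : g * m * g⁻¹ * m⁻¹ = g * (m * c⁻¹) * (c * g⁻¹ * m⁻¹) := by group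
      rw [h4, h3]
      have h5 : m * c⁻¹ * g * (c * g⁻¹ * m⁻¹)
          = (m * c⁻¹) * (g * c * g⁻¹ * c⁻¹) * (m * c⁻¹)⁻¹ := by group
      rw [h5]
      exact Subgroup.mul_mem _ (Subgroup.mul_mem _ h2 h1) (Subgroup.inv_mem _ h2)
    rcases hcov m hm hmD with h | h | h
    · exact hfin c₁ hc₁ (hJ₁c g (hJ₂ (hJ₃ hg))) h
    · exact hfin c₂ hc₂ (hJ₂c g (hJ₃ hg)) h
    · exact hfin c₃ hc₃ (hJ₃c g hg) h

end step3

end Pool.Agent.TH409.J82
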